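import Pool.Agent.NH28.EL.Stm

/-!
# Exact Lagrangian submanifolds which are transverse to the fibres are sections
-/

set_option autoImplicit false

open Set Filter Topology Metric Function
open scoped ContDiff RealInnerProductSpace

noncomputable section

namespace Pool.Agent.NH28.EL

namespace CORE

variable {n : ℕ} {Γ : Subgroup (E n ≃ᵃⁱ[ℝ] E n)} {Λ : Set (E n × E n)}

/-- derivatives of maps to `Λ` are tangent -/
theorem tangent_of_map {F : E n → E n × E n} (hF : ContDiff ℝ ∞ F) (hΛ : ∀ s, F s ∈ Λ) (s v : E n) :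
    IsTangent Λ (F s) (fderiv ℝ F s v) := by
  refine ⟨fun t => F (s + t • v), hF.comp (contDiff_const.add (contDiff_id.smul contDiff_const)),
    fun t => hΛ _, by simp, ?_⟩
  have h1 : HasDerivAt (fun t : ℝ => s + t • v) v 0 := by
    have := ((hasDerivAt_id (0 : ℝ)).smul_const v).const_add s
    simpa using this
  have h2 : HasFDerivAt F (fderiv ℝ F s) ((fun t : ℝ => s + t • v) 0) := by
    simp only [zero_smul, add_zero]
    exact (hF.differentiable (by simp)).differentiableAt.hasFDerivAt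
  exact (h2.comp_hasDerivAt (0 : ℝ) h1).deriv

/-- the local structure of a submanifold which is transverse to the fibres -/
theorem local_str (hΛ : IsLagrangian Γ Λ) (ht : ∀ z ∈ Λ, ∀ a, IsTangent Λ z a → a.1 = 0 → a = 0)
    (z : E n × E n) (hz : z ∈ Λ) : ∃ (F : E n → E n × E n) (I : E n → E n), ContDiff ℝ ∞ F ∧
      ContDiffAt ℝ ∞ I z.1 ∧ (∀ s, F s ∈ Λ) ∧ F (I z.1) = z ∧
      (∀ᶠ x in 𝓝 z.1, (F (I x)).1 = x) ∧ IsIsotropic F ∧
      ∃ U : Set (E n × E n), IsOpen U ∧ z ∈ U ∧ ∀ z₁ ∈ Λ ∩ U, ∀ z₂ ∈ Λ ∩ U, z₁.1 = z₂.1 → z₁ = z₂ := by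
  obtain ⟨F, hF0, ⟨hF, hFi, himm⟩, hom, hU⟩ := hΛ.par z hz
  have hFΛ : ∀ s, F s ∈ Λ := by
    intro s
    obtain ⟨U, -, hU'⟩ := hU univ isOpen_univ
    have : F s ∈ F '' univ := mem_image_of_mem _ (mem_univ s)
    rw [hU'] at this
    exact this.1
  obtain ⟨G, hGd⟩ : ∃ G : E n → E n, G = fun s => (F s).1 := ⟨_, rfl⟩
  have hG : ContDiff ℝ ∞ G := by
    rw [hGd]
    exact contDiff_fst.comp hF
  have hFd : ∀ s, HasFDerivAt F (fderiv ℝ F s) s := fun s =>
    (hF.differentiable (by simp)).differentiableAt.hasFDerivAt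
  have hGD : ∀ s v, fderiv ℝ G s v = (fderiv ℝ F s v).1 := by
    intro s v
    have h1 : HasFDerivAt G ((ContinuousLinearMap.fst ℝ (E n) (E n)).comp (fderiv ℝ F s)) s := by
      rw [hGd]
      exact (hFd s).fst
    rw [h1.fderiv]
    rfl
  have hinj : Injective (fderiv ℝ G 0 : E n →ₗ[ℝ] E n) := by
    rw [← LinearMap.ker_eq_bot, LinearMap.ker_eq_bot']
    intro v hv
    have hv' : fderiv ℝ G 0 v = 0 := hv
    rw [hGD] at hv'
    exact himm 0 v (ht (F 0) (hFΛ 0) _ (tangent_of_map hF hFΛ 0 v) hv')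
  let e : E n ≃L[ℝ] E n := (LinearEquiv.ofInjectiveEndo _ hinj).toContinuousLinearEquiv
  have he : HasFDerivAt G (e : E n →L[ℝ] E n) 0 := by
    have h1 := ((hG.differentiable (by simp)).differentiableAt (x := (0 : E n))).hasFDerivAt
    have h2 : (e : E n →L[ℝ] E n) = fderiv ℝ G 0 := by
      ext1 v
      rfl
    rw [h2]
    exact h1
  have hGa : ContDiffAt ℝ ∞ G 0 := hG.contDiffAt
  have hn : (∞ : WithTop ℕ∞) ≠ 0 := by simp
  have hG0 : G 0 = z.1 := by rw [hGd]; simp only [hF0]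
  refine ⟨F, hGa.localInverse he hn, hF, ?_, hFΛ, ?_, ?_, hom, ?_⟩
  · rw [← hG0]
    exact hGa.to_localInverse he hn
  · rw [← hG0, hGa.localInverse_apply_image he hn, hF0]
  · rw [← hG0]
    have h3 := (hGa.hasStrictFDerivAt' he hn).eventually_right_inverse
    filter_upwards [h3] with x hx
    have h4 : G (hGa.localInverse he hn x) = x := hx
    exact (congrFun hGd _).symm.trans h4
  · have h3 := (hGa.hasStrictFDerivAt' he hn).eventually_left_inverse
    obtain ⟨V, hV, hVo, h0⟩ := _root_.eventually_nhds_iff.1 h3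
    obtain ⟨U, hUo, hU'⟩ := hU V hVo
    refine ⟨U, hUo, ?_, ?_⟩
    · have : F 0 ∈ F '' V := mem_image_of_mem _ h0
      rw [hU', hF0] at this
      exact this.2
    · intro z₁ h₁ z₂ h₂ h12
      rw [← hU'] at h₁ h₂
      obtain ⟨s₁, hs₁, rfl⟩ := h₁
      obtain ⟨s₂, hs₂, rfl⟩ := h₂
      have e1 : G s₁ = G s₂ := by rw [hGd]; exact h12
      have e2 := hV s₁ hs₁
      have e3 := hV s₂ hs₂
      rw [e1] at e2
      exact congrArg F (e2.symm.trans e3)

/-- continuity of the primitive -/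
theorem cont_prim (hΛ : IsLagrangian Γ Λ) {f : E n × E n → ℝ}
    (hf : ∀ F : E n → E n × E n, ContDiff ℝ ∞ F → (∀ s, F s ∈ Λ) → ∀ s, ∃ ℓ : E n →L[ℝ] ℝ,
      HasFDerivAt (fun s => f (F s)) ℓ s ∧ ∀ v, ℓ v = ⟪(F s).2, (fderiv ℝ F s v).1⟫) :
    ContinuousOn f Λ := by
  intro z hz
  obtain ⟨F, hF0, ⟨hF, hFi, himm⟩, hom, hU⟩ := hΛ.par z hz
  have hFΛ : ∀ s, F s ∈ Λ := by
    intro s
    obtain ⟨U, -, hU'⟩ := hU univ isOpen_univ
    have : F s ∈ F '' univ := mem_image_of_mem _ (mem_univ s)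
    rw [hU'] at this
    exact this.1
  have hc : Continuous fun s => f (F s) := by
    rw [continuous_iff_continuousAt]
    intro s
    obtain ⟨ℓ, h1, -⟩ := hf F hF hFΛ s
    exact h1.continuousAt
  rw [ContinuousWithinAt, tendsto_def]
  intro W hW
  obtain ⟨W', hW'W, hW'o, hzW'⟩ := _root_.mem_nhds_iff.1 hW
  obtain ⟨U, hUo, hU'⟩ := hU _ (hW'o.preimage hc)
  have hzU : z ∈ U := by
    have : F 0 ∈ F '' ((fun s => f (F s)) ⁻¹' W') := mem_image_of_mem _ (by
      show f (F 0) ∈ W'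
      rw [hF0]
      exact hzW')
    rw [hU', hF0] at this
    exact this.2
  rw [mem_nhdsWithin]
  refine ⟨U, hUo, hzU, ?_⟩
  rintro y ⟨hyU, hyΛ⟩
  have : y ∈ Λ ∩ U := ⟨hyΛ, hyU⟩
  rw [← hU'] at this
  obtain ⟨s, hs, rfl⟩ := this
  exact hW'W hs

theorem act_inj (γ : E n ≃ᵃⁱ[ℝ] E n) : Injective (act γ) := by
  intro z z' h
  have h1 : γ z.1 = γ z'.1 := congrArg Prod.fst h
  have h2 : γ.linearIsometryEquiv z.2 = γ.linearIsometryEquiv z'.2 := congrArg Prod.snd h
  exact Prod.ext (γ.injective h1) (γ.linearIsometryEquiv.injective h2)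

/-- the derivative of the primitive along a local section -/
theorem deriv_section {f : E n × E n → ℝ} {F : E n → E n × E n} {I : E n → E n} {x₀ : E n}
    (hf : ∃ ℓ : E n →L[ℝ] ℝ, HasFDerivAt (fun s => f (F s)) ℓ (I x₀) ∧
      ∀ v, ℓ v = ⟪(F (I x₀)).2, (fderiv ℝ F (I x₀) v).1⟫)
    (hF : ContDiff ℝ ∞ F) (hI : ContDiffAt ℝ ∞ I x₀) (hr : ∀ᶠ x in 𝓝 x₀, (F (I x)).1 = x) :
    HasFDerivAt (fun x => f (F (I x))) (innerSL ℝ (F (I x₀)).2) x₀ := by
  obtain ⟨ℓ, h1, h2⟩ := hf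
  have h3 : HasFDerivAt I (fderiv ℝ I x₀) x₀ := (hI.differentiableAt (by simp)).hasFDerivAt
  have h4 : HasFDerivAt (fun x => f (F (I x))) (ℓ.comp (fderiv ℝ I x₀)) x₀ := h1.comp x₀ h3
  have h5 : HasFDerivAt F (fderiv ℝ F (I x₀)) (I x₀) :=
    (hF.differentiable (by simp)).differentiableAt.hasFDerivAt
  have h6 : HasFDerivAt (fun x => (F (I x)).1)
      ((ContinuousLinearMap.fst ℝ (E n) (E n)).comp ((fderiv ℝ F (I x₀)).comp (fderiv ℝ I x₀))) x₀ :=
    (h5.comp x₀ h3).fst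
  have h7 : HasFDerivAt (fun x => (F (I x)).1) (ContinuousLinearMap.id ℝ (E n)) x₀ :=
    (hasFDerivAt_id x₀).congr_of_eventuallyEq hr
  have h8 := h6.unique h7
  have h9 : ℓ.comp (fderiv ℝ I x₀) = innerSL ℝ (F (I x₀)).2 := by
    ext1 v
    have h10 : (fderiv ℝ F (I x₀) (fderiv ℝ I x₀ v)).1 = v :=
      congrArg (fun L : E n →L[ℝ] E n => L v) h8
    show ℓ (fderiv ℝ I x₀ v) = ⟪(F (I x₀)).2, v⟫
    rw [h2, h10]
  rw [h9] at h4
  exact h4

/-- an exact submanifold which is transverse to the fibres meets every fibre at most once -/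
theorem injective_proj (hΓ : IsFlat Γ) (hΛ : IsLagrangian Γ Λ) (hE : IsExact Γ Λ)
    (ht : ∀ z ∈ Λ, ∀ a, IsTangent Λ z a → a.1 = 0 → a = 0) :
    ∀ z ∈ Λ, ∀ z' ∈ Λ, z.1 = z'.1 → z = z' := by
  obtain ⟨f, hfΓ, hf⟩ := hE
  have hfc := cont_prim hΛ hf
  obtain ⟨K, hK, hKc⟩ := hΓ.cocompact
  obtain ⟨R, hR⟩ := hΛ.bdd
  obtain ⟨P, hPd⟩ : ∃ P : Set ((E n × E n) × (E n × E n)),
    P = {w | w.1 ∈ Λ ∧ w.2 ∈ Λ ∧ w.1.1 = w.2.1 ∧ w.1 ≠ w.2 ∧ w.1.1 ∈ K} := ⟨_, rfl⟩
  have hPc : IsCompact P := by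
    have hsub : P ⊆ (K ×ˢ closedBall (0 : E n) R) ×ˢ (K ×ˢ closedBall (0 : E n) R) := by
      intro w hw
      rw [hPd] at hw
      obtain ⟨h1, h2, h3, h4, h5⟩ := hw
      refine ⟨⟨h5, ?_⟩, ⟨?_, ?_⟩⟩
      · rw [mem_closedBall_zero_iff]
        exact hR _ h1
      · rw [← h3]
        exact h5
      · rw [mem_closedBall_zero_iff]
        exact hR _ h2
    refine IsCompact.of_isClosed_subset ((hK.prod (isCompact_closedBall _ _)).prod
      (hK.prod (isCompact_closedBall _ _))) ?_ hsub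
    rw [← isSeqClosed_iff_isClosed]
    intro x y hx hxy
    have e : ∀ k, (x k).1 ∈ Λ ∧ (x k).2 ∈ Λ ∧ (x k).1.1 = (x k).2.1 ∧ (x k).1 ≠ (x k).2 ∧ (x k).1.1 ∈ K := by
      intro k
      have := hx k
      rw [hPd] at this
      exact this
    have t1 : Tendsto (fun k => (x k).1) atTop (𝓝 y.1) := (continuous_fst.tendsto y).comp hxy
    have t2 : Tendsto (fun k => (x k).2) atTop (𝓝 y.2) := (continuous_snd.tendsto y).comp hxy
    have m1 : y.1 ∈ Λ := hΛ.closed.mem_of_tendsto t1 (Eventually.of_forall fun k => (e k).1)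
    have m2 : y.2 ∈ Λ := hΛ.closed.mem_of_tendsto t2 (Eventually.of_forall fun k => (e k).2.1)
    have m3 : y.1.1 = y.2.1 := by
      have s1 := (continuous_fst.tendsto y.1).comp t1
      have s2 := (continuous_fst.tendsto y.2).comp t2
      have s3 : (Prod.fst ∘ fun k => (x k).1) = (Prod.fst ∘ fun k => (x k).2) := by
        funext k
        exact (e k).2.2.1
      rw [s3] at s1
      exact tendsto_nhds_unique s1 s2
    have m4 : y.1.1 ∈ K := by
      have s1 := (continuous_fst.tendsto y.1).comp t1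
      exact hK.isClosed.mem_of_tendsto s1 (Eventually.of_forall fun k => (e k).2.2.2.2)
    rw [hPd]
    refine ⟨m1, m2, m3, ?_, m4⟩
    intro h
    obtain ⟨-, -, -, -, -, -, -, -, U, hUo, hyU, hUi⟩ := local_str hΛ ht y.1 m1
    have g1 : ∀ᶠ k in atTop, (x k).1 ∈ U := t1.eventually (hUo.mem_nhds hyU)
    have g2 : ∀ᶠ k in atTop, (x k).2 ∈ U := t2.eventually (hUo.mem_nhds (by rw [← h]; exact hyU))
    obtain ⟨k, g3, g4⟩ := (g1.and g2).exists
    exact (e k).2.2.2.1 (hUi _ ⟨(e k).1, g3⟩ _ ⟨(e k).2.1, g4⟩ (e k).2.2.1)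
  -- translation into the fundamental set
  have htr : ∀ z ∈ Λ, ∀ z' ∈ Λ, z.1 = z'.1 → z ≠ z' → ∃ w ∈ P, f w.1 - f w.2 = f z - f z' := by
    intro z hz z' hz' h1 h2
    obtain ⟨γ, hγ, hγK⟩ := hKc z.1
    refine ⟨(act γ z, act γ z'), ?_, ?_⟩
    · rw [hPd]
      refine ⟨hΛ.inv γ hγ z hz, hΛ.inv γ hγ z' hz', ?_, fun h => h2 (act_inj γ h), hγK⟩
      show γ z.1 = γ z'.1
      rw [h1]
    · show f (act γ z) - f (act γ z') = _
      rw [hfΓ γ hγ z hz, hfΓ γ hγ z' hz']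
  by_contra hcon
  push Not at hcon
  obtain ⟨z, hz, z', hz', h1, h2⟩ := hcon
  obtain ⟨w₀, hw₀, -⟩ := htr z hz z' hz' h1 h2
  have hcont : ContinuousOn (fun w : (E n × E n) × (E n × E n) => f w.1 - f w.2) P := by
    refine ContinuousOn.sub ?_ ?_
    · refine hfc.comp continuous_fst.continuousOn ?_
      intro w hw
      rw [hPd] at hw
      exact hw.1
    · refine hfc.comp continuous_snd.continuousOn ?_
      intro w hw
      rw [hPd] at hw
      exact hw.2.1
  obtain ⟨m, hm, hmax⟩ := hPc.exists_isMaxOn ⟨w₀, hw₀⟩ hcont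
  have hmP := hm
  rw [hPd] at hmP
  obtain ⟨a1, a2, a3, a4, a5⟩ := hmP
  obtain ⟨F, I, hF, hI, hFΛ, hFI, hr, -, -⟩ := local_str hΛ ht m.1 a1
  obtain ⟨F', I', hF', hI', hFΛ', hFI', hr', -, -⟩ := local_str hΛ ht m.2 a2
  rw [← a3] at hI' hFI' hr'
  have d1 := deriv_section (hf F hF hFΛ (I m.1.1)) hF hI hr
  have d2 := deriv_section (hf F' hF' hFΛ' (I' m.1.1)) hF' hI' hr'
  rw [hFI] at d1
  rw [hFI'] at d2
  have c1 : ContinuousAt (fun x => F (I x)) m.1.1 := (hF.continuous.continuousAt).comp hI.continuousAt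
  have c2 : ContinuousAt (fun x => F' (I' x)) m.1.1 := (hF'.continuous.continuousAt).comp hI'.continuousAt
  have hne : ∀ᶠ x in 𝓝 m.1.1, F (I x) ≠ F' (I' x) := by
    have c3 : F (I m.1.1) - F' (I' m.1.1) ≠ 0 := by
      rw [hFI, hFI']
      exact sub_ne_zero.2 a4
    filter_upwards [(c1.sub c2).eventually_ne c3] with x hx
    exact sub_ne_zero.1 hx
  have hlm : IsLocalMax (fun x => f (F (I x)) - f (F' (I' x))) m.1.1 := by
    filter_upwards [hr, hr', hne] with x e1 e2 e3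
    obtain ⟨w, hw, hwe⟩ := htr _ (hFΛ (I x)) _ (hFΛ' (I' x)) (e1.trans e2.symm) e3
    rw [hFI, hFI', ← hwe]
    exact hmax hw
  have h0 := hlm.hasFDerivAt_eq_zero (d1.sub d2)
  have h3 : m.1.2 = m.2.2 := by
    refine ext_inner_right ℝ fun v => ?_
    have := congrArg (fun L : E n →L[ℝ] ℝ => L v) h0
    have h4 : ⟪m.1.2, v⟫ - ⟪m.2.2, v⟫ = 0 := this
    linarith
  exact a4 (Prod.ext a3 h3)

end CORE

open CORE in
theorem t_CORE : S_CORE := by
  intro n Γ hΓ Λ hΛ hE ht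
  have huniq := injective_proj hΓ hΛ hE ht
  -- surjectivity
  have hsurj : Prod.fst '' Λ = (univ : Set (E n)) := by
    refine IsClopen.eq_univ ⟨?_, ?_⟩ (hΛ.nonempty.image _)
    · rw [← isSeqClosed_iff_isClosed]
      intro x y hx hxy
      obtain ⟨R, hR⟩ := hΛ.bdd
      choose z hz hzx using hx
      obtain ⟨N, hN⟩ := (Metric.isBounded_range_of_tendsto x hxy).exists_norm_le
      have hb : ∀ i, z i ∈ closedBall (0 : E n × E n) (max N R) := by
        intro i
        rw [mem_closedBall_zero_iff, Prod.norm_def]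
        refine max_le_max ?_ (hR _ (hz i))
        rw [hzx i]
        exact hN _ (mem_range_self i)
      obtain ⟨w, -, φ, hφ, hw⟩ := (isCompact_closedBall (0 : E n × E n) (max N R)).tendsto_subseq hb
      have hwΛ : w ∈ Λ := hΛ.closed.mem_of_tendsto hw (Eventually.of_forall fun i => hz _)
      refine ⟨w, hwΛ, ?_⟩
      have h1 : Tendsto (fun i => (z (φ i)).1) atTop (𝓝 w.1) := (continuous_fst.tendsto w).comp hw
      have h2 : Tendsto (fun i => (z (φ i)).1) atTop (𝓝 y) := by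
        have h3 : (fun i => (z (φ i)).1) = fun i => x (φ i) := funext fun i => hzx _
        rw [h3]
        exact hxy.comp hφ.tendsto_atTop
      exact tendsto_nhds_unique h1 h2
    · rw [isOpen_iff_mem_nhds]
      rintro _ ⟨z, hz, rfl⟩
      obtain ⟨F, I, -, -, hFΛ, -, hr, -⟩ := local_str hΛ ht z hz
      filter_upwards [hr] with x hx
      exact ⟨F (I x), hFΛ _, hx⟩
  have hex : ∀ x, ∃ z, z ∈ Λ ∧ z.1 = x := by
    intro x
    have : x ∈ Prod.fst '' Λ := by rw [hsurj]; trivial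
    obtain ⟨z, hz, hzx⟩ := this
    exact ⟨z, hz, hzx⟩
  choose B hBΛ hB1 using hex
  obtain ⟨u, hu⟩ : ∃ u : E n → E n, ∀ x, u x = (B x).2 := ⟨_, fun _ => rfl⟩
  have hBe : ∀ x, B x = (x, u x) := fun x => Prod.ext (hB1 x) (hu x).symm
  -- smoothness and the Lagrangian condition
  have hBloc : ∀ x, ContDiffAt ℝ ∞ B x ∧ ∀ v w, om (fderiv ℝ B x v) (fderiv ℝ B x w) = 0 := by
    intro x
    obtain ⟨F, I, hF, hI, hFΛ, hFI, hr, hom, -⟩ := local_str hΛ ht (B x) (hBΛ x)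
    rw [hB1] at hI hr hFI
    have he : B =ᶠ[𝓝 x] fun y => F (I y) := by
      filter_upwards [hr] with y hy
      exact huniq _ (hBΛ y) _ (hFΛ _) ((hB1 y).trans hy.symm)
    have hc : ContDiffAt ℝ ∞ (fun y => F (I y)) x := hF.contDiffAt.comp x hI
    refine ⟨hc.congr_of_eventuallyEq he, fun v w => ?_⟩
    have hd : fderiv ℝ B x = (fderiv ℝ F (I x)).comp (fderiv ℝ I x) := by
      rw [he.fderiv_eq]
      exact fderiv_comp x ((hF.differentiable (by simp)).differentiableAt)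
        (hI.differentiableAt (by simp))
    rw [hd]
    exact hom _ _ _
  have hBs : ContDiff ℝ ∞ B := contDiff_iff_contDiffAt.2 fun x => (hBloc x).1
  have hus : ContDiff ℝ ∞ u := by
    have : u = fun x => (B x).2 := funext hu
    rw [this]
    exact contDiff_snd.comp hBs
  have hud : ∀ x, HasFDerivAt u (fderiv ℝ u x) x := fun x =>
    ((hus.differentiable (by simp)).differentiableAt).hasFDerivAt
  have husym : ∀ x v w, ⟪fderiv ℝ u x v, w⟫ = ⟪fderiv ℝ u x w, v⟫ := by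
    intro x v w
    have hBd : HasFDerivAt B ((ContinuousLinearMap.id ℝ (E n)).prod (fderiv ℝ u x)) x := by
      have h1 : B = fun x => (x, u x) := funext hBe
      rw [h1]
      exact (hasFDerivAt_id x).prodMk (hud x)
    have h2 := (hBloc x).2 v w
    rw [hBd.fderiv] at h2
    simp only [om, ContinuousLinearMap.prod_apply, ContinuousLinearMap.id_apply] at h2
    linarith
  have hueq : ∀ γ ∈ Γ, ∀ x, u (γ x) = γ.linearIsometryEquiv (u x) := by
    intro γ hγ x
    have h1 := huniq _ (hΛ.inv γ hγ _ (hBΛ x)) _ (hBΛ (γ x)) (by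
      rw [hB1]
      show γ (B x).1 = γ x
      rw [hB1])
    rw [hu, hu, ← h1]
    rfl
  -- the symplectic diffeomorphism
  let ψ : E n × E n ≃ E n × E n :=
    { toFun := fun z => (z.1, z.2 + u z.1)
      invFun := fun y => (y.1, y.2 - u y.1)
      left_inv := fun z => by simp
      right_inv := fun y => by simp }
  have hψ : ∀ z, ψ z = (z.1, z.2 + u z.1) := fun _ => rfl
  refine ⟨ψ, ⟨?_, ?_, ?_, ?_⟩, ?_⟩
  · exact contDiff_fst.prodMk (contDiff_snd.add (hus.comp contDiff_fst))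
  · exact contDiff_fst.prodMk (contDiff_snd.sub (hus.comp contDiff_fst))
  · intro γ hγ z
    rw [hψ, hψ]
    show (γ z.1, γ.linearIsometryEquiv z.2 + u (γ z.1)) = (γ z.1, γ.linearIsometryEquiv (z.2 + u z.1))
    rw [hueq γ hγ, map_add]
  · intro z a b
    have h1 : HasFDerivAt (fun z : E n × E n => (z.1, z.2 + u z.1))
        ((ContinuousLinearMap.fst ℝ (E n) (E n)).prod (ContinuousLinearMap.snd ℝ (E n) (E n) +
          (fderiv ℝ u z.1).comp (ContinuousLinearMap.fst ℝ (E n) (E n)))) z :=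
      hasFDerivAt_fst.prodMk (hasFDerivAt_snd.add ((hud z.1).comp z hasFDerivAt_fst))
    have h3 : fderiv ℝ ψ z = _ := h1.fderiv
    rw [h3]
    simp only [om, ContinuousLinearMap.prod_apply,
      add_apply, ContinuousLinearMap.comp_apply,
      ContinuousLinearMap.coe_fst', ContinuousLinearMap.coe_snd', inner_add_left]
    have h8 := husym z.1 a.1 b.1
    linarith
  · ext z
    constructor
    · rintro ⟨y, hy, rfl⟩
      have hy' : y.2 = 0 := hy
      rw [hψ, hy', zero_add, ← hBe]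
      exact hBΛ _
    · intro hz
      refine ⟨(z.1, 0), rfl, ?_⟩
      rw [hψ]
      simp only [zero_add]
      rw [← hBe]
      exact huniq _ (hBΛ _) _ hz (hB1 _)

end Pool.Agent.NH28.EL
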