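import Pool.Agent.NH28.EL.Stm

/-!
# Job EL-CUR: thin submanifolds with bounded curvature are transverse to the fibres
-/

set_option autoImplicit false

open Set Filter Topology Metric Function
open scoped ContDiff RealInnerProductSpace

noncomputable section

namespace Pool.Agent.NH28.EL

namespace CUR

/-- comparison with the cosine -/
theorem cos_le (K : ℝ) (hK : 0 < K) (y y' : ℝ → ℝ) (hy : ∀ t, HasDerivAt y (y' t) t) (h0 : y 0 = 1)
    (h1 : ∀ t, y t ^ 2 ≤ 1) (h2 : ∀ t, y' t ^ 2 ≤ K ^ 2 * (1 - y t ^ 2)) (t : ℝ)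
    (ht : K * |t| ≤ Real.pi / 2) : Real.cos (K * t) ≤ y t := by
  have key : ∀ ρ : ℝ, 0 < ρ → ρ < 1 → Real.cos (Real.arccos ρ + K * |t|) ≤ ρ * y t := by
    intro ρ hρ hρ1
    have hρ2 : ρ ^ 2 < 1 := by nlinarith
    have hb : ∀ s, (ρ * y s) ^ 2 < 1 := by
      intro s
      have h3 := h1 s
      rw [mul_pow]
      nlinarith [sq_nonneg (y s), sq_nonneg ρ]
    have hb1 : ∀ s, ρ * y s ≠ -1 := fun s h => by
      have h3 := hb s
      rw [h] at h3
      norm_num at h3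
    have hb2 : ∀ s, ρ * y s ≠ 1 := fun s h => by
      have h3 := hb s
      rw [h] at h3
      norm_num at h3
    have hθ : ∀ s, HasDerivAt (fun s => Real.arccos (ρ * y s))
        (-(1 / Real.sqrt (1 - (ρ * y s) ^ 2)) * (ρ * y' s)) s := by
      intro s
      have h3 : HasDerivAt (Real.arccos ∘ fun s => ρ * y s)
          (-(1 / Real.sqrt (1 - (ρ * y s) ^ 2)) * (ρ * y' s)) s :=
        HasDerivAt.comp (h₂ := Real.arccos) s (Real.hasDerivAt_arccos (hb1 s) (hb2 s))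
          ((hy s).const_mul ρ)
      exact h3
    have hbd : ∀ s, ‖-(1 / Real.sqrt (1 - (ρ * y s) ^ 2)) * (ρ * y' s)‖ ≤ K := by
      intro s
      have hp : 0 < 1 - (ρ * y s) ^ 2 := by linarith [hb s]
      have hsq := Real.sqrt_pos.2 hp
      rw [norm_mul, norm_neg, Real.norm_eq_abs, Real.norm_eq_abs, abs_of_pos (by positivity),
        one_div, inv_mul_le_iff₀ hsq]
      apply abs_le_of_sq_le_sq _ (by positivity)
      rw [mul_pow, mul_pow, Real.sq_sqrt hp.le, mul_pow]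
      have h3 := mul_le_mul_of_nonneg_left (h2 s) (sq_nonneg ρ)
      have h4 : 0 ≤ K ^ 2 * (1 - ρ ^ 2) := mul_nonneg (sq_nonneg K) (by linarith)
      nlinarith
    have h3 := Convex.norm_image_sub_le_of_norm_hasDerivWithin_le
      (fun s _ => (hθ s).hasDerivWithinAt) (fun s _ => hbd s) convex_univ (mem_univ 0)
      (mem_univ t)
    have h4 : Real.arccos (ρ * y t) ≤ Real.arccos ρ + K * |t| := by
      rw [h0, mul_one, sub_zero, Real.norm_eq_abs, Real.norm_eq_abs] at h3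
      have := (abs_le.1 h3).2
      linarith
    have h5 : Real.arccos ρ ≤ Real.pi / 2 := Real.arccos_le_pi_div_two.2 hρ.le
    have h6 := abs_lt_of_sq_lt_sq (show (ρ * y t) ^ 2 < 1 ^ 2 by rw [one_pow]; exact hb t)
      zero_le_one
    have h7 := abs_lt.1 h6
    calc Real.cos (Real.arccos ρ + K * |t|) ≤ Real.cos (Real.arccos (ρ * y t)) :=
          Real.cos_le_cos_of_nonneg_of_le_pi (Real.arccos_nonneg _) (by linarith) h4
      _ = ρ * y t := Real.cos_arccos h7.1.le h7.2.le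
  have hl1 : Tendsto (fun ρ : ℝ => Real.cos (Real.arccos ρ + K * |t|)) (𝓝[<] 1)
      (𝓝 (Real.cos (Real.arccos 1 + K * |t|))) := by
    have hc : Continuous fun ρ : ℝ => Real.cos (Real.arccos ρ + K * |t|) :=
      Real.continuous_cos.comp (Real.continuous_arccos.add continuous_const)
    exact (hc.tendsto 1).mono_left nhdsWithin_le_nhds
  have hl2 : Tendsto (fun ρ : ℝ => ρ * y t) (𝓝[<] 1) (𝓝 (1 * y t)) := by
    have hc : Continuous fun ρ : ℝ => ρ * y t := continuous_id.mul continuous_const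
    exact (hc.tendsto 1).mono_left nhdsWithin_le_nhds
  have hev : ∀ᶠ ρ : ℝ in 𝓝[<] 1, Real.cos (Real.arccos ρ + K * |t|) ≤ ρ * y t := by
    filter_upwards [Ioo_mem_nhdsLT (zero_lt_one (α := ℝ))] with ρ hρ using key ρ hρ.1 hρ.2
  have h3 := le_of_tendsto_of_tendsto hl1 hl2 hev
  rw [Real.arccos_one, zero_add, one_mul] at h3
  have e : Real.cos (K * |t|) = Real.cos (K * t) := by
    rw [← Real.cos_abs (K * t), abs_mul, abs_of_pos hK]
  rwa [e] at h3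

/-- the width of a curve -/
theorem width (K : ℝ) (hK : 0 < K) (u y y' : ℝ → ℝ) (hu : ∀ t, HasDerivAt u (y t) t)
    (hy : ∀ t, HasDerivAt y (y' t) t) (h0 : y 0 = 1)
    (h1 : ∀ t, y t ^ 2 ≤ 1) (h2 : ∀ t, y' t ^ 2 ≤ K ^ 2 * (1 - y t ^ 2)) :
    2 / K ≤ u (Real.pi / (2 * K)) - u (-(Real.pi / (2 * K))) := by
  have hpi := Real.pi_pos
  obtain ⟨T, hT⟩ : ∃ T, T = Real.pi / (2 * K) := ⟨_, rfl⟩
  have hT0 : 0 < T := by rw [hT]; positivity
  have hKT : K * T = Real.pi / 2 := by rw [hT]; field_simp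
  have hg : ∀ t, HasDerivAt (fun t => u t - Real.sin (K * t) / K) (y t - Real.cos (K * t)) t := by
    intro t
    have h3 : HasDerivAt (fun t => Real.sin (K * t)) (Real.cos (K * t) * (K * 1)) t :=
      (Real.hasDerivAt_sin (K * t)).comp t ((hasDerivAt_id t).const_mul K)
    refine ((hu t).sub (h3.div_const K)).congr_deriv ?_
    field_simp
  have hmono : MonotoneOn (fun t => u t - Real.sin (K * t) / K) (Icc (-T) T) := by
    refine monotoneOn_of_deriv_nonneg (convex_Icc _ _)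
      (fun t _ => (hg t).continuousAt.continuousWithinAt)
      (fun t _ => (hg t).differentiableAt.differentiableWithinAt) fun t ht => ?_
    rw [interior_Icc] at ht
    rw [(hg t).deriv]
    have h3 : |t| ≤ T := abs_le.2 ⟨ht.1.le, ht.2.le⟩
    have h4 : K * |t| ≤ Real.pi / 2 := by
      rw [← hKT]
      exact mul_le_mul_of_nonneg_left h3 hK.le
    have := cos_le K hK y y' hy h0 h1 h2 t h4
    linarith
  have h3 := hmono (left_mem_Icc.2 (by linarith)) (right_mem_Icc.2 (by linarith))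
    (show -T ≤ T by linarith)
  simp only [mul_neg, Real.sin_neg, hKT, Real.sin_pi_div_two] at h3
  rw [← hT]
  have e : 2 / K = 1 / K + 1 / K := by ring
  have e' : -1 / K = -(1 / K) := by ring
  rw [e'] at h3
  rw [e]
  linarith

/-- Cauchy-Schwarz in a product -/
theorem cs {n : ℕ} (p₁ p₂ q₁ q₂ : E n) :
    (⟪p₁, q₁⟫ + ⟪p₂, q₂⟫) ^ 2 ≤ (‖p₁‖ ^ 2 + ‖p₂‖ ^ 2) * (‖q₁‖ ^ 2 + ‖q₂‖ ^ 2) := by
  have h1 := abs_real_inner_le_norm p₁ q₁
  have h2 := abs_real_inner_le_norm p₂ q₂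
  have h3 : |⟪p₁, q₁⟫ + ⟪p₂, q₂⟫| ≤ ‖p₁‖ * ‖q₁‖ + ‖p₂‖ * ‖q₂‖ :=
    (abs_add_le _ _).trans (add_le_add h1 h2)
  have h4 : (⟪p₁, q₁⟫ + ⟪p₂, q₂⟫) ^ 2 ≤ (‖p₁‖ * ‖q₁‖ + ‖p₂‖ * ‖q₂‖) ^ 2 := by
    rw [← sq_abs (⟪p₁, q₁⟫ + ⟪p₂, q₂⟫)]
    exact pow_le_pow_left₀ (abs_nonneg _) h3 2
  have h5 := sq_nonneg (‖p₁‖ * ‖q₂‖ - ‖p₂‖ * ‖q₁‖)
  nlinarith

/-- scaling of tangent vectors -/
theorem scale {n : ℕ} {Λ : Set (E n × E n)} {z a : E n × E n} (h : IsTangent Λ z a) (r : ℝ) :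
    IsTangent Λ z (r • a) := by
  obtain ⟨c, hc, hc1, hc0, hca⟩ := h
  refine ⟨fun t => c (r * t), hc.comp (contDiff_const.mul contDiff_id), fun t => hc1 _, ?_, ?_⟩
  · show c (r * 0) = z
    rw [mul_zero, hc0]
  · have h1 : HasDerivAt c a (r * 0) := by
      rw [mul_zero, ← hca]
      exact ((hc.differentiable (by simp)) 0).hasDerivAt
    have h2 : HasDerivAt (fun t : ℝ => r * t) (r * 1) 0 := (hasDerivAt_id (0 : ℝ)).const_mul r
    have h3 := h1.scomp (0 : ℝ) h2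
    rw [mul_one] at h3
    exact h3.deriv

end CUR

theorem t_CUR : S_CUR := by
  intro n Λ K₀ δ hK₀ hcurv₀ hδ hKδ₀ z hz a ha ha1
  by_contra hne
  have hδ0 : 0 ≤ δ := (norm_nonneg _).trans (hδ z hz z hz)
  -- we may assume that the curvature bound is positive
  obtain ⟨K, hK, hKδ, hK₀K⟩ : ∃ K : ℝ, 0 < K ∧ K * δ < 2 ∧ K₀ ^ 2 ≤ K ^ 2 := by
    rcases hK₀.lt_or_eq with h | h
    · exact ⟨K₀, h, hKδ₀, le_rfl⟩
    · refine ⟨1 / (δ + 1), by positivity, ?_, ?_⟩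
      · rw [div_mul_eq_mul_div, div_lt_iff₀ (by linarith)]
        linarith
      · rw [← h, zero_pow two_ne_zero]
        positivity
  -- a unit vector
  have ha2 : a.2 ≠ 0 := fun h => hne (Prod.ext ha1 h)
  have hn : 0 < ‖a.2‖ := norm_pos_iff.2 ha2
  have hb := CUR.scale ha (‖a.2‖⁻¹)
  obtain ⟨b, hbdef⟩ : ∃ b, b = ‖a.2‖⁻¹ • a := ⟨_, rfl⟩
  rw [← hbdef] at hb
  have hb1 : b.1 = 0 := by
    rw [hbdef, Prod.smul_fst, ha1, smul_zero]
  have hb2 : ‖b.2‖ = 1 := by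
    rw [hbdef, Prod.smul_snd, norm_smul, norm_inv, norm_norm, inv_mul_cancel₀ hn.ne']
  obtain ⟨c, c', c'', hc0, hc'0, hc⟩ := hcurv₀ z hz b hb (by rw [hb1, hb2]; simp)
  -- the components
  have d1 : ∀ t, HasDerivAt (fun t => (c' t).1) (c'' t).1 t := fun t =>
    (ContinuousLinearMap.fst ℝ (E n) (E n)).hasFDerivAt.comp_hasDerivAt t (hc t).2.2.1
  have d2 : ∀ t, HasDerivAt (fun t => (c' t).2) (c'' t).2 t := fun t =>
    (ContinuousLinearMap.snd ℝ (E n) (E n)).hasFDerivAt.comp_hasDerivAt t (hc t).2.2.1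
  have d0 : ∀ t, HasDerivAt (fun t => (c t).2) (c' t).2 t := fun t =>
    (ContinuousLinearMap.snd ℝ (E n) (E n)).hasFDerivAt.comp_hasDerivAt t (hc t).2.1
  have hu : ∀ t, HasDerivAt (fun t => ⟪(c t).2, b.2⟫) ⟪(c' t).2, b.2⟫ t := by
    intro t
    refine ((d0 t).inner ℝ (hasDerivAt_const t b.2)).congr_deriv ?_
    rw [inner_zero_right, zero_add]
  have hy : ∀ t, HasDerivAt (fun t => ⟪(c' t).2, b.2⟫) ⟪(c'' t).2, b.2⟫ t := by
    intro t
    refine ((d2 t).inner ℝ (hasDerivAt_const t b.2)).congr_deriv ?_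
    rw [inner_zero_right, zero_add]
  have hy0 : ⟪(c' 0).2, b.2⟫ = 1 := by
    rw [hc'0, real_inner_self_eq_norm_sq, hb2, one_pow]
  have hy1 : ∀ t, ⟪(c' t).2, b.2⟫ ^ 2 ≤ 1 := by
    intro t
    have h1 := abs_real_inner_le_norm (c' t).2 b.2
    rw [hb2, mul_one] at h1
    have h2 := (hc t).2.2.2.1
    have h3 : |⟪(c' t).2, b.2⟫| ^ 2 ≤ ‖(c' t).2‖ ^ 2 := pow_le_pow_left₀ (abs_nonneg _) h1 2
    rw [sq_abs] at h3
    have := sq_nonneg ‖(c' t).1‖
    linarith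
  have horth : ∀ t, ⟪(c' t).1, (c'' t).1⟫ + ⟪(c' t).2, (c'' t).2⟫ = 0 := by
    intro t
    have h1 := ((d1 t).norm_sq).add ((d2 t).norm_sq)
    have h2 : HasDerivAt (fun _ : ℝ => (1 : ℝ)) 0 t := hasDerivAt_const t 1
    have h3 : ((fun t => ‖(c' t).1‖ ^ 2) + fun t => ‖(c' t).2‖ ^ 2) = fun _ : ℝ => (1 : ℝ) := by
      funext s
      exact (hc s).2.2.2.1
    have h4 : HasDerivAt (fun _ : ℝ => (1 : ℝ))
        (2 * ⟪(c' t).1, (c'' t).1⟫ + 2 * ⟪(c' t).2, (c'' t).2⟫) t := by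
      rw [← h3]
      exact h1
    have h5 := h4.unique h2
    linarith
  have hy2 : ∀ t, ⟪(c'' t).2, b.2⟫ ^ 2 ≤ K ^ 2 * (1 - ⟪(c' t).2, b.2⟫ ^ 2) := by
    intro t
    obtain ⟨Y, hY⟩ : ∃ Y : ℝ, Y = ⟪(c' t).2, b.2⟫ := ⟨_, rfl⟩
    have h1 := CUR.cs (c'' t).1 (c'' t).2 (-(Y • (c' t).1)) (b.2 - Y • (c' t).2)
    have h2 : ⟪(c'' t).1, -(Y • (c' t).1)⟫ + ⟪(c'' t).2, b.2 - Y • (c' t).2⟫ =
        ⟪(c'' t).2, b.2⟫ := by
      have h3 := horth t
      rw [real_inner_comm (c'' t).1, real_inner_comm (c'' t).2] at h3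
      rw [inner_neg_right, inner_sub_right, inner_smul_right, inner_smul_right]
      linear_combination (-Y) * h3
    have h4 : ‖-(Y • (c' t).1)‖ ^ 2 + ‖b.2 - Y • (c' t).2‖ ^ 2 = 1 - Y ^ 2 := by
      have h5 := (hc t).2.2.2.1
      rw [norm_neg, norm_smul, mul_pow, Real.norm_eq_abs, sq_abs, norm_sub_sq_real, norm_smul,
        mul_pow, Real.norm_eq_abs, sq_abs, inner_smul_right, real_inner_comm, ← hY, hb2]
      linear_combination Y ^ 2 * h5
    rw [h2, h4] at h1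
    rw [← hY]
    have h6 : 0 ≤ 1 - Y ^ 2 := by
      rw [hY]
      linarith [hy1 t]
    refine h1.trans (mul_le_mul_of_nonneg_right ?_ h6)
    exact ((hc t).2.2.2.2).trans hK₀K
  have hw := CUR.width K hK _ _ _ hu hy hy0 hy1 hy2
  have h1 : ∀ s t : ℝ, ⟪(c s).2, b.2⟫ - ⟪(c t).2, b.2⟫ ≤ δ := by
    intro s t
    rw [← inner_sub_left]
    refine (real_inner_le_norm _ _).trans ?_
    rw [hb2, mul_one]
    exact hδ _ (hc s).1 _ (hc t).1
  have h2 := hw.trans (h1 _ _)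
  rw [div_le_iff₀ hK] at h2
  linarith

end Pool.Agent.NH28.EL
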