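import Pool.Agent.NH28.EL.Sec

/-!
# Exact Lagrangian submanifolds of the cotangent bundles of compact flat manifolds: definitions

`N = ℝⁿ / Γ` is a compact flat manifold, `T*N = (ℝⁿ × ℝⁿ) / Γ`. A closed submanifold `L` of `T*N` is given
by its preimage `Λ` in `ℝⁿ × ℝⁿ`.
-/

set_option autoImplicit false

open Set Filter Topology Metric Function
open scoped ContDiff RealInnerProductSpace

noncomputable section

namespace Pool.Agent.NH28.EL.D

/-- Euclidean space -/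
abbrev E (n : ℕ) := EuclideanSpace ℝ (Fin n)

/-- `T*ℝⁿ = ℝⁿ × ℝⁿ`; the points and the tangent vectors are pairs `(q, p)` -/
abbrev T (n : ℕ) := E n × E n

/-- the isometries of `ℝⁿ` -/
abbrev Iso (n : ℕ) := E n ≃ᵃⁱ[ℝ] E n

/-- the groups of isometries of `ℝⁿ` -/
abbrev Grp (n : ℕ) := Subgroup (Iso n)

variable {n : ℕ}

/-- `γ` is an element of `Γ` -/
def In (γ : Iso n) (Γ : Grp n) : Prop := γ ∈ Γ

/-- the point `γ x` -/
def mv (γ : Iso n) (x : E n) : E n := γ x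

/-- the linear part of `γ`, applied to `p` -/
def lin (γ : Iso n) (p : E n) : E n := γ.linearIsometryEquiv p

/-- the action of `γ` on `T*ℝⁿ`: `(q, p) ↦ (γ q, dγ p)` -/
def act (γ : Iso n) (z : T n) : T n := (mv γ z.1, lin γ z.2)

/-- the scalar product of `ℝⁿ` -/
def ip (v w : E n) : ℝ := ⟪v, w⟫

/-- the symplectic form `dp ∧ dq` -/
def om (a b : T n) : ℝ := ip a.2 b.1 - ip b.2 a.1

/-- `ℝⁿ / Γ` is a compact flat manifold: the group `Γ` acts properly discontinuously, freely and with a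
compact quotient -/
structure IsFlat (Γ : Grp n) : Prop where
  cocompact : ∃ K : Set (E n), IsCompact K ∧ ∀ x, ∃ γ, In γ Γ ∧ mv γ x ∈ K
  proper : ∀ K : Set (E n), IsCompact K → Set.Finite {γ | In γ Γ ∧ ∃ x ∈ K, mv γ x ∈ K}
  free : ∀ γ, In γ Γ → ∀ x : E n, mv γ x = x → ∀ y, mv γ y = y

/-- the map `F : ℝⁿ → T*ℝⁿ` is smooth -/
def Smooth (F : E n → T n) : Prop := ContDiff ℝ ∞ F

/-- the derivative of `F : ℝⁿ → T*ℝⁿ` at `s` on the vector `v` -/
def der (F : E n → T n) (s v : E n) : T n := fderiv ℝ F s v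

/-- `F : ℝⁿ → T*ℝⁿ` is an injective smooth immersion -/
def IsInjImmersion (F : E n → T n) : Prop := Smooth F ∧ Injective F ∧ ∀ s v, der F s v = 0 → v = 0

/-- `F` pulls back `dp ∧ dq` to zero -/
def IsIsotropic (F : E n → T n) : Prop := ∀ s v w, om (der F s v) (der F s w) = 0

/-- `F` is open as a map to `Λ` -/
def IsOpenInto (F : E n → T n) (Λ : Set (T n)) : Prop :=
  ∀ V : Set (E n), IsOpen V → ∃ U : Set (T n), IsOpen U ∧ F '' V = Λ ∩ U

/-- `Λ` is the preimage in `T*ℝⁿ` of a nonempty compact Lagrangian submanifold without boundary of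
`T*(ℝⁿ / Γ)`: it is closed, invariant under `Γ`, bounded in `p`, and every point `z` of `Λ` is `F 0` for an
injective smooth immersion `F : ℝⁿ → T*ℝⁿ` which is open as a map to `Λ` and pulls back `dp ∧ dq` to
zero. -/
structure IsLagrangian (Γ : Grp n) (Λ : Set (T n)) : Prop where
  closed : IsClosed Λ
  nonempty : Λ.Nonempty
  inv : ∀ γ, In γ Γ → ∀ z ∈ Λ, act γ z ∈ Λ
  bdd : ∃ R : ℝ, ∀ z ∈ Λ, ‖z.2‖ ≤ R
  par : ∀ z ∈ Λ, ∃ F : E n → T n, F 0 = z ∧ IsInjImmersion F ∧ IsIsotropic F ∧ IsOpenInto F Λ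

/-- the function `u` on `ℝⁿ` is differentiable at `s`, and `ℓ` is its differential -/
def HasDiff (u : E n → ℝ) (ℓ : E n →L[ℝ] ℝ) (s : E n) : Prop := HasFDerivAt u ℓ s

/-- The Liouville form `p dq` is exact on the submanifold of `T*(ℝⁿ / Γ)` with the preimage `Λ`: there is a
function `f` on `Λ`, invariant under `Γ`, such that `d (f ∘ F) = F^* (p dq)` for all smooth maps `F` to `Λ`. -/
def IsExact (Γ : Grp n) (Λ : Set (T n)) : Prop :=
  ∃ f : T n → ℝ, (∀ γ, In γ Γ → ∀ z ∈ Λ, f (act γ z) = f z) ∧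
    ∀ F : E n → T n, Smooth F → (∀ s, F s ∈ Λ) → ∀ s, ∃ ℓ : E n →L[ℝ] ℝ,
      HasDiff (fun s => f (F s)) ℓ s ∧ ∀ v, ℓ v = ip (F s).2 (der F s v).1

/-- the curve `c` is smooth -/
def SmoothCurve (c : ℝ → T n) : Prop := ContDiff ℝ ∞ c

/-- the curve `c` has the velocity `a` at the time `t` -/
def Velocity (c : ℝ → T n) (a : T n) (t : ℝ) : Prop := HasDerivAt c a t

/-- `a` is a tangent vector of `Λ` at the point `z`: the velocity of a smooth curve in `Λ` -/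
def IsTangent (Λ : Set (T n)) (z a : T n) : Prop :=
  ∃ c : ℝ → T n, SmoothCurve c ∧ (∀ t, c t ∈ Λ) ∧ c 0 = z ∧ Velocity c a 0

/-- the map `ψ : T*ℝⁿ → T*ℝⁿ` is smooth -/
def SmoothMap (ψ : T n → T n) : Prop := ContDiff ℝ ∞ ψ

/-- the derivative of `ψ : T*ℝⁿ → T*ℝⁿ` at `z` on the vector `a` -/
def derMap (ψ : T n → T n) (z a : T n) : T n := fderiv ℝ ψ z a

/-- `ψ` preserves `dp ∧ dq` -/
def PreservesForm (ψ : T n → T n) : Prop := ∀ z a b, om (derMap ψ z a) (derMap ψ z b) = om a b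

/-- `ψ` is (the lift of) a symplectic diffeomorphism of `T*(ℝⁿ / Γ)` -/
structure IsSymplectic (Γ : Grp n) (ψ : T n ≃ T n) : Prop where
  smooth : SmoothMap ψ
  smooth_symm : SmoothMap ψ.symm
  equivariant : ∀ γ, In γ Γ → ∀ z, ψ (act γ z) = act γ (ψ z)
  form : PreservesForm ψ

/-- `Λ` is the image of the zero section under a symplectic diffeomorphism of `T*(ℝⁿ / Γ)` -/
def IsImage (Γ : Grp n) (Λ : Set (T n)) : Prop :=
  ∃ ψ : T n ≃ T n, IsSymplectic Γ ψ ∧ ψ '' {z | z.2 = 0} = Λ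

/-- the square of the Euclidean norm of `T*ℝⁿ` -/
def nsq (a : T n) : ℝ := ‖a.1‖ ^ 2 + ‖a.2‖ ^ 2

/-- The second fundamental form of `Λ` is bounded by `K`: through every point there is a curve in `Λ` in every
direction with unit speed and acceleration at most `K` (the geodesics of `Λ`). -/
def HasCurvatureLE (Λ : Set (T n)) (K : ℝ) : Prop :=
  ∀ z ∈ Λ, ∀ a, IsTangent Λ z a → nsq a = 1 →
    ∃ c c' c'' : ℝ → T n, c 0 = z ∧ c' 0 = a ∧ ∀ t, c t ∈ Λ ∧ Velocity c (c' t) t ∧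
      Velocity c' (c'' t) t ∧ nsq (c' t) = 1 ∧ nsq (c'' t) ≤ K ^ 2

/-- the function `u` on `ℝⁿ` is smooth -/
def SmoothFun (u : E n → ℝ) : Prop := ContDiff ℝ ∞ u

/-- `p` is the gradient of `u` at `x` -/
def Grad (u : E n → ℝ) (p x : E n) : Prop := HasGradientAt u p x

/-- `Λ` is the graph of `dg` for a smooth function `g` on `ℝⁿ / Γ` -/
def IsGraph (Γ : Grp n) (Λ : Set (T n)) : Prop :=
  ∃ g : E n → ℝ, SmoothFun g ∧ (∀ γ, In γ Γ → ∀ x, g (mv γ x) = g x) ∧ Λ = {z | Grad g z.2 z.1}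

/-- `P` is a Lagrangian plane of `ℝⁿ × ℝⁿ` -/
def IsLagrangianPlane (P : Submodule ℝ (T n)) : Prop :=
  Module.finrank ℝ P = n ∧ ∀ a ∈ P, ∀ b ∈ P, om a b = 0

/-- `P` is transverse to the tangent spaces of `Λ` -/
def IsTransverse (Λ : Set (T n)) (P : Submodule ℝ (T n)) : Prop :=
  ∀ z ∈ Λ, ∀ a ∈ P, IsTangent Λ z a → a = 0

/-- the elements of `Γ` are translations: `ℝⁿ / Γ` is a flat torus -/
def IsTranslations (Γ : Grp n) : Prop := ∀ γ, In γ Γ → ∀ p : E n, lin γ p = p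

/-- the function `H` on `T*ℝⁿ` is smooth -/
def SmoothHam (H : T n → ℝ) : Prop := ContDiff ℝ ∞ H

/-- the map `g : T*ℝⁿ → ℝⁿ` is smooth -/
def SmoothVec (g : T n → E n) : Prop := ContDiff ℝ ∞ g

/-- `g = ∂H/∂p` -/
def IsGradP (H : T n → ℝ) (g : T n → E n) : Prop := ∀ z w, fderiv ℝ H z (0, w) = ip (g z) w

/-- the derivative of `g` at `z` in the direction of `p`, on the vector `w` -/
def derP (g : T n → E n) (z : T n) (w : E n) : E n := fderiv ℝ g z (0, w)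

/-- `Λ` is one-sided with respect to the function `H` on `T*(ℝⁿ / Γ)`, where `g = ∂H/∂p`: with the matrix
`B = ∂²H/∂p²` at the point `z`, the tangent vectors `(v, w)` of `Λ` at `z` satisfy `⟪v, B w⟫ ≥ -C ‖v‖²` and
`b ‖w‖ ≤ ‖B w‖ + C ‖v‖`. -/
def IsOneSided (Λ : Set (T n)) (g : T n → E n) : Prop :=
  ∃ C b : ℝ, 0 < b ∧ ∀ z ∈ Λ, ∀ a, IsTangent Λ z a →
    -C * ‖a.1‖ ^ 2 ≤ ip a.1 (derP g z a.2) ∧ b * ‖a.2‖ ≤ ‖derP g z a.2‖ + C * ‖a.1‖

/-! ### Comparison -/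

theorem tangent_iff (Λ : Set (T n)) (z a : T n) : EL.IsTangent Λ z a ↔ IsTangent Λ z a := by
  constructor
  · rintro ⟨c, h1, h2, h3, h4⟩
    refine ⟨c, h1, h2, h3, ?_⟩
    rw [← h4]
    exact ((h1.differentiable (by simp)).differentiableAt (x := (0 : ℝ))).hasDerivAt
  · rintro ⟨c, h1, h2, h3, h4⟩
    exact ⟨c, h1, h2, h3, h4.deriv⟩

theorem flat {Γ : Grp n} (h : IsFlat Γ) : EL.IsFlat Γ where
  cocompact := h.cocompact
  proper := by
    intro K hK
    refine (h.proper K hK).subset ?_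
    rintro γ ⟨hγ, y, ⟨x, hx, rfl⟩, hy⟩
    exact ⟨hγ, x, hx, hy⟩
  free := by
    intro γ hγ x hx
    ext1 y
    exact h.free γ hγ x hx y

theorem lagrangian {Γ : Grp n} {Λ : Set (T n)} (h : IsLagrangian Γ Λ) : EL.IsLagrangian Γ Λ where
  closed := h.closed
  nonempty := h.nonempty
  inv := h.inv
  bdd := h.bdd
  par := h.par

theorem exact {Γ : Grp n} {Λ : Set (T n)} (h : IsExact Γ Λ) : EL.IsExact Γ Λ := h

theorem image {Γ : Grp n} {Λ : Set (T n)} (h : EL.IsImage Γ Λ) : IsImage Γ Λ := by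
  obtain ⟨ψ, h1, h2⟩ := h
  exact ⟨ψ, ⟨h1.smooth, h1.smooth_symm, h1.equivariant, h1.form⟩, h2⟩

theorem graph {Γ : Grp n} {Λ : Set (T n)} (h : EL.IsGraph Γ Λ) : IsGraph Γ Λ := h

theorem curvature {Λ : Set (T n)} {K : ℝ} (h : HasCurvatureLE Λ K) : EL.HasCurvatureLE Λ K := by
  intro z hz a ha h1
  exact h z hz a ((tangent_iff Λ z a).1 ha) h1

theorem oneSided {Λ : Set (T n)} {g : T n → E n} (h : IsOneSided Λ g) : EL.IsOneSided Λ g := by
  obtain ⟨C, b, hb, h1⟩ := h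
  exact ⟨C, b, hb, fun z hz a ha => h1 z hz a ((tangent_iff Λ z a).1 ha)⟩

end Pool.Agent.NH28.EL.D
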