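import Pool.Agent.NH28.EL.Stm

/-!
# The exact symplectic diffeomorphism `(q, p) ↦ (q + ∇k(p), p)`
-/

set_option autoImplicit false

open Set Filter Topology Metric Function
open scoped ContDiff RealInnerProductSpace

noncomputable section

namespace Pool.Agent.NH28.EL

namespace FOL

variable {n : ℕ}

theorem fderiv_k {k : E n → ℝ} {h : E n → E n} (hk : ∀ p, HasGradientAt k (h p) p) (p v : E n) :
    fderiv ℝ k p v = ⟪h p, v⟫ := (hk p).fderiv_apply

theorem smooth_k {k : E n → ℝ} {h : E n → E n} (hh : ContDiff ℝ ∞ h)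
    (hk : ∀ p, HasGradientAt k (h p) p) : ContDiff ℝ ∞ k := by
  rw [contDiff_infty_iff_fderiv]
  refine ⟨fun p => (hk p).differentiableAt, ?_⟩
  rw [contDiff_clm_apply_iff]
  intro v
  have h1 : (fun p => fderiv ℝ k p v) = fun p => ⟪h p, v⟫ := funext fun p => fderiv_k hk p v
  rw [h1]
  exact hh.inner ℝ contDiff_const

theorem hasF {h : E n → E n} (hh : ContDiff ℝ ∞ h) (p : E n) : HasFDerivAt h (fderiv ℝ h p) p :=
  (hh.differentiable (by simp)).differentiableAt.hasFDerivAt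

theorem symm_h {k : E n → ℝ} {h : E n → E n} (hh : ContDiff ℝ ∞ h)
    (hk : ∀ p, HasGradientAt k (h p) p) (p a b : E n) :
    ⟪fderiv ℝ h p a, b⟫ = ⟪fderiv ℝ h p b, a⟫ := by
  have hK := smooth_k hh hk
  have hD : ContDiff ℝ ∞ (fderiv ℝ k) := hK.fderiv_right (by simp)
  have h2 : HasFDerivAt (fderiv ℝ k) (fderiv ℝ (fderiv ℝ k) p) p :=
    (hD.differentiable (by simp)).differentiableAt.hasFDerivAt
  have hs : ∀ a b, fderiv ℝ (fderiv ℝ k) p a b = fderiv ℝ (fderiv ℝ k) p b a := by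
    intro a b
    exact second_derivative_symmetric (fun y =>
      (hK.differentiable (by simp)).differentiableAt.hasFDerivAt) h2 a b
  have hf : ∀ a b, fderiv ℝ (fderiv ℝ k) p a b = ⟪fderiv ℝ h p a, b⟫ := by
    intro a b
    have h3 : HasFDerivAt (fun y => fderiv ℝ k y b) ((fderiv ℝ (fderiv ℝ k) p).flip b) p := by
      have := h2.clm_apply (hasFDerivAt_const b p)
      simpa using this
    have h4 : HasFDerivAt (fun y => ⟪b, h y⟫) ((innerSL ℝ b).comp (fderiv ℝ h p)) p :=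
      (innerSL ℝ b).hasFDerivAt.comp p (hasF hh p)
    have h5 : (fun y => fderiv ℝ k y b) = fun y => ⟪b, h y⟫ := by
      funext y
      rw [fderiv_k hk, real_inner_comm]
    rw [h5] at h3
    have h6 := congrArg (fun L : E n →L[ℝ] ℝ => L a) (h3.unique h4)
    have h7 : fderiv ℝ (fderiv ℝ k) p a b = ⟪b, fderiv ℝ h p a⟫ := h6
    rw [h7, real_inner_comm]
  rw [← hf, ← hf, hs]

theorem equiv_h {k : E n → ℝ} {h : E n → E n} (hk : ∀ p, HasGradientAt k (h p) p)
    (A : E n ≃ₗᵢ[ℝ] E n) (hA : ∀ p, k (A p) = k p) (p : E n) : h (A p) = A (h p) := by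
  refine ext_inner_right ℝ fun w => ?_
  obtain ⟨v, rfl⟩ := A.surjective w
  rw [A.inner_map_map]
  have h1 : HasFDerivAt (fun q => k (A q)) ((fderiv ℝ k (A p)).comp (A : E n →L[ℝ] E n)) p :=
    (hk (A p)).differentiableAt.hasFDerivAt.comp p (A : E n →L[ℝ] E n).hasFDerivAt
  have h2 : (fun q => k (A q)) = k := funext hA
  rw [h2] at h1
  have h3 := h1.unique (hk p).differentiableAt.hasFDerivAt
  have h4 := congrArg (fun L : E n →L[ℝ] ℝ => L v) h3
  have h5 : fderiv ℝ k (A p) (A v) = fderiv ℝ k p v := h4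
  rw [fderiv_k hk, fderiv_k hk] at h5
  exact h5

end FOL

open FOL in
theorem t_FOL : S_FOL := by
  intro n Γ k h hh hk hinv
  have hK := smooth_k hh hk
  let Φ : E n × E n ≃ E n × E n :=
    { toFun := fun z => (z.1 + h z.2, z.2)
      invFun := fun z => (z.1 - h z.2, z.2)
      left_inv := fun z => by simp
      right_inv := fun z => by simp }
  have hΦ : ∀ z, Φ z = (z.1 + h z.2, z.2) := fun _ => rfl
  have hd : ∀ z a, fderiv ℝ Φ z a = (a.1 + fderiv ℝ h z.2 a.2, a.2) := by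
    intro z a
    have h1 : HasFDerivAt (fun z : E n × E n => (z.1 + h z.2, z.2))
        ((ContinuousLinearMap.fst ℝ (E n) (E n) + (fderiv ℝ h z.2).comp
          (ContinuousLinearMap.snd ℝ (E n) (E n))).prod (ContinuousLinearMap.snd ℝ (E n) (E n))) z :=
      (hasFDerivAt_fst.add ((hasF hh z.2).comp z hasFDerivAt_snd)).prodMk hasFDerivAt_snd
    have h2 : fderiv ℝ Φ z = _ := h1.fderiv
    rw [h2]
    rfl
  have heq : ∀ γ ∈ Γ, ∀ p, h (γ.linearIsometryEquiv p) = γ.linearIsometryEquiv (h p) :=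
    fun γ hγ p => equiv_h hk _ (hinv γ hγ) p
  have hc : ContDiff ℝ ∞ (fun z : E n × E n => h z.2) := hh.comp contDiff_snd
  refine ⟨Φ, ⟨⟨?_, ?_, ?_, ?_⟩, fun z => ⟪z.2, h z.2⟫ - k z.2, ?_, ?_, ?_⟩, hΦ, fun z a => ?_⟩
  · exact (contDiff_fst.add hc).prodMk contDiff_snd
  · exact (contDiff_fst.sub hc).prodMk contDiff_snd
  · intro γ hγ z
    rw [hΦ, hΦ]
    unfold act
    refine Prod.ext ?_ rfl
    show γ z.1 + h (γ.linearIsometryEquiv z.2) = γ (z.1 + h z.2)
    rw [heq γ hγ]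
    have h1 := γ.map_vadd z.1 (h z.2)
    rw [vadd_eq_add, vadd_eq_add] at h1
    rw [add_comm z.1, h1, add_comm]
  · intro z a b
    rw [hd, hd]
    unfold om
    simp only
    rw [inner_add_right, inner_add_right]
    have h1 := symm_h hh hk z.2 a.2 b.2
    have h2 := real_inner_comm (fderiv ℝ h z.2 b.2) a.2
    have h3 := real_inner_comm (fderiv ℝ h z.2 a.2) b.2
    linarith
  · exact (contDiff_snd.inner ℝ hc).sub (hK.comp contDiff_snd)
  · intro γ hγ z
    show ⟪γ.linearIsometryEquiv z.2, h (γ.linearIsometryEquiv z.2)⟫ -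
      k (γ.linearIsometryEquiv z.2) = ⟪z.2, h z.2⟫ - k z.2
    rw [heq γ hγ, hinv γ hγ, LinearIsometryEquiv.inner_map_map]
  · intro z a
    have h0 : HasFDerivAt (fun z : E n × E n => h z.2)
        ((fderiv ℝ h z.2).comp (ContinuousLinearMap.snd ℝ (E n) (E n))) z :=
      (hasF hh z.2).comp z hasFDerivAt_snd
    have h1 := (hasFDerivAt_snd (𝕜 := ℝ) (E := E n) (F := E n) (p := z)).inner ℝ h0
    have h2 : HasFDerivAt (fun z : E n × E n => k z.2)
        ((fderiv ℝ k z.2).comp (ContinuousLinearMap.snd ℝ (E n) (E n))) z :=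
      (hk z.2).differentiableAt.hasFDerivAt.comp z hasFDerivAt_snd
    have h3 := (h1.sub h2).fderiv
    have h3' : ((fun t : E n × E n => ⟪t.2, h t.2⟫) - fun z => k z.2) =
      fun z : E n × E n => ⟪z.2, h z.2⟫ - k z.2 := rfl
    have h4 : fderiv ℝ (fun z : E n × E n => ⟪z.2, h z.2⟫ - k z.2) z a =
        (⟪z.2, fderiv ℝ h z.2 a.2⟫ + ⟪a.2, h z.2⟫) - fderiv ℝ k z.2 a.2 := by
      have h5 := congrArg (fun L : E n × E n →L[ℝ] ℝ => L a) h3
      rw [h3'] at h5
      simpa [fderivInnerCLM_apply] using h5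
    rw [h4, hd, hΦ, fderiv_k hk]
    show _ = ⟪z.2, a.1 + fderiv ℝ h z.2 a.2⟫ - ⟪z.2, a.1⟫
    rw [inner_add_right, real_inner_comm a.2 (h z.2)]
    ring
  · rw [hd]

end Pool.Agent.NH28.EL
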