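import Pool.Agent.NH28.EL.Stm
import Pool.Agent.Y522.ML.Gen

/-!
# Exact symplectic diffeomorphisms with a given small generating function
-/

set_option autoImplicit false

open Set Filter Topology Metric Function
open scoped ContDiff RealInnerProductSpace

noncomputable section

namespace Pool.Agent.NH28.EL

namespace GEN

variable {n : ℕ}

/-- the linear part of `act γ` -/
def lin (γ : E n ≃ᵃⁱ[ℝ] E n) : (E n × E n) ≃ₗᵢ[ℝ] (E n × E n) where
  toFun a := (γ.linearIsometryEquiv a.1, γ.linearIsometryEquiv a.2)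
  invFun a := (γ.linearIsometryEquiv.symm a.1, γ.linearIsometryEquiv.symm a.2)
  map_add' a b := by simp
  map_smul' c a := by simp
  left_inv a := by simp
  right_inv a := by simp
  norm_map' a := by
    show ‖(γ.linearIsometryEquiv a.1, γ.linearIsometryEquiv a.2)‖ = ‖a‖
    rw [Prod.norm_def, Prod.norm_def, LinearIsometryEquiv.norm_map, LinearIsometryEquiv.norm_map]

theorem lin_apply (γ : E n ≃ᵃⁱ[ℝ] E n) (a : E n × E n) :
    lin γ a = (γ.linearIsometryEquiv a.1, γ.linearIsometryEquiv a.2) := rfl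

theorem aff (γ : E n ≃ᵃⁱ[ℝ] E n) (x v : E n) : γ (x + v) = γ x + γ.linearIsometryEquiv v := by
  have h := γ.map_vadd x v
  rw [vadd_eq_add, vadd_eq_add, add_comm, add_comm _ (γ x)] at h
  exact h

theorem act_add (γ : E n ≃ᵃⁱ[ℝ] E n) (w a : E n × E n) : act γ (w + a) = act γ w + lin γ a := by
  refine Prod.ext ?_ ?_
  · show γ (w.1 + a.1) = γ w.1 + γ.linearIsometryEquiv a.1
    exact aff γ _ _
  · show γ.linearIsometryEquiv (w.2 + a.2) = γ.linearIsometryEquiv w.2 + γ.linearIsometryEquiv a.2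
    exact map_add _ _ _

/-- the linear part as a continuous linear map -/
def linC (γ : E n ≃ᵃⁱ[ℝ] E n) : (E n × E n) →L[ℝ] (E n × E n) :=
  ((lin γ).toContinuousLinearEquiv : (E n × E n) →L[ℝ] (E n × E n))

theorem linC_apply (γ : E n ≃ᵃⁱ[ℝ] E n) (a : E n × E n) : linC γ a = lin γ a := rfl

theorem hasFDerivAt_act (γ : E n ≃ᵃⁱ[ℝ] E n) (w : E n × E n) :
    HasFDerivAt (act γ) (linC γ) w := by
  have h1 : act γ = fun y => linC γ y + act γ 0 := by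
    funext y
    have := act_add γ 0 y
    rw [zero_add] at this
    rw [this, linC_apply, add_comm]
  rw [h1]
  exact (linC γ).hasFDerivAt.add_const _

/-- equivariance up to isometries -/
def Eqv (Γ : Subgroup (E n ≃ᵃⁱ[ℝ] E n)) {W : Type} [NormedAddCommGroup W] [NormedSpace ℝ W]
    (f : E n × E n → W) : Prop :=
  ∀ γ ∈ Γ, ∃ T : W →ₗᵢ[ℝ] W, ∀ w, f (act γ w) = T (f w)

/-- the isometry for the derivative -/
def dT {W : Type} [NormedAddCommGroup W] [NormedSpace ℝ W] (γ : E n ≃ᵃⁱ[ℝ] E n) (T : W →ₗᵢ[ℝ] W) :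
    ((E n × E n) →L[ℝ] W) →ₗᵢ[ℝ] ((E n × E n) →L[ℝ] W) where
  toFun L := T.toContinuousLinearMap.comp
    (L.comp ((lin γ).symm.toContinuousLinearEquiv : (E n × E n) →L[ℝ] (E n × E n)))
  map_add' L L' := by
    ext a <;> simp
  map_smul' c L := by
    ext a <;> simp
  norm_map' L := by
    show ‖T.toContinuousLinearMap.comp
      (L.comp ((lin γ).symm.toContinuousLinearEquiv : (E n × E n) →L[ℝ] (E n × E n)))‖ = ‖L‖
    rw [LinearIsometry.norm_toContinuousLinearMap_comp]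
    exact ContinuousLinearMap.opNorm_comp_linearIsometryEquiv L (lin γ).symm

theorem dT_apply {W : Type} [NormedAddCommGroup W] [NormedSpace ℝ W] (γ : E n ≃ᵃⁱ[ℝ] E n)
    (T : W →ₗᵢ[ℝ] W) (L : (E n × E n) →L[ℝ] W) (a : E n × E n) :
    dT γ T L a = T (L ((lin γ).symm a)) := rfl

/-- the equation for the derivative -/
theorem fderiv_act {W : Type} [NormedAddCommGroup W] [NormedSpace ℝ W] {f : E n × E n → W}
    (hf : ContDiff ℝ ∞ f) {γ : E n ≃ᵃⁱ[ℝ] E n} {T : W →ₗᵢ[ℝ] W} (h : ∀ w, f (act γ w) = T (f w))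
    (w a : E n × E n) : fderiv ℝ f (act γ w) (lin γ a) = T (fderiv ℝ f w a) := by
  have h1 : HasFDerivAt (fun y => f (act γ y)) ((fderiv ℝ f (act γ w)).comp (linC γ)) w :=
    ((hf.differentiable (by simp)).differentiableAt.hasFDerivAt).comp w (hasFDerivAt_act γ w)
  have h2 : HasFDerivAt (fun y => T (f y)) (T.toContinuousLinearMap.comp (fderiv ℝ f w)) w :=
    (T.toContinuousLinearMap.hasFDerivAt).comp w
      ((hf.differentiable (by simp)).differentiableAt.hasFDerivAt)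
  have h3 : (fun y => f (act γ y)) = fun y => T (f y) := funext h
  rw [h3] at h1
  exact congrArg (fun L : (E n × E n) →L[ℝ] W => L a) (h1.unique h2)

theorem Eqv.fderiv {Γ : Subgroup (E n ≃ᵃⁱ[ℝ] E n)} {W : Type} [NormedAddCommGroup W]
    [NormedSpace ℝ W] {f : E n × E n → W} (hf : ContDiff ℝ ∞ f) (h : Eqv Γ f) :
    Eqv Γ (fderiv ℝ f) := by
  intro γ hγ
  obtain ⟨T, hT⟩ := h γ hγ
  refine ⟨dT γ T, fun w => ?_⟩
  refine ContinuousLinearMap.ext fun a => ?_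
  rw [dT_apply, ← fderiv_act hf hT, LinearIsometryEquiv.apply_symm_apply]

/-- boundedness -/
theorem bdd {Γ : Subgroup (E n ≃ᵃⁱ[ℝ] E n)} (hΓ : IsFlat Γ) {W : Type} [NormedAddCommGroup W]
    [NormedSpace ℝ W] {f : E n × E n → W} (hf : Continuous f) (h : Eqv Γ f) {R : ℝ}
    (h0 : ∀ w, R < ‖w.2‖ → f w = 0) : ∃ M : ℝ, 0 ≤ M ∧ ∀ w, ‖f w‖ ≤ M := by
  obtain ⟨K, hK, hK2⟩ := hΓ.cocompact
  obtain ⟨M, hM⟩ := ((hK.prod (isCompact_closedBall (0 : E n) R)).image hf).isBounded.exists_norm_le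
  refine ⟨max M 0, le_max_right _ _, fun w => ?_⟩
  rcases lt_or_ge R ‖w.2‖ with h1 | h1
  · rw [h0 w h1, norm_zero]
    exact le_max_right _ _
  · obtain ⟨γ, hγ, hx⟩ := hK2 w.1
    obtain ⟨T, hT⟩ := h γ hγ
    have h2 : ‖f w‖ = ‖f (act γ w)‖ := by rw [hT, LinearIsometry.norm_map]
    rw [h2]
    refine (hM _ ⟨act γ w, ⟨hx, ?_⟩, rfl⟩).trans (le_max_left _ _)
    rw [mem_closedBall_zero_iff]
    show ‖γ.linearIsometryEquiv w.2‖ ≤ R
    rw [LinearIsometryEquiv.norm_map]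
    exact h1

theorem vanish {W : Type} [NormedAddCommGroup W] [NormedSpace ℝ W] {f : E n × E n → W} {R : ℝ}
    (h0 : ∀ w, R < ‖w.2‖ → f w = 0) (w : E n × E n) (hw : R < ‖w.2‖) : fderiv ℝ f w = 0 := by
  have hop : ∀ᶠ y : E n × E n in 𝓝 w, R < ‖y.2‖ :=
    (continuous_snd.norm.continuousAt (x := w)).eventually (lt_mem_nhds hw)
  have h1 : f =ᶠ[𝓝 w] fun _ => (0 : W) := by
    filter_upwards [hop] with y hy
    exact h0 y hy
  rw [h1.fderiv_eq]
  exact fderiv_const_apply _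

/-- the vector which represents `L ∘ ι` -/
def J (ι : E n →L[ℝ] E n × E n) : ((E n × E n) →L[ℝ] ℝ) →L[ℝ] E n :=
  ∑ i, (ContinuousLinearMap.apply ℝ ℝ (ι (EuclideanSpace.single i (1 : ℝ)))).smulRight
    (EuclideanSpace.single i (1 : ℝ) : E n)

theorem J_inner (ι : E n →L[ℝ] E n × E n) (L : (E n × E n) →L[ℝ] ℝ) (a : E n) :
    ⟪J ι L, a⟫ = L (ι a) := by
  have h := Pool.Agent.Y522.ML.riesz (L.comp ι) a
  simp only [ContinuousLinearMap.comp_apply] at h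
  rw [← h]
  congr 1
  unfold J
  rw [_root_.sum_apply]
  rfl

theorem J_norm (ι : E n →L[ℝ] E n × E n) (hι : ∀ a, ‖ι a‖ = ‖a‖) (L : (E n × E n) →L[ℝ] ℝ) :
    ‖J ι L‖ ≤ ‖L‖ := by
  have h1 : ‖J ι L‖ * ‖J ι L‖ = L (ι (J ι L)) := by
    rw [← J_inner, real_inner_self_eq_norm_mul_norm]
  have h2 : L (ι (J ι L)) ≤ ‖L‖ * ‖J ι L‖ := by
    refine (le_abs_self _).trans ?_
    have := L.le_opNorm (ι (J ι L))
    rw [hι] at this
    exact this
  rcases (norm_nonneg (J ι L)).eq_or_lt with h | h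
  · rw [← h]
    exact norm_nonneg _
  · rw [← h1] at h2
    exact le_of_mul_le_mul_right h2 h

theorem norm_le_add (a : E n × E n) : ‖a‖ ≤ ‖a.1‖ + ‖a.2‖ := by
  rw [Prod.norm_def]
  exact max_le (by linarith [norm_nonneg a.2]) (by linarith [norm_nonneg a.1])

theorem exists_grad {Γ : Subgroup (E n ≃ᵃⁱ[ℝ] E n)} (hΓ : IsFlat Γ) (K : E n × E n → ℝ)
    (hK : ContDiff ℝ ∞ K) (hp : ∀ γ ∈ Γ, ∀ z, K (act γ z) = K z) (R : ℝ)
    (h0 : ∀ w, R < ‖w.2‖ → K w = 0) :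
    ∃ (k₁ k₂ : E n × E n → E n) (M : ℝ), 0 ≤ M ∧ ContDiff ℝ ∞ k₁ ∧ ContDiff ℝ ∞ k₂ ∧
      (∀ w a, fderiv ℝ K w a = ⟪k₁ w, a.1⟫ + ⟪k₂ w, a.2⟫) ∧
      (∀ γ ∈ Γ, ∀ w, k₁ (act γ w) = γ.linearIsometryEquiv (k₁ w)) ∧
      (∀ γ ∈ Γ, ∀ w, k₂ (act γ w) = γ.linearIsometryEquiv (k₂ w)) ∧
      (∀ w, ‖k₂ w‖ ≤ M) ∧ (∀ w w', ‖k₁ w - k₁ w'‖ ≤ M * ‖w - w'‖) ∧
      (∀ w w', ‖k₂ w - k₂ w'‖ ≤ M * ‖w - w'‖) ∧
      (∀ w a, ‖fderiv ℝ k₂ w a‖ ≤ M * (‖a.1‖ + ‖a.2‖)) ∧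
      (∀ w w' a, ‖fderiv ℝ k₂ w a - fderiv ℝ k₂ w' a‖ ≤ M * ‖w - w'‖ * (‖a.1‖ + ‖a.2‖)) := by
  have hD1 : ContDiff ℝ ∞ (fderiv ℝ K) := hK.fderiv_right (by simp)
  have hD2 : ContDiff ℝ ∞ (fderiv ℝ (fderiv ℝ K)) := hD1.fderiv_right (by simp)
  have q0 : Eqv Γ K := fun γ hγ => ⟨LinearIsometry.id, fun w => hp γ hγ w⟩
  have q1 : Eqv Γ (fderiv ℝ K) := q0.fderiv hK
  have q2 : Eqv Γ (fderiv ℝ (fderiv ℝ K)) := q1.fderiv hD1
  have q3 := q2.fderiv hD2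
  have v1 := vanish h0
  have v2 := vanish v1
  have v3 := vanish v2
  obtain ⟨M₁, hM₁, b1⟩ := bdd hΓ hD1.continuous q1 v1
  obtain ⟨M₂, hM₂, b2⟩ := bdd hΓ hD2.continuous q2 v2
  obtain ⟨M₃, hM₃, b3⟩ := bdd hΓ (hD2.continuous_fderiv (by simp)) q3 v3
  have l1 : ∀ w w', ‖fderiv ℝ K w - fderiv ℝ K w'‖ ≤ M₂ * ‖w - w'‖ := fun w w' =>
    Convex.norm_image_sub_le_of_norm_fderiv_le (𝕜 := ℝ) (s := univ) (fun x _ =>
      (hD1.differentiable (by simp)).differentiableAt) (fun x _ => b2 x)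
      convex_univ (mem_univ _) (mem_univ _)
  have l2 : ∀ w w', ‖fderiv ℝ (fderiv ℝ K) w - fderiv ℝ (fderiv ℝ K) w'‖ ≤ M₃ * ‖w - w'‖ :=
    fun w w' => Convex.norm_image_sub_le_of_norm_fderiv_le (𝕜 := ℝ) (s := univ) (fun x _ =>
      (hD2.differentiable (by simp)).differentiableAt) (fun x _ => b3 x)
      convex_univ (mem_univ _) (mem_univ _)
  -- the gradients
  have key : ∀ ι : E n →L[ℝ] E n × E n, (∀ a, ‖ι a‖ = ‖a‖) →
      (∀ γ : E n ≃ᵃⁱ[ℝ] E n, ∀ a, ι (γ.linearIsometryEquiv a) = lin γ (ι a)) →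
      ContDiff ℝ ∞ (fun w => J ι (fderiv ℝ K w)) ∧
      (∀ γ ∈ Γ, ∀ w, J ι (fderiv ℝ K (act γ w)) = γ.linearIsometryEquiv (J ι (fderiv ℝ K w))) ∧
      (∀ w, ‖J ι (fderiv ℝ K w)‖ ≤ M₁) ∧
      (∀ w w', ‖J ι (fderiv ℝ K w) - J ι (fderiv ℝ K w')‖ ≤ M₂ * ‖w - w'‖) ∧
      ∀ w a, fderiv ℝ (fun w => J ι (fderiv ℝ K w)) w a = J ι (fderiv ℝ (fderiv ℝ K) w a) := by
    intro ι hι hγι
    refine ⟨(J ι).contDiff.comp hD1, fun γ hγ w => ?_, fun w => (J_norm ι hι _).trans (b1 w),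
      fun w w' => ?_, fun w a => ?_⟩
    · refine ext_inner_right ℝ fun v => ?_
      obtain ⟨a, rfl⟩ := γ.linearIsometryEquiv.surjective v
      rw [LinearIsometryEquiv.inner_map_map, J_inner, J_inner, hγι]
      exact fderiv_act hK (T := LinearIsometry.id) (hp γ hγ) w (ι a)
    · rw [← map_sub]
      exact (J_norm ι hι _).trans (l1 w w')
    · have h1 : HasFDerivAt (fun w => J ι (fderiv ℝ K w))
          ((J ι).comp (fderiv ℝ (fderiv ℝ K) w)) w :=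
        ((J ι).hasFDerivAt).comp w ((hD1.differentiable (by simp)).differentiableAt.hasFDerivAt)
      rw [h1.fderiv]
      rfl
  obtain ⟨a1, a2, a3, a4, a5⟩ := key (ContinuousLinearMap.inl ℝ (E n) (E n))
    (fun a => by
      rw [ContinuousLinearMap.inl_apply, Prod.norm_def]
      simp) (fun γ a => by
      rw [ContinuousLinearMap.inl_apply, ContinuousLinearMap.inl_apply, lin_apply]
      simp)
  obtain ⟨c1, c2, c3, c4, c5⟩ := key (ContinuousLinearMap.inr ℝ (E n) (E n))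
    (fun a => by
      rw [ContinuousLinearMap.inr_apply, Prod.norm_def]
      simp) (fun γ a => by
      rw [ContinuousLinearMap.inr_apply, ContinuousLinearMap.inr_apply, lin_apply]
      simp)
  have hι : ∀ a : E n, ‖ContinuousLinearMap.inr ℝ (E n) (E n) a‖ = ‖a‖ := fun a => by
    rw [ContinuousLinearMap.inr_apply, Prod.norm_def]
    simp
  have m1 : M₁ ≤ max M₁ (max M₂ M₃) := le_max_left _ _
  have m2 : M₂ ≤ max M₁ (max M₂ M₃) := (le_max_left _ _).trans (le_max_right _ _)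
  have m3 : M₃ ≤ max M₁ (max M₂ M₃) := (le_max_right _ _).trans (le_max_right _ _)
  have m0 : 0 ≤ max M₁ (max M₂ M₃) := hM₁.trans m1
  refine ⟨_, _, max M₁ (max M₂ M₃), m0, a1, c1, fun w a => ?_, a2, c2, fun w => (c3 w).trans m1,
    fun w w' => (a4 w w').trans (mul_le_mul_of_nonneg_right m2 (norm_nonneg _)),
    fun w w' => (c4 w w').trans (mul_le_mul_of_nonneg_right m2 (norm_nonneg _)),
    fun w a => ?_, fun w w' a => ?_⟩
  · rw [J_inner, J_inner, ← map_add]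
    simp
  · rw [c5]
    refine (J_norm _ hι _).trans (((fderiv ℝ (fderiv ℝ K) w).le_opNorm a).trans ?_)
    exact mul_le_mul ((b2 w).trans m2) (norm_le_add a) (norm_nonneg _) m0
  · rw [c5, c5, ← map_sub]
    refine (J_norm _ hι _).trans ?_
    show ‖(fderiv ℝ (fderiv ℝ K) w - fderiv ℝ (fderiv ℝ K) w') a‖ ≤ _
    refine ((fderiv ℝ (fderiv ℝ K) w - fderiv ℝ (fderiv ℝ K) w').le_opNorm a).trans ?_
    exact mul_le_mul ((l2 w w').trans (mul_le_mul_of_nonneg_right m3 (norm_nonneg _)))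
      (norm_le_add a) (norm_nonneg _) (mul_nonneg m0 (norm_nonneg _))

/-- the symplectic diffeomorphism generated by `t K` -/
theorem exists_gen {Γ : Subgroup (E n ≃ᵃⁱ[ℝ] E n)} (K : E n × E n → ℝ) (hK : ContDiff ℝ ∞ K)
    (hp : ∀ γ ∈ Γ, ∀ z, K (act γ z) = K z) {k₁ k₂ : E n × E n → E n} {M : ℝ}
    (s1 : ContDiff ℝ ∞ k₁) (s2 : ContDiff ℝ ∞ k₂)
    (hk : ∀ w a, fderiv ℝ K w a = ⟪k₁ w, a.1⟫ + ⟪k₂ w, a.2⟫)
    (p1 : ∀ γ ∈ Γ, ∀ w, k₁ (act γ w) = γ.linearIsometryEquiv (k₁ w))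
    (p2 : ∀ γ ∈ Γ, ∀ w, k₂ (act γ w) = γ.linearIsometryEquiv (k₂ w))
    (l1 : ∀ w w', ‖k₁ w - k₁ w'‖ ≤ M * ‖w - w'‖) (l2 : ∀ w w', ‖k₂ w - k₂ w'‖ ≤ M * ‖w - w'‖)
    {t : ℝ} (ht : 0 ≤ t) (htM : t * M ≤ 1 / 2) :
    ∃ Φ : E n × E n ≃ E n × E n, IsExactSymplectic Γ Φ ∧
      ∀ z, (Φ z).1 = z.1 + t • k₂ ((Φ z).1, z.2) := by
  have hlip : ∀ {k : E n × E n → E n}, (∀ w w', ‖k w - k w'‖ ≤ M * ‖w - w'‖) → ∀ w w',
      ‖-(t • k w) - -(t • k w')‖ ≤ 1 / 2 * ‖w - w'‖ := by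
    intro k hk w w'
    have h1 : -(t • k w) - -(t • k w') = -(t • (k w - k w')) := by
      rw [smul_sub]
      abel
    rw [h1, norm_neg, norm_smul, Real.norm_of_nonneg ht]
    calc t * ‖k w - k w'‖ ≤ t * (M * ‖w - w'‖) := mul_le_mul_of_nonneg_left (hk w w') ht
      _ = (t * M) * ‖w - w'‖ := by ring
      _ ≤ _ := mul_le_mul_of_nonneg_right htM (norm_nonneg _)
  obtain ⟨e₁, he₁, e₁s, e₁i⟩ := Pool.Agent.Y522.ML.small
    (fun w : E n × E n => (-(t • k₂ w), (0 : E n)))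
    ((s2.const_smul t).neg.prodMk contDiff_const) (fun w w' => by
      have h1 := hlip l2 w w'
      have h2 : ((-(t • k₂ w), (0 : E n)) - (-(t • k₂ w'), (0 : E n))) =
          (-(t • k₂ w) - -(t • k₂ w'), 0) := by simp
      rw [h2, Prod.norm_def]
      simp only [norm_zero]
      exact max_le h1 (by positivity))
  obtain ⟨e₂, he₂, e₂s, e₂i⟩ := Pool.Agent.Y522.ML.small
    (fun w : E n × E n => ((0 : E n), -(t • k₁ w)))
    (contDiff_const.prodMk (s1.const_smul t).neg) (fun w w' => by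
      have h1 := hlip l1 w w'
      have h2 : (((0 : E n), -(t • k₁ w)) - ((0 : E n), -(t • k₁ w'))) =
          (0, -(t • k₁ w) - -(t • k₁ w')) := by simp
      rw [h2, Prod.norm_def]
      simp only [norm_zero]
      exact max_le (by positivity) h1)
  have per₁ : ∀ γ ∈ Γ, ∀ w, e₁ (act γ w) = act γ (e₁ w) := by
    intro γ hγ w
    rw [he₁, he₁, act_add, lin_apply, p2 γ hγ]
    simp
  have per₂ : ∀ γ ∈ Γ, ∀ w, e₂ (act γ w) = act γ (e₂ w) := by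
    intro γ hγ w
    rw [he₂, he₂, act_add, lin_apply, p1 γ hγ]
    simp
  have per₁' : ∀ γ ∈ Γ, ∀ z, e₁.symm (act γ z) = act γ (e₁.symm z) := by
    intro γ hγ z
    rw [Equiv.symm_apply_eq, per₁ γ hγ]
    simp
  have hd1 : ∀ w a, fderiv ℝ e₁ w a = (a.1 - t • fderiv ℝ k₂ w a, a.2) := by
    intro w a
    have h1 : (e₁ : E n × E n → E n × E n) = fun w => w + (-(t • k₂ w), (0 : E n)) := funext he₁
    have h2 : HasFDerivAt k₂ (fderiv ℝ k₂ w) w :=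
      (s2.differentiable (by simp)).differentiableAt.hasFDerivAt
    have h3 : HasFDerivAt (fun w : E n × E n => w + (-(t • k₂ w), (0 : E n)))
        (ContinuousLinearMap.id ℝ _ + (-(t • fderiv ℝ k₂ w)).prod 0) w :=
      (hasFDerivAt_id w).add ((h2.const_smul t).neg.prodMk (hasFDerivAt_const _ _))
    rw [h1, h3.fderiv]
    refine Prod.ext ?_ ?_
    · show a.1 + -(t • fderiv ℝ k₂ w a) = _
      rw [← sub_eq_add_neg]
    · show a.2 + 0 = _
      rw [add_zero]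
  have hd2 : ∀ w a, fderiv ℝ e₂ w a = (a.1, a.2 - t • fderiv ℝ k₁ w a) := by
    intro w a
    have h1 : (e₂ : E n × E n → E n × E n) = fun w => w + ((0 : E n), -(t • k₁ w)) := funext he₂
    have h2 : HasFDerivAt k₁ (fderiv ℝ k₁ w) w :=
      (s1.differentiable (by simp)).differentiableAt.hasFDerivAt
    have h3 : HasFDerivAt (fun w : E n × E n => w + ((0 : E n), -(t • k₁ w)))
        (ContinuousLinearMap.id ℝ _ + (0 : E n × E n →L[ℝ] E n).prod (-(t • fderiv ℝ k₁ w))) w :=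
      (hasFDerivAt_id w).add ((hasFDerivAt_const _ _).prodMk (h2.const_smul t).neg)
    rw [h1, h3.fderiv]
    refine Prod.ext ?_ ?_
    · show a.1 + 0 = _
      rw [add_zero]
    · show a.2 + -(t • fderiv ℝ k₁ w a) = _
      rw [← sub_eq_add_neg]
  -- symmetry of the second derivative
  have hsym : ∀ w a b, ⟪fderiv ℝ k₁ w a, b.1⟫ + ⟪fderiv ℝ k₂ w a, b.2⟫ =
      ⟪fderiv ℝ k₁ w b, a.1⟫ + ⟪fderiv ℝ k₂ w b, a.2⟫ := by
    intro w
    have hD : ContDiff ℝ ∞ (fderiv ℝ K) := hK.fderiv_right (by simp)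
    have h2 : HasFDerivAt (fderiv ℝ K) (fderiv ℝ (fderiv ℝ K) w) w :=
      (hD.differentiable (by simp)).differentiableAt.hasFDerivAt
    have hs : ∀ a b, fderiv ℝ (fderiv ℝ K) w a b = fderiv ℝ (fderiv ℝ K) w b a := by
      intro a b
      exact second_derivative_symmetric (fun y =>
        (hK.differentiable (by simp)).differentiableAt.hasFDerivAt) h2 a b
    have hf : ∀ a b, fderiv ℝ (fderiv ℝ K) w a b =
        ⟪fderiv ℝ k₁ w a, b.1⟫ + ⟪fderiv ℝ k₂ w a, b.2⟫ := by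
      intro a b
      have h3 : HasFDerivAt (fun y => fderiv ℝ K y b)
          ((fderiv ℝ (fderiv ℝ K) w).flip b) w := by
        have := h2.clm_apply (hasFDerivAt_const b w)
        simpa using this
      have d1 : HasFDerivAt k₁ (fderiv ℝ k₁ w) w :=
        (s1.differentiable (by simp)).differentiableAt.hasFDerivAt
      have d2 : HasFDerivAt k₂ (fderiv ℝ k₂ w) w :=
        (s2.differentiable (by simp)).differentiableAt.hasFDerivAt
      have h4 : HasFDerivAt (fun y => ⟪b.1, k₁ y⟫ + ⟪b.2, k₂ y⟫)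
          ((innerSL ℝ b.1).comp (fderiv ℝ k₁ w) + (innerSL ℝ b.2).comp (fderiv ℝ k₂ w)) w :=
        ((innerSL ℝ b.1).hasFDerivAt.comp w d1).add ((innerSL ℝ b.2).hasFDerivAt.comp w d2)
      have h5 : (fun y => fderiv ℝ K y b) = fun y => ⟪b.1, k₁ y⟫ + ⟪b.2, k₂ y⟫ := by
        funext y
        rw [hk, real_inner_comm, real_inner_comm (k₂ y)]
      rw [h5] at h3
      have h6 := congrArg (fun L : E n × E n →L[ℝ] ℝ => L a) (h3.unique h4)
      have h7 : fderiv ℝ (fderiv ℝ K) w a b = ⟪b.1, fderiv ℝ k₁ w a⟫ + ⟪b.2, fderiv ℝ k₂ w a⟫ := h6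
      rw [h7, real_inner_comm, real_inner_comm (fderiv ℝ k₂ w a)]
    intro a b
    rw [← hf, ← hf, hs]
  have hinv : ∀ z a, fderiv ℝ e₁ (e₁.symm z) (fderiv ℝ e₁.symm z a) = a := by
    intro z a
    have f1 : HasFDerivAt e₁ (fderiv ℝ e₁ (e₁.symm z)) (e₁.symm z) :=
      (e₁s.differentiable (by simp)).differentiableAt.hasFDerivAt
    have f3 : HasFDerivAt e₁.symm (fderiv ℝ e₁.symm z) z :=
      (e₁i.differentiable (by simp)).differentiableAt.hasFDerivAt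
    have f5 : HasFDerivAt (fun y => e₁ (e₁.symm y))
        ((fderiv ℝ e₁ (e₁.symm z)).comp (fderiv ℝ e₁.symm z)) z := f1.comp z f3
    have f6 : (fun y => e₁ (e₁.symm y)) = id := by
      funext y
      simp
    rw [f6] at f5
    exact congrArg (fun L : E n × E n →L[ℝ] E n × E n => L a) (f5.unique (hasFDerivAt_id z))
  have hΦd : ∀ z, fderiv ℝ (e₁.symm.trans e₂) z =
      (fderiv ℝ e₂ (e₁.symm z)).comp (fderiv ℝ e₁.symm z) := by
    intro z
    have f2 : HasFDerivAt e₂ (fderiv ℝ e₂ (e₁.symm z)) (e₁.symm z) :=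
      (e₂s.differentiable (by simp)).differentiableAt.hasFDerivAt
    have f3 : HasFDerivAt e₁.symm (fderiv ℝ e₁.symm z) z :=
      (e₁i.differentiable (by simp)).differentiableAt.hasFDerivAt
    exact (f2.comp z f3).fderiv
  have hsnd : ∀ z, (e₁.symm z).2 = z.2 := by
    intro z
    have h1 : e₁ (e₁.symm z) = z := e₁.apply_symm_apply z
    rw [he₁] at h1
    have h2 := congrArg Prod.snd h1
    simp only [Prod.snd_add, add_zero] at h2
    exact h2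
  have hfst : ∀ z, (e₁.symm z).1 = z.1 + t • k₂ (e₁.symm z) := by
    intro z
    have h1 : e₁ (e₁.symm z) = z := e₁.apply_symm_apply z
    rw [he₁] at h1
    have h2 := congrArg Prod.fst h1
    simp only [Prod.fst_add] at h2
    rw [← h2]
    abel
  refine ⟨e₁.symm.trans e₂, ⟨⟨e₂s.comp e₁i, e₁s.comp e₂i, fun γ hγ z => ?_, fun z a b => ?_⟩,
    fun z => t * (⟪(e₁.symm z).2, k₂ (e₁.symm z)⟫ - K (e₁.symm z)), ?_, fun γ hγ z => ?_,
    fun z a => ?_⟩, fun z => ?_⟩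
  · show e₂ (e₁.symm (act γ z)) = act γ (e₂ (e₁.symm z))
    rw [per₁' γ hγ, per₂ γ hγ]
  · rw [hΦd]
    obtain ⟨w, hw⟩ : ∃ w, w = e₁.symm z := ⟨_, rfl⟩
    obtain ⟨a', ha'⟩ : ∃ a', a' = fderiv ℝ e₁.symm z a := ⟨_, rfl⟩
    obtain ⟨b', hb'⟩ : ∃ b', b' = fderiv ℝ e₁.symm z b := ⟨_, rfl⟩
    have ga := hinv z a
    have gb := hinv z b
    rw [← ha', ← hw] at ga
    rw [← hb', ← hw] at gb
    show om (fderiv ℝ e₂ (e₁.symm z) (fderiv ℝ e₁.symm z a))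
      (fderiv ℝ e₂ (e₁.symm z) (fderiv ℝ e₁.symm z b)) = om a b
    rw [← ha', ← hb', ← hw, ← ga, ← gb, hd1, hd1, hd2, hd2]
    simp only [om, inner_sub_left, inner_sub_right, inner_smul_left, inner_smul_right,
      RCLike.conj_to_real]
    have h1 := hsym w a' b'
    have h2 := real_inner_comm a'.2 (fderiv ℝ k₂ w b')
    have h3 := real_inner_comm b'.2 (fderiv ℝ k₂ w a')
    have h4 : t * (⟪fderiv ℝ k₁ w a', b'.1⟫ + ⟪fderiv ℝ k₂ w a', b'.2⟫) =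
      t * (⟪fderiv ℝ k₁ w b', a'.1⟫ + ⟪fderiv ℝ k₂ w b', a'.2⟫) := by rw [h1]
    rw [h2, h3] at *
    linarith
  · exact contDiff_const.mul (((contDiff_snd.comp e₁i).inner ℝ (s2.comp e₁i)).sub (hK.comp e₁i))
  · show t * (⟪(e₁.symm (act γ z)).2, k₂ (e₁.symm (act γ z))⟫ - K (e₁.symm (act γ z))) =
      t * (⟪(e₁.symm z).2, k₂ (e₁.symm z)⟫ - K (e₁.symm z))
    rw [per₁' γ hγ, p2 γ hγ, hp γ hγ]
    have h1 : (act γ (e₁.symm z)).2 = γ.linearIsometryEquiv (e₁.symm z).2 := rfl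
    rw [h1, LinearIsometryEquiv.inner_map_map]
  · rw [hΦd]
    obtain ⟨w, hw⟩ : ∃ w, w = e₁.symm z := ⟨_, rfl⟩
    obtain ⟨a', ha'⟩ : ∃ a', a' = fderiv ℝ e₁.symm z a := ⟨_, rfl⟩
    have ga := hinv z a
    rw [← ha', ← hw] at ga
    have f3 : HasFDerivAt e₁.symm (fderiv ℝ e₁.symm z) z :=
      (e₁i.differentiable (by simp)).differentiableAt.hasFDerivAt
    have g2 : HasFDerivAt k₂ (fderiv ℝ k₂ (e₁.symm z)) (e₁.symm z) :=
      (s2.differentiable (by simp)).differentiableAt.hasFDerivAt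
    have gK : HasFDerivAt K (fderiv ℝ K (e₁.symm z)) (e₁.symm z) :=
      (hK.differentiable (by simp)).differentiableAt.hasFDerivAt
    have g3 : HasFDerivAt (fun y => (e₁.symm y).2)
        ((ContinuousLinearMap.snd ℝ (E n) (E n)).comp (fderiv ℝ e₁.symm z)) z := f3.snd
    have g4 : HasFDerivAt (fun y => k₂ (e₁.symm y))
        ((fderiv ℝ k₂ (e₁.symm z)).comp (fderiv ℝ e₁.symm z)) z := g2.comp z f3
    have g5 : HasFDerivAt (fun y => K (e₁.symm y))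
        ((fderiv ℝ K (e₁.symm z)).comp (fderiv ℝ e₁.symm z)) z := gK.comp z f3
    have g6 := ((g3.inner ℝ g4).sub g5).const_mul t
    have g7 := congrArg (fun L : E n × E n →L[ℝ] ℝ => L a) g6.fderiv
    refine Eq.trans g7 ?_
    show t * ((⟪(e₁.symm z).2, fderiv ℝ k₂ (e₁.symm z) (fderiv ℝ e₁.symm z a)⟫ +
      ⟪(fderiv ℝ e₁.symm z a).2, k₂ (e₁.symm z)⟫) -
      fderiv ℝ K (e₁.symm z) (fderiv ℝ e₁.symm z a)) =
      ⟪(e₂ (e₁.symm z)).2, (fderiv ℝ e₂ (e₁.symm z) (fderiv ℝ e₁.symm z a)).1⟫ - ⟪z.2, a.1⟫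
    rw [← hsnd z, ← hw, ← ha', ← ga, hk, hd1, hd2, he₂]
    simp only [Prod.snd_add, inner_add_left, inner_neg_left, inner_sub_right, inner_smul_left,
      inner_smul_right, RCLike.conj_to_real]
    rw [real_inner_comm (k₂ w) a'.2]
    ring
  · show (e₂ (e₁.symm z)).1 = z.1 + t • k₂ ((e₂ (e₁.symm z)).1, z.2)
    have h1 : (e₂ (e₁.symm z)).1 = (e₁.symm z).1 := by
      rw [he₂]
      simp
    have h2 : ((e₁.symm z).1, z.2) = e₁.symm z := Prod.ext rfl (hsnd z).symm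
    rw [h1, h2]
    exact hfst z

end GEN

/-- GEN -/
theorem t_GEN : S_GEN := by
  intro n Γ hΓ K hK hp R h0
  obtain ⟨k₁, k₂, M, hM, s1, s2, hk, p1, p2, b2, l1, l2, d1, d2⟩ := GEN.exists_grad hΓ K hK hp R h0
  refine ⟨k₁, k₂, M, hM, s1, s2, hk, b2, d1, d2, 1 / (2 * M + 1), by positivity,
    fun t ht ht' => ?_⟩
  refine GEN.exists_gen K hK hp s1 s2 hk p1 p2 l1 l2 ht.le ?_
  rw [le_div_iff₀ (by positivity)] at ht'
  nlinarith

end Pool.Agent.NH28.EL
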