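import Pool.Agent.NH28.EL.Stm

/-!
# One-sided submanifolds become transverse to the fibres
-/

set_option autoImplicit false

open Set Filter Topology Metric Function
open scoped ContDiff RealInnerProductSpace

noncomputable section

namespace Pool.Agent.NH28.EL

namespace HAM

variable {n : ℕ}

/-- the cut-off function -/
def chi (R : ℝ) (p : E n) : ℝ := Real.smoothTransition ((R + 1) ^ 2 + 1 - ‖p‖ ^ 2)

lemma chi_smooth (R : ℝ) : ContDiff ℝ ∞ (chi (n := n) R) :=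
  Real.smoothTransition.contDiff.comp (contDiff_const.sub (contDiff_norm_sq ℝ))

lemma chi_one {R : ℝ} (hR : 0 ≤ R) {p : E n} (hp : ‖p‖ ≤ R + 1) : chi R p = 1 := by
  refine Real.smoothTransition.one_of_one_le ?_
  have h1 : ‖p‖ ^ 2 ≤ (R + 1) ^ 2 := pow_le_pow_left₀ (norm_nonneg p) hp 2
  linarith

lemma chi_zero {R : ℝ} (hR : 0 ≤ R) {p : E n} (hp : R + 2 < ‖p‖) : chi R p = 0 := by
  refine Real.smoothTransition.zero_of_nonpos ?_
  have h1 : (R + 2) ^ 2 ≤ ‖p‖ ^ 2 := pow_le_pow_left₀ (by linarith) hp.le 2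
  nlinarith

/-- the inequality at the end -/
lemma final {F : Type} [NormedAddCommGroup F] [InnerProductSpace ℝ F] {C b M t : ℝ} (hC : 0 ≤ C)
    (hb : 0 < b) (hM : 0 ≤ M) (ht : 0 < t) (ht1 : t * (M ^ 3 + C * M ^ 2) < (b / 2) ^ 2)
    (ht2 : C * t * M ≤ b / 2) {v w B B' : F} (h0 : v = -(t • B')) (hB' : ‖B'‖ ≤ M * ‖w‖)
    (hB : ‖B‖ ≤ M * ‖w‖) (hd : ‖B' - B‖ ≤ M * (t * M) * ‖w‖)
    (h1 : -C * ‖v‖ ^ 2 ≤ ⟪v, B⟫) (h2 : b * ‖w‖ ≤ ‖B‖ + C * ‖v‖) : w = 0 := by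
  have hv : ‖v‖ ≤ t * M * ‖w‖ := by
    rw [h0, norm_neg, norm_smul, Real.norm_of_nonneg ht.le]
    nlinarith
  have h3 : ⟪v, B⟫ = -(t * ⟪B', B⟫) := by
    rw [h0, inner_neg_left, real_inner_smul_left]
  have h4 : ‖B‖ ^ 2 - M * (t * M) * ‖w‖ * (M * ‖w‖) ≤ ⟪B', B⟫ := by
    have e1 : ⟪B', B⟫ = ‖B‖ ^ 2 + ⟪B' - B, B⟫ := by
      rw [inner_sub_left, real_inner_self_eq_norm_sq]; ring
    have e2 : -(‖B' - B‖ * ‖B‖) ≤ ⟪B' - B, B⟫ := by
      have := abs_real_inner_le_norm (B' - B) B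
      have h := (abs_le.1 this).1
      exact h
    have e3 : ‖B' - B‖ * ‖B‖ ≤ M * (t * M) * ‖w‖ * (M * ‖w‖) :=
      mul_le_mul hd hB (norm_nonneg _) (by positivity)
    rw [e1]
    linarith
  have h5 : t * ⟪B', B⟫ ≤ C * ‖v‖ ^ 2 := by
    rw [h3] at h1
    linarith
  have h6 : C * ‖v‖ ^ 2 ≤ C * (t * M * ‖w‖) ^ 2 :=
    mul_le_mul_of_nonneg_left (pow_le_pow_left₀ (norm_nonneg v) hv 2) hC
  have h7 : ⟪B', B⟫ ≤ C * t * M ^ 2 * ‖w‖ ^ 2 := by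
    have e1 : t * ⟪B', B⟫ ≤ t * (C * t * M ^ 2 * ‖w‖ ^ 2) := by
      calc t * ⟪B', B⟫ ≤ C * (t * M * ‖w‖) ^ 2 := h5.trans h6
        _ = t * (C * t * M ^ 2 * ‖w‖ ^ 2) := by ring
    exact le_of_mul_le_mul_left e1 ht
  have h8 : ‖B‖ ^ 2 ≤ t * (M ^ 3 + C * M ^ 2) * ‖w‖ ^ 2 := by
    calc ‖B‖ ^ 2 ≤ ⟪B', B⟫ + M * (t * M) * ‖w‖ * (M * ‖w‖) := by linarith
      _ ≤ C * t * M ^ 2 * ‖w‖ ^ 2 + M * (t * M) * ‖w‖ * (M * ‖w‖) := by linarith
      _ = t * (M ^ 3 + C * M ^ 2) * ‖w‖ ^ 2 := by ring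
  have h9 : b / 2 * ‖w‖ ≤ ‖B‖ := by
    have e1 : C * ‖v‖ ≤ C * (t * M * ‖w‖) := mul_le_mul_of_nonneg_left hv hC
    have e2 : C * (t * M * ‖w‖) ≤ b / 2 * ‖w‖ := by
      calc C * (t * M * ‖w‖) = C * t * M * ‖w‖ := by ring
        _ ≤ b / 2 * ‖w‖ := mul_le_mul_of_nonneg_right ht2 (norm_nonneg w)
    linarith
  have h10 : (b / 2) ^ 2 * ‖w‖ ^ 2 ≤ ‖B‖ ^ 2 := by
    rw [← mul_pow]
    exact pow_le_pow_left₀ (by positivity) h9 2
  by_contra hw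
  have hw' : 0 < ‖w‖ ^ 2 := by
    have := norm_pos_iff.2 hw
    positivity
  have h11 := mul_lt_mul_of_pos_right ht1 hw'
  linarith

lemma exists_t {C b M t₀ : ℝ} (hC : 0 ≤ C) (hb : 0 < b) (hM : 0 ≤ M) (ht₀ : 0 < t₀) :
    ∃ t : ℝ, 0 < t ∧ t ≤ t₀ ∧ t * (M ^ 3 + C * M ^ 2) < (b / 2) ^ 2 ∧ C * t * M ≤ b / 2 := by
  set A : ℝ := M ^ 3 + C * M ^ 2 + C * M + 1 with hA
  have hA0 : 0 < A := by positivity
  refine ⟨min t₀ (min ((b / 2) ^ 2 / (2 * A)) (b / 2 / A)), by positivity, min_le_left _ _, ?_, ?_⟩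
  · have h1 : min t₀ (min ((b / 2) ^ 2 / (2 * A)) (b / 2 / A)) ≤ (b / 2) ^ 2 / (2 * A) :=
      (min_le_right _ _).trans (min_le_left _ _)
    have h2 : 0 ≤ M ^ 3 + C * M ^ 2 := by positivity
    have h3 : M ^ 3 + C * M ^ 2 ≤ A := by
      rw [hA]
      nlinarith [mul_nonneg hC hM]
    calc min t₀ (min ((b / 2) ^ 2 / (2 * A)) (b / 2 / A)) * (M ^ 3 + C * M ^ 2)
        ≤ (b / 2) ^ 2 / (2 * A) * A := mul_le_mul h1 h3 h2 (by positivity)
      _ = (b / 2) ^ 2 / 2 := by field_simp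
      _ < (b / 2) ^ 2 := by
          have : 0 < (b / 2) ^ 2 := by positivity
          linarith
  · have h1 : min t₀ (min ((b / 2) ^ 2 / (2 * A)) (b / 2 / A)) ≤ b / 2 / A :=
      (min_le_right _ _).trans (min_le_right _ _)
    have h2 : 0 ≤ C * M := by positivity
    have h3 : C * M ≤ A := by
      rw [hA]
      have : 0 ≤ M ^ 3 + C * M ^ 2 := by positivity
      linarith
    calc C * min t₀ (min ((b / 2) ^ 2 / (2 * A)) (b / 2 / A)) * M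
        = min t₀ (min ((b / 2) ^ 2 / (2 * A)) (b / 2 / A)) * (C * M) := by ring
      _ ≤ b / 2 / A * A := mul_le_mul h1 h3 h2 (by positivity)
      _ = b / 2 := by field_simp

end HAM

open HAM in
theorem t_HAM : S_HAM := by
  intro hGEN n Γ hΓ Λ hΛ H g hH hg hHg hinv hside
  obtain ⟨C₀, b, hb, hside⟩ := hside
  obtain ⟨R₀, hR₀⟩ := hΛ.bdd
  set R : ℝ := max R₀ 0 with hR
  have hR0 : 0 ≤ R := le_max_right _ _
  have hbd : ∀ z ∈ Λ, ‖z.2‖ ≤ R := fun z hz => (hR₀ z hz).trans (le_max_left _ _)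
  set C : ℝ := max C₀ 0 with hC
  have hC0 : 0 ≤ C := le_max_right _ _
  have hCC : C₀ ≤ C := le_max_left _ _
  set K : E n × E n → ℝ := fun z => chi R z.2 * H z with hK
  have hKs : ContDiff ℝ ∞ K := ((chi_smooth R).comp contDiff_snd).mul hH
  have hKinv : ∀ γ ∈ Γ, ∀ z, K (act γ z) = K z := by
    intro γ hγ z
    have h1 : ‖(act γ z).2‖ = ‖z.2‖ := by
      show ‖γ.linearIsometryEquiv z.2‖ = _
      exact LinearIsometryEquiv.norm_map _ _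
    show chi R (act γ z).2 * H (act γ z) = chi R z.2 * H z
    rw [hinv γ hγ]
    unfold chi
    rw [h1]
  have hK0 : ∀ w, R + 2 < ‖w.2‖ → K w = 0 := by
    intro w hw
    show chi R w.2 * H w = 0
    rw [chi_zero hR0 hw, zero_mul]
  obtain ⟨k₁, k₂, M, hM, hk₁, hk₂, hKd, hkM, hkd, hkl, t₀, ht₀, hΦ⟩ :=
    hGEN n Γ hΓ K hKs hKinv (R + 2) hK0
  -- `k₂ = g` near the submanifold
  have hopen : ∀ z : E n × E n, ‖z.2‖ < R + 1 → ∀ᶠ w in 𝓝 z, ‖w.2‖ < R + 1 := by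
    intro z hz
    exact (continuous_snd.norm.continuousAt).eventually (gt_mem_nhds hz)
  have hkg : ∀ z : E n × E n, ‖z.2‖ < R + 1 → k₂ z = g z := by
    intro z hz
    have h1 : K =ᶠ[𝓝 z] H := (hopen z hz).mono fun w hw => by
      show chi R w.2 * H w = H w
      rw [chi_one hR0 hw.le, one_mul]
    refine ext_inner_right ℝ fun w => ?_
    have h2 := hKd z (0, w)
    rw [h1.fderiv_eq, hHg, inner_zero_right, zero_add] at h2
    exact h2.symm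
  have hkgd : ∀ z : E n × E n, ‖z.2‖ ≤ R → fderiv ℝ k₂ z = fderiv ℝ g z := by
    intro z hz
    have h1 : k₂ =ᶠ[𝓝 z] g := (hopen z (by linarith)).mono fun w hw => hkg w hw
    exact h1.fderiv_eq
  obtain ⟨t, ht, htt, ht1, ht2⟩ := exists_t (t₀ := t₀) hC0 hb hM ht₀
  obtain ⟨Φ, hΦ1, hΦ2⟩ := hΦ t ht htt
  refine ⟨Φ, hΦ1, fun z hz a ha h0 => ?_⟩
  have hΦd : HasFDerivAt Φ (fderiv ℝ Φ z) z :=
    (hΦ1.1.smooth.differentiable (by simp)).differentiableAt.hasFDerivAt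
  have hfst : HasFDerivAt (fun z => (Φ z).1)
      ((ContinuousLinearMap.fst ℝ (E n) (E n)).comp (fderiv ℝ Φ z)) z :=
    (ContinuousLinearMap.fst ℝ (E n) (E n)).hasFDerivAt.comp z hΦd
  set w : E n × E n := ((Φ z).1, z.2) with hw
  have hW : HasFDerivAt (fun z : E n × E n => ((Φ z).1, z.2))
      (((ContinuousLinearMap.fst ℝ (E n) (E n)).comp (fderiv ℝ Φ z)).prod
        (ContinuousLinearMap.snd ℝ (E n) (E n))) z :=
    hfst.prodMk (ContinuousLinearMap.snd ℝ (E n) (E n)).hasFDerivAt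
  have hk : HasFDerivAt k₂ (fderiv ℝ k₂ w) w :=
    (hk₂.differentiable (by simp)).differentiableAt.hasFDerivAt
  have hkW := hk.comp z hW
  have hR2 : HasFDerivAt (fun z : E n × E n => z.1 + t • k₂ ((Φ z).1, z.2))
      ((ContinuousLinearMap.fst ℝ (E n) (E n)) + t • ((fderiv ℝ k₂ w).comp
        (((ContinuousLinearMap.fst ℝ (E n) (E n)).comp (fderiv ℝ Φ z)).prod
          (ContinuousLinearMap.snd ℝ (E n) (E n))))) z :=
    (ContinuousLinearMap.fst ℝ (E n) (E n)).hasFDerivAt.add (hkW.const_smul t)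
  have hfun : (fun z : E n × E n => (Φ z).1) = fun z => z.1 + t • k₂ ((Φ z).1, z.2) := by
    funext z
    exact hΦ2 z
  rw [← hfun] at hR2
  have huniq := congrArg (fun L => L a) (hfst.unique hR2)
  have h1 : (fderiv ℝ Φ z a).1 = a.1 + t • fderiv ℝ k₂ w ((fderiv ℝ Φ z a).1, a.2) := huniq
  rw [h0] at h1
  have ha1 : a.1 = -(t • fderiv ℝ k₂ w (0, a.2)) := eq_neg_of_add_eq_zero_left h1.symm
  obtain ⟨hs1, hs2⟩ := hside z hz a ha
  rw [← hkgd z (hbd z hz)] at hs1 hs2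
  have hwz : ‖w - z‖ ≤ t * M := by
    have e1 : w - z = (t • k₂ w, 0) := by
      refine Prod.ext ?_ ?_
      · show (Φ z).1 - z.1 = t • k₂ w
        rw [hΦ2 z, add_sub_cancel_left]
      · show z.2 - z.2 = 0
        exact sub_self _
    rw [e1, Prod.norm_def]
    simp only [norm_zero]
    refine max_le ?_ (by positivity)
    rw [norm_smul, Real.norm_of_nonneg ht.le]
    exact mul_le_mul_of_nonneg_left (hkM w) ht.le
  have hB' : ‖fderiv ℝ k₂ w (0, a.2)‖ ≤ M * ‖a.2‖ := by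
    have := hkd w (0, a.2)
    simpa using this
  have hB : ‖fderiv ℝ k₂ z (0, a.2)‖ ≤ M * ‖a.2‖ := by
    have := hkd z (0, a.2)
    simpa using this
  have hd : ‖fderiv ℝ k₂ w (0, a.2) - fderiv ℝ k₂ z (0, a.2)‖ ≤ M * (t * M) * ‖a.2‖ := by
    have e1 := hkl w z (0, a.2)
    simp only [norm_zero, zero_add] at e1
    exact e1.trans (mul_le_mul_of_nonneg_right (mul_le_mul_of_nonneg_left hwz hM) (norm_nonneg _))
  have ha2 : a.2 = 0 := by
    refine final hC0 hb hM ht ht1 ht2 ha1 hB' hB hd ?_ ?_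
    · refine le_trans ?_ hs1
      have : 0 ≤ ‖a.1‖ ^ 2 := by positivity
      nlinarith
    · refine hs2.trans ?_
      have : 0 ≤ ‖a.1‖ := norm_nonneg _
      nlinarith
  have ha1' : a.1 = 0 := by
    rw [ha1, ha2]
    have : ((0 : E n), (0 : E n)) = (0 : E n × E n) := rfl
    rw [this, map_zero, smul_zero, neg_zero]
  exact Prod.ext ha1' ha2

end Pool.Agent.NH28.EL
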