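import Pool.Agent.NH28.EL.CUR

/-!
# Locally thin submanifolds with bounded curvature are transverse to the fibres
-/

set_option autoImplicit false

open Set Filter Topology Metric Function
open scoped ContDiff RealInnerProductSpace

noncomputable section

namespace Pool.Agent.NH28.EL

namespace LOC

/-- the width of a curve -/
theorem width (K T : ℝ) (hK : 0 < K) (hT0 : 0 < T) (hKT : K * T ≤ Real.pi / 2) (u y y' : ℝ → ℝ)
    (hu : ∀ t, HasDerivAt u (y t) t)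
    (hy : ∀ t, HasDerivAt y (y' t) t) (h0 : y 0 = 1)
    (h1 : ∀ t, y t ^ 2 ≤ 1) (h2 : ∀ t, y' t ^ 2 ≤ K ^ 2 * (1 - y t ^ 2)) :
    2 / K * Real.sin (K * T) ≤ u T - u (-T) := by
  have hg : ∀ t, HasDerivAt (fun t => u t - Real.sin (K * t) / K) (y t - Real.cos (K * t)) t := by
    intro t
    have h3 : HasDerivAt (fun t => Real.sin (K * t)) (Real.cos (K * t) * (K * 1)) t :=
      (Real.hasDerivAt_sin (K * t)).comp t ((hasDerivAt_id t).const_mul K)
    refine ((hu t).sub (h3.div_const K)).congr_deriv ?_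
    field_simp
  have hmono : MonotoneOn (fun t => u t - Real.sin (K * t) / K) (Icc (-T) T) := by
    refine monotoneOn_of_deriv_nonneg (convex_Icc _ _)
      (fun t _ => (hg t).continuousAt.continuousWithinAt)
      (fun t _ => (hg t).differentiableAt.differentiableWithinAt) fun t ht => ?_
    rw [interior_Icc] at ht
    rw [(hg t).deriv]
    have h3 : |t| ≤ T := abs_le.2 ⟨ht.1.le, ht.2.le⟩
    have h4 : K * |t| ≤ Real.pi / 2 := (mul_le_mul_of_nonneg_left h3 hK.le).trans hKT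
    have := CUR.cos_le K hK y y' hy h0 h1 h2 t h4
    linarith
  have h3 := hmono (left_mem_Icc.2 (by linarith)) (right_mem_Icc.2 (by linarith))
    (show -T ≤ T by linarith)
  simp only [mul_neg, Real.sin_neg] at h3
  have e : 2 / K * Real.sin (K * T) = Real.sin (K * T) / K + Real.sin (K * T) / K := by ring
  have e' : -Real.sin (K * T) / K = -(Real.sin (K * T) / K) := by ring
  rw [e'] at h3
  rw [e]
  linarith

/-- the drift of a curve -/
theorem drift {n : ℕ} (K T : ℝ) (hK : 0 < K) (hT0 : 0 < T) (q v : ℝ → E n)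
    (hq : ∀ t, HasDerivAt q (v t) t) (hv : ∀ t, 0 ≤ t → t ≤ T → ‖v t‖ ≤ Real.sin (K * t)) :
    ‖q T - q 0‖ ≤ (1 - Real.cos (K * T)) / K := by
  have hB : ∀ x : ℝ, HasDerivAt (fun t => (1 - Real.cos (K * t)) / K) (Real.sin (K * x)) x := by
    intro x
    have h3 : HasDerivAt (fun t => Real.cos (K * t)) (-Real.sin (K * x) * (K * 1)) x :=
      (Real.hasDerivAt_cos (K * x)).comp x ((hasDerivAt_id x).const_mul K)
    refine ((h3.const_sub 1).div_const K).congr_deriv ?_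
    field_simp
  have h := image_norm_le_of_norm_deriv_right_le_deriv_boundary (a := (0 : ℝ)) (b := T)
    (f := fun t => q t - q 0) (f' := v) (B := fun t => (1 - Real.cos (K * t)) / K)
    (B' := fun t => Real.sin (K * t))
    (fun t _ => ((hq t).sub_const (q 0)).continuousAt.continuousWithinAt)
    (fun t _ => ((hq t).sub_const (q 0)).hasDerivWithinAt) (by simp) hB
    (fun t ht => hv t ht.1 ht.2.le)
  exact h (right_mem_Icc.2 hT0.le)

end LOC

/-- locally thin submanifolds with bounded curvature are transverse to the fibres -/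
theorem t_LOC (n : ℕ) (Λ : Set (E n × E n)) (K r : ℝ) (hK : 0 < K) (hcurv₀ : HasCurvatureLE Λ K)
    (hr : 0 < r) (hr2 : r ≤ Real.pi / 2)
    (hδ : ∀ z ∈ Λ, ∀ z' ∈ Λ, ‖z.1 - z'.1‖ ≤ 2 / K * (1 - Real.cos r) →
      ‖z.2 - z'.2‖ < 2 / K * Real.sin r) :
    ∀ z ∈ Λ, ∀ a, IsTangent Λ z a → a.1 = 0 → a = 0 := by
  intro z hz a ha ha1
  by_contra hne
  -- a unit vector
  have ha2 : a.2 ≠ 0 := fun h => hne (Prod.ext ha1 h)
  have hn : 0 < ‖a.2‖ := norm_pos_iff.2 ha2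
  have hb := CUR.scale ha (‖a.2‖⁻¹)
  obtain ⟨b, hbdef⟩ : ∃ b, b = ‖a.2‖⁻¹ • a := ⟨_, rfl⟩
  rw [← hbdef] at hb
  have hb1 : b.1 = 0 := by
    rw [hbdef, Prod.smul_fst, ha1, smul_zero]
  have hb2 : ‖b.2‖ = 1 := by
    rw [hbdef, Prod.smul_snd, norm_smul, norm_inv, norm_norm, inv_mul_cancel₀ hn.ne']
  obtain ⟨c, c', c'', hc0, hc'0, hc⟩ := hcurv₀ z hz b hb (by rw [hb1, hb2]; simp)
  -- the components
  have d1 : ∀ t, HasDerivAt (fun t => (c' t).1) (c'' t).1 t := fun t =>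
    (ContinuousLinearMap.fst ℝ (E n) (E n)).hasFDerivAt.comp_hasDerivAt t (hc t).2.2.1
  have d2 : ∀ t, HasDerivAt (fun t => (c' t).2) (c'' t).2 t := fun t =>
    (ContinuousLinearMap.snd ℝ (E n) (E n)).hasFDerivAt.comp_hasDerivAt t (hc t).2.2.1
  have d0 : ∀ t, HasDerivAt (fun t => (c t).2) (c' t).2 t := fun t =>
    (ContinuousLinearMap.snd ℝ (E n) (E n)).hasFDerivAt.comp_hasDerivAt t (hc t).2.1
  have dq : ∀ t, HasDerivAt (fun t => (c t).1) (c' t).1 t := fun t =>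
    (ContinuousLinearMap.fst ℝ (E n) (E n)).hasFDerivAt.comp_hasDerivAt t (hc t).2.1
  have hu : ∀ t, HasDerivAt (fun t => ⟪(c t).2, b.2⟫) ⟪(c' t).2, b.2⟫ t := by
    intro t
    refine ((d0 t).inner ℝ (hasDerivAt_const t b.2)).congr_deriv ?_
    rw [inner_zero_right, zero_add]
  have hy : ∀ t, HasDerivAt (fun t => ⟪(c' t).2, b.2⟫) ⟪(c'' t).2, b.2⟫ t := by
    intro t
    refine ((d2 t).inner ℝ (hasDerivAt_const t b.2)).congr_deriv ?_
    rw [inner_zero_right, zero_add]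
  have hy0 : ⟪(c' 0).2, b.2⟫ = 1 := by
    rw [hc'0, real_inner_self_eq_norm_sq, hb2, one_pow]
  have hyp : ∀ t, ⟪(c' t).2, b.2⟫ ^ 2 ≤ ‖(c' t).2‖ ^ 2 := by
    intro t
    have h1 := abs_real_inner_le_norm (c' t).2 b.2
    rw [hb2, mul_one] at h1
    have h3 : |⟪(c' t).2, b.2⟫| ^ 2 ≤ ‖(c' t).2‖ ^ 2 := pow_le_pow_left₀ (abs_nonneg _) h1 2
    rwa [sq_abs] at h3
  have hy1 : ∀ t, ⟪(c' t).2, b.2⟫ ^ 2 ≤ 1 := by
    intro t
    have h2 := (hc t).2.2.2.1
    have h3 := hyp t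
    have := sq_nonneg ‖(c' t).1‖
    linarith
  have horth : ∀ t, ⟪(c' t).1, (c'' t).1⟫ + ⟪(c' t).2, (c'' t).2⟫ = 0 := by
    intro t
    have h1 := ((d1 t).norm_sq).add ((d2 t).norm_sq)
    have h2 : HasDerivAt (fun _ : ℝ => (1 : ℝ)) 0 t := hasDerivAt_const t 1
    have h3 : ((fun t => ‖(c' t).1‖ ^ 2) + fun t => ‖(c' t).2‖ ^ 2) = fun _ : ℝ => (1 : ℝ) := by
      funext s
      exact (hc s).2.2.2.1
    have h4 : HasDerivAt (fun _ : ℝ => (1 : ℝ))
        (2 * ⟪(c' t).1, (c'' t).1⟫ + 2 * ⟪(c' t).2, (c'' t).2⟫) t := by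
      rw [← h3]
      exact h1
    have h5 := h4.unique h2
    linarith
  have hy2 : ∀ t, ⟪(c'' t).2, b.2⟫ ^ 2 ≤ K ^ 2 * (1 - ⟪(c' t).2, b.2⟫ ^ 2) := by
    intro t
    obtain ⟨Y, hY⟩ : ∃ Y : ℝ, Y = ⟪(c' t).2, b.2⟫ := ⟨_, rfl⟩
    have h1 := CUR.cs (c'' t).1 (c'' t).2 (-(Y • (c' t).1)) (b.2 - Y • (c' t).2)
    have h2 : ⟪(c'' t).1, -(Y • (c' t).1)⟫ + ⟪(c'' t).2, b.2 - Y • (c' t).2⟫ =
        ⟪(c'' t).2, b.2⟫ := by
      have h3 := horth t
      rw [real_inner_comm (c'' t).1, real_inner_comm (c'' t).2] at h3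
      rw [inner_neg_right, inner_sub_right, inner_smul_right, inner_smul_right]
      linear_combination (-Y) * h3
    have h4 : ‖-(Y • (c' t).1)‖ ^ 2 + ‖b.2 - Y • (c' t).2‖ ^ 2 = 1 - Y ^ 2 := by
      have h5 := (hc t).2.2.2.1
      rw [norm_neg, norm_smul, mul_pow, Real.norm_eq_abs, sq_abs, norm_sub_sq_real, norm_smul,
        mul_pow, Real.norm_eq_abs, sq_abs, inner_smul_right, real_inner_comm, ← hY, hb2]
      linear_combination Y ^ 2 * h5
    rw [h2, h4] at h1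
    rw [← hY]
    have h6 : 0 ≤ 1 - Y ^ 2 := by
      rw [hY]
      linarith [hy1 t]
    exact h1.trans (mul_le_mul_of_nonneg_right (hc t).2.2.2.2 h6)
  -- the time
  obtain ⟨T, hT⟩ : ∃ T, T = r / K := ⟨_, rfl⟩
  have hT0 : 0 < T := by rw [hT]; positivity
  have hKT : K * T = r := by rw [hT]; field_simp
  have hw := LOC.width K T hK hT0 (by rw [hKT]; exact hr2) _ _ _ hu hy hy0 hy1 hy2
  rw [hKT] at hw
  -- the first component
  have hsin : ∀ t, |t| ≤ T → ‖(c' t).1‖ ≤ Real.sin (K * |t|) := by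
    intro t ht
    have h1 : K * |t| ≤ Real.pi / 2 := by
      refine (mul_le_mul_of_nonneg_left ht hK.le).trans ?_
      rw [hKT]
      exact hr2
    have h0' : 0 ≤ K * |t| := mul_nonneg hK.le (abs_nonneg t)
    have h2 := CUR.cos_le K hK _ _ hy hy0 hy1 hy2 t h1
    have e : Real.cos (K * |t|) = Real.cos (K * t) := by
      rw [← Real.cos_abs (K * t), abs_mul, abs_of_pos hK]
    rw [← e] at h2
    have h3 : 0 ≤ Real.cos (K * |t|) :=
      Real.cos_nonneg_of_neg_pi_div_two_le_of_le (by linarith [Real.pi_pos]) h1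
    have h4 : 0 ≤ Real.sin (K * |t|) :=
      Real.sin_nonneg_of_nonneg_of_le_pi h0' (by linarith [Real.pi_pos])
    refine abs_le_of_sq_le_sq' ?_ h4 |>.2
    have h5 := (hc t).2.2.2.1
    have h6 := hyp t
    have h7 : Real.cos (K * |t|) ^ 2 ≤ ⟪(c' t).2, b.2⟫ ^ 2 := pow_le_pow_left₀ h3 h2 2
    have h8 := Real.sin_sq_add_cos_sq (K * |t|)
    linarith
  have hd1 := LOC.drift K T hK hT0 (fun t => (c t).1) (fun t => (c' t).1) dq fun t ht1 ht2 => by
    have := hsin t (by rw [abs_of_nonneg ht1]; exact ht2)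
    rwa [abs_of_nonneg ht1] at this
  have hd2 := LOC.drift K T hK hT0 (fun t => (c (-t)).1) (fun t => -(c' (-t)).1) (fun t => by
      have h1 : HasDerivAt (fun t : ℝ => -t) (-1) t := hasDerivAt_neg t
      have h2 := (dq (-t)).scomp t h1
      rw [neg_one_smul] at h2
      exact h2) fun t ht1 ht2 => by
    rw [norm_neg]
    have := hsin (-t) (by rw [abs_neg, abs_of_nonneg ht1]; exact ht2)
    rwa [abs_neg, abs_of_nonneg ht1] at this
  simp only [neg_zero] at hd2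
  rw [hKT] at hd1 hd2
  have hq : ‖(c T).1 - (c (-T)).1‖ ≤ 2 / K * (1 - Real.cos r) := by
    have h1 : (c T).1 - (c (-T)).1 = ((c T).1 - (c 0).1) - ((c (-T)).1 - (c 0).1) := by abel
    rw [h1]
    refine (norm_sub_le _ _).trans ((add_le_add hd1 hd2).trans (le_of_eq ?_))
    ring
  have hp := hδ _ (hc T).1 _ (hc (-T)).1 hq
  have h1 : ⟪(c T).2, b.2⟫ - ⟪(c (-T)).2, b.2⟫ ≤ ‖(c T).2 - (c (-T)).2‖ := by
    rw [← inner_sub_left]
    refine (real_inner_le_norm _ _).trans ?_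
    rw [hb2, mul_one]
  linarith

end Pool.Agent.NH28.EL
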