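import Pool.Agent.NH28.EL.Pln

/-!
# Transversality to a parallel Lagrangian plane field and to its images under fibrewise translations
-/

set_option autoImplicit false

open Set Filter Topology Metric Function
open scoped ContDiff RealInnerProductSpace

noncomputable section

namespace Pool.Agent.NH28.EL

open PLN in
/-- compact flat manifolds: exact Lagrangian submanifolds which are transverse to a parallel field of
Lagrangian planes -/
theorem parallel (hP : S_PUSH) (hF : S_FOL) {n : ℕ} {Γ : Subgroup (E n ≃ᵃⁱ[ℝ] E n)} (hΓ : IsFlat Γ)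
    {Λ : Set (E n × E n)}
    (hΛ : IsLagrangian Γ Λ) (hE : IsExact Γ Λ) (P : Submodule ℝ (E n × E n))
    (hPn : Module.finrank ℝ P = n) (hPi : ∀ a ∈ P, ∀ b ∈ P, om a b = 0)
    (hPΓ : ∀ γ ∈ Γ, ∀ a ∈ P, (γ.linearIsometryEquiv a.1, γ.linearIsometryEquiv a.2) ∈ P)
    (ht : ∀ z ∈ Λ, ∀ a ∈ P, IsTangent Λ z a → a = 0) : IsImage Γ Λ := by
  -- the plane is transverse to the zero section
  have hhor : ∀ ξ : E n, (ξ, (0 : E n)) ∈ P → ξ = 0 := by
    intro ξ₁ hξ₁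
    by_contra hne
    obtain ⟨K, hK, hKc⟩ := hΓ.cocompact
    obtain ⟨R, hR⟩ := hΛ.bdd
    have hcpt : IsCompact (Λ ∩ K ×ˢ closedBall (0 : E n) R) :=
      (hK.prod (isCompact_closedBall _ _)).inter_left hΛ.closed
    have htrans : ∀ z ∈ Λ, ∃ γ ∈ Γ, act γ z ∈ Λ ∩ K ×ˢ closedBall (0 : E n) R := by
      intro z hz
      obtain ⟨γ, hγ, hγK⟩ := hKc z.1
      refine ⟨γ, hγ, hΛ.inv γ hγ z hz, hγK, ?_⟩
      rw [mem_closedBall_zero_iff]
      show ‖γ.linearIsometryEquiv z.2‖ ≤ R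
      rw [LinearIsometryEquiv.norm_map]
      exact hR z hz
    -- the unit vectors `η` with `(η, 0) ∈ P`
    have hScpt : IsCompact ({η : E n | (η, (0 : E n)) ∈ P} ∩ sphere (0 : E n) 1) := by
      refine (isCompact_sphere _ _).inter_left ?_
      have h1 : IsClosed (P : Set (E n × E n)) := P.closed_of_finiteDimensional
      exact h1.preimage (f := fun η : E n => (η, (0 : E n))) (by fun_prop)
    have hn1 : ‖ξ₁‖ ≠ 0 := norm_ne_zero_iff.2 hne
    have hη₀ : ‖ξ₁‖⁻¹ • ξ₁ ∈ {η : E n | (η, (0 : E n)) ∈ P} ∩ sphere (0 : E n) 1 := by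
      refine ⟨?_, ?_⟩
      · have := P.smul_mem ‖ξ₁‖⁻¹ hξ₁
        rw [Prod.smul_mk, smul_zero] at this
        exact this
      · rw [mem_sphere_zero_iff_norm, norm_smul, norm_inv, norm_norm, inv_mul_cancel₀ hn1]
    obtain ⟨z₀, hz₀⟩ := hΛ.nonempty
    obtain ⟨γ₀, -, hw₀⟩ := htrans z₀ hz₀
    obtain ⟨⟨m, ξ⟩, ⟨hm, hξ⟩, hmax⟩ := (hcpt.prod hScpt).exists_isMaxOn
      ⟨(act γ₀ z₀, ‖ξ₁‖⁻¹ • ξ₁), hw₀, hη₀⟩
      (f := fun u : (E n × E n) × E n => ⟪u.1.2, u.2⟫) (by fun_prop)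
    simp only at hm hξ
    have hmax' : ∀ z ∈ Λ, ⟪z.2, ξ⟫ ≤ ⟪m.2, ξ⟫ := by
      intro z hz
      obtain ⟨γ, hγ, hγz⟩ := htrans z hz
      have h1 : γ.linearIsometryEquiv ξ ∈ {η : E n | (η, (0 : E n)) ∈ P} ∩ sphere (0 : E n) 1 := by
        refine ⟨?_, ?_⟩
        · have := hPΓ γ hγ _ hξ.1
          simp only [map_zero] at this
          exact this
        · rw [mem_sphere_zero_iff_norm, LinearIsometryEquiv.norm_map]
          exact mem_sphere_zero_iff_norm.1 hξ.2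
      have h2 : ⟪(act γ z).2, γ.linearIsometryEquiv ξ⟫ ≤ ⟪m.2, ξ⟫ :=
        hmax (a := (act γ z, γ.linearIsometryEquiv ξ)) ⟨hγz, h1⟩
      have h3 : ⟪(act γ z).2, γ.linearIsometryEquiv ξ⟫ = ⟪z.2, ξ⟫ := by
        show ⟪γ.linearIsometryEquiv z.2, γ.linearIsometryEquiv ξ⟫ = _
        rw [LinearIsometryEquiv.inner_map_map]
      rw [← h3]
      exact h2
    obtain ⟨F, hF0, ⟨hFs, hFi, himm⟩, hom, hU⟩ := hΛ.par m hm.1
    have hFΛ : ∀ s, F s ∈ Λ := by
      intro s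
      obtain ⟨U, -, hU'⟩ := hU univ isOpen_univ
      have : F s ∈ F '' univ := mem_image_of_mem _ (mem_univ s)
      rw [hU'] at this
      exact this.1
    have hFd : HasFDerivAt F (fderiv ℝ F 0) 0 :=
      (hFs.differentiable (by simp)).differentiableAt.hasFDerivAt
    have hlm : IsLocalMax (fun s => ⟪ξ, (F s).2⟫) 0 := by
      refine Eventually.of_forall fun s => ?_
      show ⟪ξ, (F s).2⟫ ≤ ⟪ξ, (F 0).2⟫
      rw [hF0, real_inner_comm, real_inner_comm m.2]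
      exact hmax' _ (hFΛ s)
    have hd : HasFDerivAt (fun s => ⟪ξ, (F s).2⟫) ((innerSL ℝ ξ).comp
        ((ContinuousLinearMap.snd ℝ (E n) (E n)).comp (fderiv ℝ F 0))) 0 :=
      (innerSL ℝ ξ).hasFDerivAt.comp (0 : E n) hFd.snd
    have h0 := hlm.hasFDerivAt_eq_zero hd
    have h1 : ∀ v, ⟪ξ, (fderiv ℝ F 0 v).2⟫ = 0 := fun v =>
      congrArg (fun L : E n →L[ℝ] ℝ => L v) h0
    let W : Submodule ℝ (E n × E n) := LinearMap.range (fderiv ℝ F 0 : E n →ₗ[ℝ] E n × E n)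
    have hW : Module.finrank ℝ W = n := by
      have := LinearMap.finrank_range_of_inj (f := (fderiv ℝ F 0 : E n →ₗ[ℝ] E n × E n)) (by
        rw [← LinearMap.ker_eq_bot, LinearMap.ker_eq_bot']
        intro v hv
        exact himm 0 v hv)
      rw [finrank_euclideanSpace_fin] at this
      exact this
    have hmem : (ξ, (0 : E n)) ∈ W := by
      refine lag_mem hW ?_ ?_
      · rintro _ ⟨v, rfl⟩ _ ⟨w, rfl⟩
        exact hom 0 v w
      · rintro _ ⟨v, rfl⟩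
        show om (fderiv ℝ F 0 v) (ξ, 0) = 0
        simp only [om, inner_zero_left, sub_zero]
        rw [real_inner_comm]
        exact h1 v
    obtain ⟨v, hv⟩ := hmem
    have hv' : fderiv ℝ F 0 v = (ξ, 0) := hv
    have htan : IsTangent Λ m (ξ, 0) := by
      have := CORE.tangent_of_map hFs hFΛ 0 v
      rw [hF0, hv'] at this
      exact this
    have h5 : ξ = 0 := congrArg Prod.fst (ht m hm.1 _ hξ.1 htan)
    have h6 : ‖ξ‖ = 1 := mem_sphere_zero_iff_norm.1 hξ.2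
    rw [h5, norm_zero] at h6
    exact zero_ne_one h6
  -- the plane is a graph
  let π : P →ₗ[ℝ] E n := (LinearMap.snd ℝ (E n) (E n)).comp P.subtype
  have hπ : Injective π := by
    rw [← LinearMap.ker_eq_bot, LinearMap.ker_eq_bot']
    rintro ⟨a, ha⟩ h
    have h2 : a.2 = 0 := h
    have h3 : a = (a.1, 0) := Prod.ext rfl h2
    have h4 : a.1 = 0 := hhor a.1 (by rw [← h3]; exact ha)
    apply Subtype.ext
    exact Prod.ext h4 h2
  let e : P ≃ₗ[ℝ] E n := LinearMap.linearEquivOfInjective π hπ (by rw [hPn, finrank_euclideanSpace_fin])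
  have he : ∀ w, ((e.symm w : P) : E n × E n).2 = w := by
    intro w
    have h1 : e (e.symm w) = w := e.apply_symm_apply w
    exact h1
  let S₀ : E n →ₗ[ℝ] E n := -((LinearMap.fst ℝ (E n) (E n)).comp (P.subtype.comp (e.symm : E n →ₗ[ℝ] P)))
  let S : E n →L[ℝ] E n := LinearMap.toContinuousLinearMap S₀
  have hS : ∀ w, (-(S w), w) ∈ P := by
    intro w
    have h1 : (-(S w), w) = ((e.symm w : P) : E n × E n) := by
      refine Prod.ext ?_ ?_
      · show -(-(((e.symm w : P) : E n × E n).1)) = _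
        rw [neg_neg]
      · exact (he w).symm
    rw [h1]
    exact (e.symm w).2
  have hSs : ∀ v w, ⟪S v, w⟫ = ⟪v, S w⟫ := by
    intro v w
    have h1 := hPi _ (hS v) _ (hS w)
    simp only [om, inner_neg_right] at h1
    have h2 := real_inner_comm (S v) w
    linarith
  have hSγ : ∀ γ ∈ Γ, ∀ p, S (γ.linearIsometryEquiv p) = γ.linearIsometryEquiv (S p) := by
    intro γ hγ p
    have h1 := P.sub_mem (hPΓ γ hγ _ (hS p)) (hS (γ.linearIsometryEquiv p))
    simp only [Prod.mk_sub_mk, map_neg, sub_self, sub_neg_eq_add] at h1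
    have h2 := hhor _ h1
    exact (neg_add_eq_zero.1 h2).symm
  have hgrad : ∀ p, HasGradientAt (fun p => 1 / 2 * ⟪S p, p⟫) (S p) p := by
    intro p
    rw [hasGradientAt_iff_hasFDerivAt]
    have h1 : HasFDerivAt (fun p => ⟪S p, p⟫)
        ((fderivInnerCLM ℝ (S p, p)).comp (S.prod (ContinuousLinearMap.id ℝ (E n)))) p :=
      S.hasFDerivAt.inner ℝ (hasFDerivAt_id p)
    have h2 := h1.const_mul (1 / 2 : ℝ)
    refine h2.congr_fderiv ?_
    ext1 v
    simp only [smul_apply, ContinuousLinearMap.comp_apply, ContinuousLinearMap.prod_apply,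
      ContinuousLinearMap.id_apply, fderivInnerCLM_apply, InnerProductSpace.toDual_apply_apply, smul_eq_mul]
    rw [hSs v p, real_inner_comm (S p) v]
    ring
  obtain ⟨Φ, hΦ, -, hΦd⟩ := hF n Γ (fun p => 1 / 2 * ⟪S p, p⟫) S S.contDiff hgrad
    (fun γ hγ p => by
      simp only [hSγ γ hγ]
      rw [LinearIsometryEquiv.inner_map_map])
  refine gen hP hΓ hΛ hE Φ hΦ ?_
  intro z hz a ha h0
  rw [hΦd, ContinuousLinearMap.fderiv] at h0
  refine ht z hz a ?_ ha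
  have h1 : a = (-(S a.2), a.2) := Prod.ext (eq_neg_of_add_eq_zero_left h0) rfl
  rw [h1]
  exact hS a.2

/-- The same for the plane field `{(v, w) : (v + Dh(p) w, w) ∈ P}`, where `h = ∇k`. -/
theorem field (hP : S_PUSH) (hF : S_FOL) {n : ℕ} {Γ : Subgroup (E n ≃ᵃⁱ[ℝ] E n)} (hΓ : IsFlat Γ)
    {Λ : Set (E n × E n)}
    (hΛ : IsLagrangian Γ Λ) (hE : IsExact Γ Λ) (P : Submodule ℝ (E n × E n))
    (hPn : Module.finrank ℝ P = n) (hPi : ∀ a ∈ P, ∀ b ∈ P, om a b = 0)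
    (hPΓ : ∀ γ ∈ Γ, ∀ a ∈ P, (γ.linearIsometryEquiv a.1, γ.linearIsometryEquiv a.2) ∈ P)
    (k : E n → ℝ) (h : E n → E n) (hh : ContDiff ℝ ∞ h) (hk : ∀ p, HasGradientAt k (h p) p)
    (hkΓ : ∀ γ ∈ Γ, ∀ p, k (γ.linearIsometryEquiv p) = k p)
    (ht : ∀ z ∈ Λ, ∀ a, IsTangent Λ z a → (a.1 + fderiv ℝ h z.2 a.2, a.2) ∈ P → a = 0) :
    IsImage Γ Λ := by
  obtain ⟨Φ, hΦ, hΦe, hΦd⟩ := hF n Γ k h hh hk hkΓ
  obtain ⟨h1, h2, h3, h4⟩ := hP n Γ hΓ Λ hΛ hE Φ hΦ
  refine h4 (parallel hP hF hΓ h1 h2 P hPn hPi hPΓ ?_)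
  rintro _ ⟨z, hz, rfl⟩ a haP ha
  obtain ⟨b, hb, rfl⟩ := h3 z hz a ha
  have h5 : (fderiv ℝ Φ z b).2 = b.2 := by
    have hd : HasFDerivAt Φ (fderiv ℝ Φ z) z :=
      (hΦ.1.smooth.differentiable (by simp)).differentiableAt.hasFDerivAt
    have hd2 : HasFDerivAt (fun z => (Φ z).2) ((ContinuousLinearMap.snd ℝ (E n) (E n)).comp
      (fderiv ℝ Φ z)) z := hd.snd
    have hd3 : HasFDerivAt (fun z => (Φ z).2) (ContinuousLinearMap.snd ℝ (E n) (E n)) z := by
      have h6 : (fun z => (Φ z).2) = fun z : E n × E n => z.2 := by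
        funext y
        rw [hΦe]
      rw [h6]
      exact hasFDerivAt_snd
    have h7 := hd2.unique hd3
    exact congrArg (fun L : E n × E n →L[ℝ] E n => L b) h7
  have h8 : b = 0 := by
    refine ht z hz b hb ?_
    have h9 : (b.1 + fderiv ℝ h z.2 b.2, b.2) = fderiv ℝ Φ z b := Prod.ext (hΦd z b).symm h5.symm
    rw [h9]
    exact haP
  rw [h8, map_zero]

end Pool.Agent.NH28.EL
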