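import Pool.Agent.NH28.EL.Loc
import Pool.Agent.NH28.EL.Par

/-!
# Submanifolds with bounded curvature which are locally thin along a plane are transverse to the plane
-/

set_option autoImplicit false

open Set Filter Topology Metric Function
open scoped ContDiff RealInnerProductSpace

noncomputable section

namespace Pool.Agent.NH28.EL

namespace LOCP

/-- the drift of a function -/
theorem drift (K T : ℝ) (hK : 0 < K) (hT0 : 0 < T) (q v : ℝ → ℝ)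
    (hq : ∀ t, HasDerivAt q (v t) t) (hv : ∀ t, 0 ≤ t → t ≤ T → ‖v t‖ ≤ Real.sin (K * t)) :
    ‖q T - q 0‖ ≤ (1 - Real.cos (K * T)) / K := by
  have hB : ∀ x : ℝ, HasDerivAt (fun t => (1 - Real.cos (K * t)) / K) (Real.sin (K * x)) x := by
    intro x
    have h3 : HasDerivAt (fun t => Real.cos (K * t)) (-Real.sin (K * x) * (K * 1)) x :=
      (Real.hasDerivAt_cos (K * x)).comp x ((hasDerivAt_id x).const_mul K)
    refine ((h3.const_sub 1).div_const K).congr_deriv ?_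
    field_simp
  have h := image_norm_le_of_norm_deriv_right_le_deriv_boundary (a := (0 : ℝ)) (b := T)
    (f := fun t => q t - q 0) (f' := v) (B := fun t => (1 - Real.cos (K * t)) / K)
    (B' := fun t => Real.sin (K * t))
    (fun t _ => ((hq t).sub_const (q 0)).continuousAt.continuousWithinAt)
    (fun t _ => ((hq t).sub_const (q 0)).hasDerivWithinAt) (by simp) hB
    (fun t ht => hv t ht.1 ht.2.le)
  exact h (right_mem_Icc.2 hT0.le)

/-- the norm of a combination -/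
theorem nsq_sub {n : ℕ} (a b : E n × E n) (Y : ℝ) (hY : Y = ⟪a.1, b.1⟫ + ⟪a.2, b.2⟫)
    (ha : ‖a.1‖ ^ 2 + ‖a.2‖ ^ 2 = 1) (hb : ‖b.1‖ ^ 2 + ‖b.2‖ ^ 2 = 1) :
    ‖b.1 - Y • a.1‖ ^ 2 + ‖b.2 - Y • a.2‖ ^ 2 = 1 - Y ^ 2 := by
  rw [norm_sub_sq_real, norm_sub_sq_real, norm_smul, norm_smul, mul_pow, mul_pow, Real.norm_eq_abs, sq_abs,
    inner_smul_right, inner_smul_right, real_inner_comm b.1, real_inner_comm b.2] at *
  linear_combination hb + Y ^ 2 * ha + 2 * Y * hY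

end LOCP

/-- submanifolds with bounded curvature which are locally thin along a plane are transverse to the plane -/
theorem t_LOCP (n : ℕ) (Λ : Set (E n × E n)) (P : Submodule ℝ (E n × E n)) (K r : ℝ) (hK : 0 < K)
    (hcurv₀ : HasCurvatureLE Λ K) (hr : 0 < r) (hr2 : r ≤ Real.pi / 2)
    (hδ : ∀ z ∈ Λ, ∀ z' ∈ Λ, ∀ a ∈ P, ‖a.1‖ ^ 2 + ‖a.2‖ ^ 2 = 1 →
      2 / K * Real.sin r ≤ ⟪(z - z').1, a.1⟫ + ⟪(z - z').2, a.2⟫ →
      ∃ e : E n × E n, ‖e.1‖ ^ 2 + ‖e.2‖ ^ 2 = 1 ∧ (∀ b ∈ P, ⟪e.1, b.1⟫ + ⟪e.2, b.2⟫ = 0) ∧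
        2 / K * (1 - Real.cos r) < ⟪(z - z').1, e.1⟫ + ⟪(z - z').2, e.2⟫) :
    ∀ z ∈ Λ, ∀ a ∈ P, IsTangent Λ z a → a = 0 := by
  intro z hz a haP ha
  by_contra hne
  -- a unit vector
  have hn : 0 < ‖a.1‖ ^ 2 + ‖a.2‖ ^ 2 := by
    by_contra h
    have h1 := sq_nonneg ‖a.1‖
    have h2 := sq_nonneg ‖a.2‖
    have h3 : ‖a.1‖ ^ 2 = 0 := by linarith
    have h4 : ‖a.2‖ ^ 2 = 0 := by linarith
    exact hne (Prod.ext (norm_eq_zero.1 (pow_eq_zero_iff two_ne_zero |>.1 h3))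
      (norm_eq_zero.1 (pow_eq_zero_iff two_ne_zero |>.1 h4)))
  obtain ⟨N, hN⟩ : ∃ N, N = Real.sqrt (‖a.1‖ ^ 2 + ‖a.2‖ ^ 2) := ⟨_, rfl⟩
  have hN0 : 0 < N := by rw [hN]; exact Real.sqrt_pos.2 hn
  have hN2 : N ^ 2 = ‖a.1‖ ^ 2 + ‖a.2‖ ^ 2 := by rw [hN]; exact Real.sq_sqrt hn.le
  have hb := CUR.scale ha N⁻¹
  obtain ⟨b, hbdef⟩ : ∃ b, b = N⁻¹ • a := ⟨_, rfl⟩
  rw [← hbdef] at hb
  have hbP : b ∈ P := by
    rw [hbdef]
    exact P.smul_mem _ haP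
  have hb1 : ‖b.1‖ ^ 2 + ‖b.2‖ ^ 2 = 1 := by
    rw [hbdef, Prod.smul_fst, Prod.smul_snd, norm_smul, norm_smul, mul_pow, mul_pow, ← mul_add, ← hN2,
      Real.norm_eq_abs, sq_abs, ← mul_pow, inv_mul_cancel₀ hN0.ne', one_pow]
  obtain ⟨c, c', c'', hc0, hc'0, hc⟩ := hcurv₀ z hz b hb hb1
  -- the components
  have d1 : ∀ t, HasDerivAt (fun t => (c' t).1) (c'' t).1 t := fun t =>
    (ContinuousLinearMap.fst ℝ (E n) (E n)).hasFDerivAt.comp_hasDerivAt t (hc t).2.2.1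
  have d2 : ∀ t, HasDerivAt (fun t => (c' t).2) (c'' t).2 t := fun t =>
    (ContinuousLinearMap.snd ℝ (E n) (E n)).hasFDerivAt.comp_hasDerivAt t (hc t).2.2.1
  have d0 : ∀ t, HasDerivAt (fun t => (c t).2) (c' t).2 t := fun t =>
    (ContinuousLinearMap.snd ℝ (E n) (E n)).hasFDerivAt.comp_hasDerivAt t (hc t).2.1
  have dq : ∀ t, HasDerivAt (fun t => (c t).1) (c' t).1 t := fun t =>
    (ContinuousLinearMap.fst ℝ (E n) (E n)).hasFDerivAt.comp_hasDerivAt t (hc t).2.1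
  have hu : ∀ e : E n × E n, ∀ t, HasDerivAt (fun t => ⟪(c t).1, e.1⟫ + ⟪(c t).2, e.2⟫)
      (⟪(c' t).1, e.1⟫ + ⟪(c' t).2, e.2⟫) t := by
    intro e t
    refine (((dq t).inner ℝ (hasDerivAt_const t e.1)).add
      ((d0 t).inner ℝ (hasDerivAt_const t e.2))).congr_deriv ?_
    rw [inner_zero_right, zero_add, inner_zero_right, zero_add]
  have hy : ∀ t, HasDerivAt (fun t => ⟪(c' t).1, b.1⟫ + ⟪(c' t).2, b.2⟫)
      (⟪(c'' t).1, b.1⟫ + ⟪(c'' t).2, b.2⟫) t := by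
    intro t
    refine (((d1 t).inner ℝ (hasDerivAt_const t b.1)).add
      ((d2 t).inner ℝ (hasDerivAt_const t b.2))).congr_deriv ?_
    rw [inner_zero_right, zero_add, inner_zero_right, zero_add]
  have hy0 : ⟪(c' 0).1, b.1⟫ + ⟪(c' 0).2, b.2⟫ = 1 := by
    rw [hc'0, real_inner_self_eq_norm_sq, real_inner_self_eq_norm_sq, hb1]
  have hy1 : ∀ t, (⟪(c' t).1, b.1⟫ + ⟪(c' t).2, b.2⟫) ^ 2 ≤ 1 := by
    intro t
    have h1 := CUR.cs (c' t).1 (c' t).2 b.1 b.2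
    rw [(hc t).2.2.2.1, hb1, mul_one] at h1
    exact h1
  have horth : ∀ t, ⟪(c' t).1, (c'' t).1⟫ + ⟪(c' t).2, (c'' t).2⟫ = 0 := by
    intro t
    have h1 := ((d1 t).norm_sq).add ((d2 t).norm_sq)
    have h2 : HasDerivAt (fun _ : ℝ => (1 : ℝ)) 0 t := hasDerivAt_const t 1
    have h3 : ((fun t => ‖(c' t).1‖ ^ 2) + fun t => ‖(c' t).2‖ ^ 2) = fun _ : ℝ => (1 : ℝ) := by
      funext s
      exact (hc s).2.2.2.1
    have h4 : HasDerivAt (fun _ : ℝ => (1 : ℝ))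
        (2 * ⟪(c' t).1, (c'' t).1⟫ + 2 * ⟪(c' t).2, (c'' t).2⟫) t := by
      rw [← h3]
      exact h1
    have h5 := h4.unique h2
    linarith
  have hy2 : ∀ t, (⟪(c'' t).1, b.1⟫ + ⟪(c'' t).2, b.2⟫) ^ 2 ≤
      K ^ 2 * (1 - (⟪(c' t).1, b.1⟫ + ⟪(c' t).2, b.2⟫) ^ 2) := by
    intro t
    obtain ⟨Y, hY⟩ : ∃ Y : ℝ, Y = ⟪(c' t).1, b.1⟫ + ⟪(c' t).2, b.2⟫ := ⟨_, rfl⟩
    have h1 := CUR.cs (c'' t).1 (c'' t).2 (b.1 - Y • (c' t).1) (b.2 - Y • (c' t).2)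
    have h2 : ⟪(c'' t).1, b.1 - Y • (c' t).1⟫ + ⟪(c'' t).2, b.2 - Y • (c' t).2⟫ =
        ⟪(c'' t).1, b.1⟫ + ⟪(c'' t).2, b.2⟫ := by
      have h3 := horth t
      rw [real_inner_comm (c'' t).1, real_inner_comm (c'' t).2] at h3
      rw [inner_sub_right, inner_sub_right, inner_smul_right, inner_smul_right]
      linear_combination (-Y) * h3
    have h4 := LOCP.nsq_sub (c' t) b Y hY (hc t).2.2.2.1 hb1
    rw [h2, h4] at h1
    rw [← hY]
    have h6 : 0 ≤ 1 - Y ^ 2 := by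
      rw [hY]
      linarith [hy1 t]
    exact h1.trans (mul_le_mul_of_nonneg_right (hc t).2.2.2.2 h6)
  -- the time
  obtain ⟨T, hT⟩ : ∃ T, T = r / K := ⟨_, rfl⟩
  have hT0 : 0 < T := by rw [hT]; positivity
  have hKT : K * T = r := by rw [hT]; field_simp
  have hw := LOC.width K T hK hT0 (by rw [hKT]; exact hr2) _ _ _ (hu b) hy hy0 hy1 hy2
  rw [hKT] at hw
  obtain ⟨e, he1, heP, he⟩ := hδ _ (hc T).1 _ (hc (-T)).1 b hbP hb1 (by
    refine hw.trans (le_of_eq ?_)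
    rw [Prod.fst_sub, Prod.snd_sub, inner_sub_left, inner_sub_left]
    ring)
  -- the component in the direction of `e`
  have hsin : ∀ t, |t| ≤ T → ‖⟪(c' t).1, e.1⟫ + ⟪(c' t).2, e.2⟫‖ ≤ Real.sin (K * |t|) := by
    intro t ht
    have h1 : K * |t| ≤ Real.pi / 2 := by
      refine (mul_le_mul_of_nonneg_left ht hK.le).trans ?_
      rw [hKT]
      exact hr2
    have h0' : 0 ≤ K * |t| := mul_nonneg hK.le (abs_nonneg t)
    have h2 := CUR.cos_le K hK _ _ hy hy0 hy1 hy2 t h1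
    have e' : Real.cos (K * |t|) = Real.cos (K * t) := by
      rw [← Real.cos_abs (K * t), abs_mul, abs_of_pos hK]
    rw [← e'] at h2
    have h3 : 0 ≤ Real.cos (K * |t|) :=
      Real.cos_nonneg_of_neg_pi_div_two_le_of_le (by linarith [Real.pi_pos]) h1
    have h4 : 0 ≤ Real.sin (K * |t|) :=
      Real.sin_nonneg_of_nonneg_of_le_pi h0' (by linarith [Real.pi_pos])
    rw [Real.norm_eq_abs]
    refine abs_le_of_sq_le_sq ?_ h4
    obtain ⟨Y, hY⟩ : ∃ Y : ℝ, Y = ⟪b.1, (c' t).1⟫ + ⟪b.2, (c' t).2⟫ := ⟨_, rfl⟩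
    have hY' : ⟪(c' t).1, b.1⟫ + ⟪(c' t).2, b.2⟫ = Y := by
      rw [hY, real_inner_comm b.1, real_inner_comm b.2]
    have h5 := LOCP.nsq_sub b (c' t) Y hY hb1 (hc t).2.2.2.1
    have h6 := CUR.cs ((c' t).1 - Y • b.1) ((c' t).2 - Y • b.2) e.1 e.2
    have h7 : ⟪(c' t).1 - Y • b.1, e.1⟫ + ⟪(c' t).2 - Y • b.2, e.2⟫ =
        ⟪(c' t).1, e.1⟫ + ⟪(c' t).2, e.2⟫ := by
      have h8 := heP b hbP
      rw [real_inner_comm b.1, real_inner_comm b.2] at h8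
      rw [inner_sub_left, inner_sub_left, real_inner_smul_left, real_inner_smul_left]
      linear_combination (-Y) * h8
    rw [h7, h5, he1, mul_one] at h6
    rw [hY'] at h2
    have h9 : Real.cos (K * |t|) ^ 2 ≤ Y ^ 2 := pow_le_pow_left₀ h3 h2 2
    have h10 := Real.sin_sq_add_cos_sq (K * |t|)
    linarith
  have hd1 := LOCP.drift K T hK hT0 _ _ (hu e) fun t ht1 ht2 => by
    have := hsin t (by rw [abs_of_nonneg ht1]; exact ht2)
    rwa [abs_of_nonneg ht1] at this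
  have hd2 := LOCP.drift K T hK hT0 (fun t => ⟪(c (-t)).1, e.1⟫ + ⟪(c (-t)).2, e.2⟫)
    (fun t => -(⟪(c' (-t)).1, e.1⟫ + ⟪(c' (-t)).2, e.2⟫)) (fun t => by
      have h1 : HasDerivAt (fun t : ℝ => -t) (-1) t := hasDerivAt_neg t
      have h2 := (hu e (-t)).scomp t h1
      rw [neg_one_smul] at h2
      exact h2) fun t ht1 ht2 => by
    rw [norm_neg]
    have := hsin (-t) (by rw [abs_neg, abs_of_nonneg ht1]; exact ht2)
    rwa [abs_neg, abs_of_nonneg ht1] at this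
  simp only [neg_zero] at hd2
  rw [hKT, Real.norm_eq_abs] at hd1 hd2
  have h1 := (abs_le.1 hd1).2
  have h2 := (abs_le.1 hd2).1
  rw [Prod.fst_sub, Prod.snd_sub, inner_sub_left, inner_sub_left] at he
  have h3 : 2 / K * (1 - Real.cos r) = (1 - Real.cos r) / K + (1 - Real.cos r) / K := by ring
  rw [h3] at he
  linarith

end Pool.Agent.NH28.EL
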