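import Pool.Agent.NH28.EL.Pln

/-!
# Pairs of points of an exact Lagrangian submanifold in a fibre
-/

set_option autoImplicit false

open Set Filter Topology Metric Function
open scoped ContDiff RealInnerProductSpace

noncomputable section

namespace Pool.Agent.NH28.EL

open CORE PLN

/-- vertical tangent vectors -/
theorem vert_tangent {n : ℕ} {Λ : Set (E n × E n)} {F : E n → E n × E n} (hFs : ContDiff ℝ ∞ F)
    (himm : ∀ s v, fderiv ℝ F s v = 0 → v = 0) (hom : IsIsotropic F) (hFΛ : ∀ s, F s ∈ Λ) (w : E n)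
    (hw : ∀ v, ⟪w, (fderiv ℝ F 0 v).1⟫ = 0) : IsTangent Λ (F 0) (0, w) := by
  let W : Submodule ℝ (E n × E n) := LinearMap.range (fderiv ℝ F 0 : E n →ₗ[ℝ] E n × E n)
  have hW : Module.finrank ℝ W = n := by
    have := LinearMap.finrank_range_of_inj (f := (fderiv ℝ F 0 : E n →ₗ[ℝ] E n × E n)) (by
      rw [← LinearMap.ker_eq_bot, LinearMap.ker_eq_bot']
      intro v hv
      exact himm 0 v hv)
    rw [finrank_euclideanSpace_fin] at this
    exact this
  have hmem : ((0 : E n), w) ∈ W := by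
    refine lag_mem hW ?_ ?_
    · rintro _ ⟨v, rfl⟩ _ ⟨w, rfl⟩
      exact hom 0 v w
    · rintro _ ⟨v, rfl⟩
      show om (fderiv ℝ F 0 v) (0, w) = 0
      simp only [om, inner_zero_right, zero_sub, hw v, neg_zero]
  obtain ⟨v, hv⟩ := hmem
  have hv' : fderiv ℝ F 0 v = (0, w) := hv
  have := tangent_of_map hFs hFΛ 0 v
  rw [hv'] at this
  exact this

/-- strict differentiability of the primitive -/
theorem prim_strict {n : ℕ} {F : E n → E n × E n} (hFs : ContDiff ℝ ∞ F) {f : E n × E n → ℝ}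
    (hf : ∀ s, ∃ ℓ : E n →L[ℝ] ℝ,
      HasFDerivAt (fun s => f (F s)) ℓ s ∧ ∀ v, ℓ v = ⟪(F s).2, (fderiv ℝ F s v).1⟫) (s : E n) :
    HasStrictFDerivAt (fun s => f (F s)) ((innerSL ℝ (F s).2).comp
      ((ContinuousLinearMap.fst ℝ (E n) (E n)).comp (fderiv ℝ F s))) s := by
  refine hasStrictFDerivAt_of_hasFDerivAt_of_continuousAt (Eventually.of_forall fun s => ?_) ?_
    (f' := fun s => (innerSL ℝ (F s).2).comp
      ((ContinuousLinearMap.fst ℝ (E n) (E n)).comp (fderiv ℝ F s)))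
  · obtain ⟨ℓ, h1, h2⟩ := hf s
    refine h1.congr_fderiv ?_
    ext1 v
    exact h2 v
  · have h1 : Continuous fun s => fderiv ℝ F s := hFs.continuous_fderiv (by simp)
    have h2 : Continuous fun s => innerSL ℝ (F s).2 :=
      (innerSL ℝ).continuous.comp (continuous_snd.comp hFs.continuous)
    exact (h2.clm_comp (continuous_const.clm_comp h1)).continuousAt

/-- Pairs of points of an exact Lagrangian submanifold in a fibre -/
theorem t_PAIR {n : ℕ} {Γ : Subgroup (E n ≃ᵃⁱ[ℝ] E n)} (hΓ : IsFlat Γ) {Λ : Set (E n × E n)}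
    (hΛ : IsLagrangian Γ Λ) (hE : IsExact Γ Λ)
    (ht : ∀ z ∈ Λ, ∀ z' ∈ Λ, z.1 = z'.1 → z ≠ z' → ∀ w w' : E n, IsTangent Λ z (0, w) →
      IsTangent Λ z' (0, w') → (w = w' → w = 0) ∧ w - w' ≠ z.2 - z'.2) :
    ∀ z ∈ Λ, ∀ z' ∈ Λ, z.1 = z'.1 → z = z' := by
  obtain ⟨f, hfΓ, hf⟩ := hE
  have hfc := cont_prim hΛ hf
  obtain ⟨K, hK, hKc⟩ := hΓ.cocompact
  obtain ⟨R, hR⟩ := hΛ.bdd
  obtain ⟨P, hPd⟩ : ∃ P : Set ((E n × E n) × (E n × E n)),
    P = {w | w.1 ∈ Λ ∧ w.2 ∈ Λ ∧ w.1.1 = w.2.1 ∧ w.1.1 ∈ K} := ⟨_, rfl⟩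
  have hPc : IsCompact P := by
    have hsub : P ⊆ (K ×ˢ closedBall (0 : E n) R) ×ˢ (K ×ˢ closedBall (0 : E n) R) := by
      intro w hw
      rw [hPd] at hw
      obtain ⟨h1, h2, h3, h5⟩ := hw
      refine ⟨⟨h5, ?_⟩, ⟨?_, ?_⟩⟩
      · rw [mem_closedBall_zero_iff]
        exact hR _ h1
      · rw [← h3]
        exact h5
      · rw [mem_closedBall_zero_iff]
        exact hR _ h2
    refine IsCompact.of_isClosed_subset ((hK.prod (isCompact_closedBall _ _)).prod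
      (hK.prod (isCompact_closedBall _ _))) ?_ hsub
    rw [hPd]
    refine (hΛ.closed.preimage continuous_fst).inter ((hΛ.closed.preimage continuous_snd).inter
      ((isClosed_eq (continuous_fst.comp continuous_fst) (continuous_fst.comp continuous_snd)).inter
        (hK.isClosed.preimage (continuous_fst.comp continuous_fst))))
  -- translation into the fundamental set
  have htr : ∀ z ∈ Λ, ∀ z' ∈ Λ, z.1 = z'.1 → ∃ w ∈ P, f w.1 - f w.2 = f z - f z' ∧ (z ≠ z' → w.1 ≠ w.2) := by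
    intro z hz z' hz' h1
    obtain ⟨γ, hγ, hγK⟩ := hKc z.1
    refine ⟨(act γ z, act γ z'), ?_, ?_, fun h2 h => h2 (act_inj γ h)⟩
    · rw [hPd]
      refine ⟨hΛ.inv γ hγ z hz, hΛ.inv γ hγ z' hz', ?_, hγK⟩
      show γ z.1 = γ z'.1
      rw [h1]
    · show f (act γ z) - f (act γ z') = _
      rw [hfΓ γ hγ z hz, hfΓ γ hγ z' hz']
  by_contra hcon
  push Not at hcon
  obtain ⟨z, hz, z', hz', h1, h2⟩ := hcon
  obtain ⟨w₀, hw₀, -, hw₀n⟩ := htr z hz z' hz' h1
  have hcont : ContinuousOn (fun w : (E n × E n) × (E n × E n) => f w.1 - f w.2) P := by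
    refine ContinuousOn.sub ?_ ?_
    · refine hfc.comp continuous_fst.continuousOn ?_
      intro w hw
      rw [hPd] at hw
      exact hw.1
    · refine hfc.comp continuous_snd.continuousOn ?_
      intro w hw
      rw [hPd] at hw
      exact hw.2.1
  obtain ⟨m, hm, hmx, hmn⟩ : ∃ m ∈ P, (∀ w ∈ P, f w.1 - f w.2 ≤ f m.1 - f m.2) ∧ m.1 ≠ m.2 := by
    obtain ⟨m, hm, hmax⟩ := hPc.exists_isMaxOn ⟨w₀, hw₀⟩ hcont
    by_cases h : m.1 = m.2
    · have e1 : f w₀.1 - f w₀.2 ≤ f m.1 - f m.2 := hmax hw₀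
      have hsw : (w₀.2, w₀.1) ∈ P := by
        rw [hPd] at hw₀ ⊢
        obtain ⟨a1, a2, a3, a4⟩ := hw₀
        exact ⟨a2, a1, a3.symm, by rw [← a3]; exact a4⟩
      have e2 : f w₀.2 - f w₀.1 ≤ f m.1 - f m.2 := hmax hsw
      rw [h, sub_self] at e1 e2
      refine ⟨w₀, hw₀, fun w hw => ?_, hw₀n h2⟩
      have e3 : f w.1 - f w.2 ≤ f m.1 - f m.2 := hmax hw
      rw [h, sub_self] at e3
      linarith
    · exact ⟨m, hm, fun w hw => hmax hw, h⟩
  have hmP := hm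
  rw [hPd] at hmP
  obtain ⟨a1, a2, a3, a5⟩ := hmP
  obtain ⟨F, hF0, ⟨hFs, hFi, himm⟩, hom, hU⟩ := hΛ.par m.1 a1
  obtain ⟨F', hF0', ⟨hFs', hFi', himm'⟩, hom', hU'⟩ := hΛ.par m.2 a2
  have hFΛ : ∀ s, F s ∈ Λ := by
    intro s
    obtain ⟨U, -, hU1⟩ := hU univ isOpen_univ
    have : F s ∈ F '' univ := mem_image_of_mem _ (mem_univ s)
    rw [hU1] at this
    exact this.1
  have hFΛ' : ∀ s, F' s ∈ Λ := by
    intro s
    obtain ⟨U, -, hU1⟩ := hU' univ isOpen_univ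
    have : F' s ∈ F' '' univ := mem_image_of_mem _ (mem_univ s)
    rw [hU1] at this
    exact this.1
  obtain ⟨A, hA⟩ : ∃ A : E n →L[ℝ] E n,
    A = (ContinuousLinearMap.fst ℝ (E n) (E n)).comp (fderiv ℝ F 0) := ⟨_, rfl⟩
  obtain ⟨A', hA'⟩ : ∃ A' : E n →L[ℝ] E n,
    A' = (ContinuousLinearMap.fst ℝ (E n) (E n)).comp (fderiv ℝ F' 0) := ⟨_, rfl⟩
  have dF : HasStrictFDerivAt F (fderiv ℝ F 0) 0 := hFs.contDiffAt.hasStrictFDerivAt (by simp)
  have dF' : HasStrictFDerivAt F' (fderiv ℝ F' 0) 0 := hFs'.contDiffAt.hasStrictFDerivAt (by simp)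
  have dG1 : HasStrictFDerivAt (fun x : E n × E n => (F x.1).1)
      (A.comp (ContinuousLinearMap.fst ℝ (E n) (E n))) (0, 0) := by
    rw [hA]
    exact HasStrictFDerivAt.comp (g := fun s => (F s).1) (0, 0) dF.fst hasStrictFDerivAt_fst
  have dG2 : HasStrictFDerivAt (fun x : E n × E n => (F' x.2).1)
      (A'.comp (ContinuousLinearMap.snd ℝ (E n) (E n))) (0, 0) := by
    rw [hA']
    exact HasStrictFDerivAt.comp (g := fun s => (F' s).1) (0, 0) dF'.fst hasStrictFDerivAt_snd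
  have dφ1 : HasStrictFDerivAt (fun x : E n × E n => f (F x.1))
      (((innerSL ℝ (F 0).2).comp A).comp (ContinuousLinearMap.fst ℝ (E n) (E n))) (0, 0) := by
    rw [hA]
    exact HasStrictFDerivAt.comp (g := fun s => f (F s)) (0, 0) (prim_strict hFs (hf F hFs hFΛ) 0)
      hasStrictFDerivAt_fst
  have dφ2 : HasStrictFDerivAt (fun x : E n × E n => f (F' x.2))
      (((innerSL ℝ (F' 0).2).comp A').comp (ContinuousLinearMap.snd ℝ (E n) (E n))) (0, 0) := by
    rw [hA']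
    exact HasStrictFDerivAt.comp (g := fun s => f (F' s)) (0, 0) (prim_strict hFs' (hf F' hFs' hFΛ') 0)
      hasStrictFDerivAt_snd
  have hext : IsLocalExtrOn (fun x : E n × E n => f (F x.1) - f (F' x.2))
      {x | (F x.1).1 - (F' x.2).1 = (F ((0 : E n), (0 : E n)).1).1 - (F' ((0 : E n), (0 : E n)).2).1}
      (0, 0) := by
    refine Or.inr ?_
    refine eventually_nhdsWithin_of_forall fun x hx => ?_
    have hx' : (F x.1).1 - (F' x.2).1 = (F 0).1 - (F' 0).1 := hx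
    rw [hF0, hF0', a3, sub_self] at hx'
    obtain ⟨w, hw, hwe, -⟩ := htr _ (hFΛ x.1) _ (hFΛ' x.2) (sub_eq_zero.1 hx')
    show f (F x.1) - f (F' x.2) ≤ f (F 0) - f (F' 0)
    rw [hF0, hF0', ← hwe]
    exact hmx w hw
  obtain ⟨ℓ, c, hne, hℓ⟩ := hext.exists_linear_map_of_hasStrictFDerivAt (dG1.sub dG2) (dφ1.sub dφ2)
  obtain ⟨ξ, hξ⟩ : ∃ ξ : E n, ∀ v, ℓ v = ⟪ξ, v⟫ := by
    refine ⟨(InnerProductSpace.toDual ℝ (E n)).symm (LinearMap.toContinuousLinearMap ℓ), fun v => ?_⟩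
    rw [InnerProductSpace.toDual_symm_apply]
    rfl
  have k1 : ∀ v, ⟪ξ + c • m.1.2, (fderiv ℝ F 0 v).1⟫ = 0 := by
    intro v
    have h3 := hℓ (v, 0)
    rw [hξ] at h3
    simp only [_root_.sub_apply, ContinuousLinearMap.comp_apply, ContinuousLinearMap.coe_fst',
      ContinuousLinearMap.coe_snd', map_zero, sub_zero, innerSL_apply_apply, hF0, smul_eq_mul] at h3
    rw [hA] at h3
    rw [inner_add_left, real_inner_smul_left]
    exact h3
  have k2 : ∀ v, ⟪ξ + c • m.2.2, (fderiv ℝ F' 0 v).1⟫ = 0 := by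
    intro v
    have h3 := hℓ (0, v)
    rw [hξ] at h3
    simp only [_root_.sub_apply, ContinuousLinearMap.comp_apply, ContinuousLinearMap.coe_fst',
      ContinuousLinearMap.coe_snd', map_zero, zero_sub, innerSL_apply_apply, hF0', smul_eq_mul] at h3
    rw [hA'] at h3
    rw [inner_add_left, real_inner_smul_left]
    rw [inner_neg_right] at h3
    have h4 : ⟪ξ, (fderiv ℝ F' 0 v).1⟫ + c * ⟪m.2.2, (fderiv ℝ F' 0 v).1⟫ = 0 := by
      have h5 : -⟪ξ, (fderiv ℝ F' 0 v).1⟫ + c * -⟪m.2.2, (fderiv ℝ F' 0 v).1⟫ = 0 := h3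
      linarith
    exact h4
  by_cases hc : c = 0
  · have t1 := vert_tangent hFs himm hom hFΛ ξ (fun v => by
      have := k1 v
      rwa [hc, zero_smul, add_zero] at this)
    have t2 := vert_tangent hFs' himm' hom' hFΛ' ξ (fun v => by
      have := k2 v
      rwa [hc, zero_smul, add_zero] at this)
    rw [hF0] at t1
    rw [hF0'] at t2
    have h3 := (ht _ a1 _ a2 a3 hmn ξ ξ t1 t2).1 rfl
    refine hne (Prod.ext ?_ hc)
    ext1 v
    rw [hξ, h3, inner_zero_left]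
    rfl
  · have t1 := vert_tangent hFs himm hom hFΛ (c⁻¹ • (ξ + c • m.1.2)) (fun v => by
      rw [real_inner_smul_left, k1 v, mul_zero])
    have t2 := vert_tangent hFs' himm' hom' hFΛ' (c⁻¹ • (ξ + c • m.2.2)) (fun v => by
      rw [real_inner_smul_left, k2 v, mul_zero])
    rw [hF0] at t1
    rw [hF0'] at t2
    refine (ht _ a1 _ a2 a3 hmn _ _ t1 t2).2 ?_
    rw [smul_add, smul_add, smul_smul, smul_smul, inv_mul_cancel₀ hc, one_smul, one_smul]
    abel

end Pool.Agent.NH28.EL
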