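import Pool.Agent.NH28.EL.PAIR

/-!
# Pairs of points of an exact Lagrangian submanifold in a leaf
-/

set_option autoImplicit false

open Set Filter Topology Metric Function
open scoped ContDiff RealInnerProductSpace

noncomputable section

namespace Pool.Agent.NH28.EL

/-- Pairs of points of an exact Lagrangian submanifold in a leaf of the foliation `q + h(p) = const` -/
theorem t_PAIRK (hP : S_PUSH) (hF : S_FOL) {n : ℕ} {Γ : Subgroup (E n ≃ᵃⁱ[ℝ] E n)} (hΓ : IsFlat Γ)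
    {Λ : Set (E n × E n)} (hΛ : IsLagrangian Γ Λ) (hE : IsExact Γ Λ)
    (k : E n → ℝ) (h : E n → E n) (hh : ContDiff ℝ ∞ h) (hk : ∀ p, HasGradientAt k (h p) p)
    (hkΓ : ∀ γ ∈ Γ, ∀ p, k (γ.linearIsometryEquiv p) = k p)
    (ht : ∀ z ∈ Λ, ∀ z' ∈ Λ, z.1 + h z.2 = z'.1 + h z'.2 → z ≠ z' → ∀ w w' : E n,
      IsTangent Λ z (-fderiv ℝ h z.2 w, w) → IsTangent Λ z' (-fderiv ℝ h z'.2 w', w') →
      (w = w' → w = 0) ∧ w - w' ≠ z.2 - z'.2) :
    ∀ z ∈ Λ, ∀ z' ∈ Λ, z.1 + h z.2 = z'.1 + h z'.2 → z = z' := by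
  obtain ⟨Φ, hΦ, hΦe, hΦd⟩ := hF n Γ k h hh hk hkΓ
  obtain ⟨h1, h2, h3, h4⟩ := hP n Γ hΓ Λ hΛ hE Φ hΦ
  have hd2 : ∀ z b, (fderiv ℝ Φ z b).2 = b.2 := by
    intro z b
    have hd : HasFDerivAt Φ (fderiv ℝ Φ z) z :=
      (hΦ.1.smooth.differentiable (by simp)).differentiableAt.hasFDerivAt
    have hd2 : HasFDerivAt (fun z => (Φ z).2) ((ContinuousLinearMap.snd ℝ (E n) (E n)).comp
      (fderiv ℝ Φ z)) z := hd.snd
    have hd3 : HasFDerivAt (fun z => (Φ z).2) (ContinuousLinearMap.snd ℝ (E n) (E n)) z := by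
      have h6 : (fun z => (Φ z).2) = fun z : E n × E n => z.2 := by
        funext y
        rw [hΦe]
      rw [h6]
      exact hasFDerivAt_snd
    have h7 := hd2.unique hd3
    exact congrArg (fun L : E n × E n →L[ℝ] E n => L b) h7
  -- vertical tangent vectors of the image
  have hv : ∀ z ∈ Λ, ∀ w : E n, IsTangent (Φ '' Λ) (Φ z) (0, w) →
      IsTangent Λ z (-fderiv ℝ h z.2 w, w) := by
    intro z hz w hw
    obtain ⟨b, hb, hbe⟩ := h3 z hz _ hw
    have e2 : w = b.2 := by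
      have := congrArg Prod.snd hbe
      rw [hd2] at this
      exact this
    have e1 : (0 : E n) = b.1 + fderiv ℝ h z.2 b.2 := by
      have := congrArg Prod.fst hbe
      rw [hΦd] at this
      exact this
    have e3 : b = (-fderiv ℝ h z.2 w, w) := by
      refine Prod.ext ?_ e2.symm
      rw [e2]
      exact eq_neg_of_add_eq_zero_left e1.symm
    rw [← e3]
    exact hb
  have key := t_PAIR hΓ h1 h2 (by
    rintro _ ⟨z, hz, rfl⟩ _ ⟨z', hz', rfl⟩ e hne w w' hw hw'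
    have e1 : z.1 + h z.2 = z'.1 + h z'.2 := by
      rw [hΦe, hΦe] at e
      exact e
    have e2 := ht z hz z' hz' e1 (fun h => hne (congrArg Φ h)) w w' (hv z hz w hw) (hv z' hz' w' hw')
    rw [hΦe, hΦe]
    exact e2)
  intro z hz z' hz' e
  refine Φ.injective (key _ ⟨z, hz, rfl⟩ _ ⟨z', hz', rfl⟩ ?_)
  rw [hΦe, hΦe]
  exact e

end Pool.Agent.NH28.EL
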