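import Pool.Agent.NH28.EL.Stm

set_option autoImplicit false

open Set Filter Topology Metric Function
open scoped ContDiff RealInnerProductSpace

noncomputable section

namespace Pool.Agent.NH28.EL

namespace PUSH

variable {n : ℕ}

theorem om_nondeg {a : E n × E n} (h : ∀ b, om a b = 0) : a = 0 := by
  have h1 := h (a.2, -a.1)
  simp only [om, inner_neg_left, sub_neg_eq_add] at h1
  have h2 : 0 ≤ ⟪a.2, a.2⟫ := real_inner_self_nonneg
  have h3 : 0 ≤ ⟪a.1, a.1⟫ := real_inner_self_nonneg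
  refine Prod.ext ?_ ?_
  · exact (inner_self_eq_zero (𝕜 := ℝ)).1 (le_antisymm (by linarith) h3)
  · exact (inner_self_eq_zero (𝕜 := ℝ)).1 (le_antisymm (by linarith) h2)

theorem fd_comp {G : Type} [NormedAddCommGroup G] [NormedSpace ℝ G] {F : G → E n × E n}
    {Φ : E n × E n → E n × E n} (hF : ContDiff ℝ ∞ F) (hΦ : ContDiff ℝ ∞ Φ) (s v : G) :
    fderiv ℝ (fun s => Φ (F s)) s v = fderiv ℝ Φ (F s) (fderiv ℝ F s v) := by
  have g1 : HasFDerivAt Φ (fderiv ℝ Φ (F s)) (F s) :=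
    (hΦ.differentiable (by simp)).differentiableAt.hasFDerivAt
  have g2 : HasFDerivAt F (fderiv ℝ F s) s :=
    (hF.differentiable (by simp)).differentiableAt.hasFDerivAt
  have g3 : fderiv ℝ (fun s => Φ (F s)) s = _ := (g1.comp s g2).fderiv
  rw [g3]
  rfl

theorem inv_fd {Φ : E n × E n ≃ E n × E n} (h1 : ContDiff ℝ ∞ Φ) (h2 : ContDiff ℝ ∞ Φ.symm)
    (y a : E n × E n) : fderiv ℝ Φ (Φ.symm y) (fderiv ℝ Φ.symm y a) = a := by
  rw [← fd_comp h2 h1]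
  have : (fun s => Φ (Φ.symm s)) = id := by funext s; simp
  rw [this, fderiv_id]
  rfl

theorem symm_act {Γ : Subgroup (E n ≃ᵃⁱ[ℝ] E n)} {Φ : E n × E n ≃ E n × E n}
    (h : IsSymplectic Γ Φ) {γ : E n ≃ᵃⁱ[ℝ] E n} (hγ : γ ∈ Γ) (z : E n × E n) :
    Φ.symm (act γ z) = act γ (Φ.symm z) := by
  rw [Equiv.symm_apply_eq, h.equivariant γ hγ, Equiv.apply_symm_apply]

theorem lag {Γ : Subgroup (E n ≃ᵃⁱ[ℝ] E n)} (hΓ : IsFlat Γ) {Λ : Set (E n × E n)}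
    (hΛ : IsLagrangian Γ Λ) {Φ : E n × E n ≃ E n × E n} (h : IsSymplectic Γ Φ) :
    IsLagrangian Γ (Φ '' Λ) := by
  let H : E n × E n ≃ₜ E n × E n := ⟨Φ, h.smooth.continuous, h.smooth_symm.continuous⟩
  refine ⟨H.isClosedMap _ hΛ.closed, hΛ.nonempty.image _, ?_, ?_, ?_⟩
  · rintro γ hγ _ ⟨z, hz, rfl⟩
    exact ⟨_, hΛ.inv γ hγ z hz, h.equivariant γ hγ z⟩
  · obtain ⟨R, hR⟩ := hΛ.bdd
    obtain ⟨K, hK, hK'⟩ := hΓ.cocompact
    have hc : IsCompact (K ×ˢ closedBall (0 : E n) R) := hK.prod (isCompact_closedBall _ _)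
    obtain ⟨R', hR'⟩ := hc.exists_bound_of_continuousOn (f := fun z => (Φ z).2)
      (continuous_snd.comp h.smooth.continuous).continuousOn
    refine ⟨R', ?_⟩
    rintro _ ⟨z, hz, rfl⟩
    obtain ⟨γ, hγ, hγK⟩ := hK' z.1
    have h1 : act γ z ∈ K ×ˢ closedBall (0 : E n) R := by
      refine ⟨hγK, ?_⟩
      rw [mem_closedBall_zero_iff]
      show ‖γ.linearIsometryEquiv z.2‖ ≤ R
      rw [LinearIsometryEquiv.norm_map]
      exact hR z hz
    have h2 : ‖(Φ (act γ z)).2‖ ≤ R' := hR' _ h1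
    rw [h.equivariant γ hγ] at h2
    have h3 : ‖(act γ (Φ z)).2‖ = ‖(Φ z).2‖ := by
      show ‖γ.linearIsometryEquiv (Φ z).2‖ = _
      rw [LinearIsometryEquiv.norm_map]
    rwa [h3] at h2
  · rintro _ ⟨z, hz, rfl⟩
    obtain ⟨F, f1, ⟨f2, f3, f4⟩, f5, f6⟩ := hΛ.par z hz
    refine ⟨fun s => Φ (F s), congrArg Φ f1, ⟨h.smooth.comp f2, Φ.injective.comp f3,
      fun s v hv => ?_⟩, fun s v w => ?_, fun V hV => ?_⟩
    · rw [fd_comp f2 h.smooth] at hv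
      apply f4 s v
      apply om_nondeg
      intro b
      rw [← h.form (F s), hv]
      simp [om]
    · rw [fd_comp f2 h.smooth, fd_comp f2 h.smooth, h.form]
      exact f5 s v w
    · obtain ⟨U, hU, hU'⟩ := f6 V hV
      refine ⟨Φ '' U, H.isOpenMap _ hU, ?_⟩
      rw [← image_image (g := Φ) (f := F), hU', image_inter Φ.injective]

theorem exact {Γ : Subgroup (E n ≃ᵃⁱ[ℝ] E n)} {Λ : Set (E n × E n)}
    (hΛ : IsExact Γ Λ) {Φ : E n × E n ≃ E n × E n} (h : IsExactSymplectic Γ Φ) :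
    IsExact Γ (Φ '' Λ) := by
  obtain ⟨hs, S, s1, s2, s3⟩ := h
  obtain ⟨f, hf1, hf2⟩ := hΛ
  refine ⟨fun y => f (Φ.symm y) + S (Φ.symm y), ?_, ?_⟩
  · rintro γ hγ _ ⟨z, hz, rfl⟩
    simp only
    rw [symm_act hs hγ, Equiv.symm_apply_apply, hf1 γ hγ z hz, s2 γ hγ z]
  · intro F hF hFΛ s
    have hF0 : ContDiff ℝ ∞ (fun s => Φ.symm (F s)) := hs.smooth_symm.comp hF
    have hmem : ∀ s, Φ.symm (F s) ∈ Λ := by
      intro s
      obtain ⟨z, hz, e⟩ := hFΛ s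
      rw [← e, Equiv.symm_apply_apply]
      exact hz
    obtain ⟨l, hl1, hl2⟩ := hf2 _ hF0 hmem s
    have g1 : HasFDerivAt S (fderiv ℝ S (Φ.symm (F s))) (Φ.symm (F s)) :=
      (s1.differentiable (by simp)).differentiableAt.hasFDerivAt
    have g2 : HasFDerivAt (fun s => Φ.symm (F s)) (fderiv ℝ (fun s => Φ.symm (F s)) s) s :=
      (hF0.differentiable (by simp)).differentiableAt.hasFDerivAt
    refine ⟨l + (fderiv ℝ S (Φ.symm (F s))).comp (fderiv ℝ (fun s => Φ.symm (F s)) s),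
      hl1.add (g1.comp s g2), fun v => ?_⟩
    rw [_root_.add_apply, ContinuousLinearMap.comp_apply, hl2, s3,
      ← fd_comp hF0 hs.smooth]
    simp only [Equiv.apply_symm_apply]
    ring

theorem tangent {Γ : Subgroup (E n ≃ᵃⁱ[ℝ] E n)} {Λ : Set (E n × E n)}
    {Φ : E n × E n ≃ E n × E n} (h : IsSymplectic Γ Φ) (z a : E n × E n)
    (ha : IsTangent (Φ '' Λ) (Φ z) a) : ∃ b, IsTangent Λ z b ∧ a = fderiv ℝ Φ z b := by
  obtain ⟨c, c1, c2, c3, c4⟩ := ha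
  have hc0 : ContDiff ℝ ∞ (fun t => Φ.symm (c t)) := h.smooth_symm.comp c1
  have e0 : Φ.symm (c 0) = z := by rw [c3, Equiv.symm_apply_apply]
  refine ⟨deriv (fun t => Φ.symm (c t)) 0, ⟨_, hc0, fun t => ?_, e0, rfl⟩, ?_⟩
  · obtain ⟨w, hw, e⟩ := c2 t
    rw [← e, Equiv.symm_apply_apply]
    exact hw
  · have g1 : HasFDerivAt Φ (fderiv ℝ Φ (Φ.symm (c 0))) (Φ.symm (c 0)) :=
      (h.smooth.differentiable (by simp)).differentiableAt.hasFDerivAt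
    have g2 : HasDerivAt (fun t => Φ.symm (c t)) (deriv (fun t => Φ.symm (c t)) 0) 0 :=
      (hc0.differentiable (by simp)).differentiableAt.hasDerivAt
    have g3 := (g1.comp_hasDerivAt (0 : ℝ) g2).deriv
    have g4 : (Φ ∘ fun t => Φ.symm (c t)) = c := by funext t; simp
    rw [g4, c4, e0] at g3
    exact g3

theorem image {Γ : Subgroup (E n ≃ᵃⁱ[ℝ] E n)} {Λ : Set (E n × E n)}
    {Φ : E n × E n ≃ E n × E n} (h : IsSymplectic Γ Φ) (hI : IsImage Γ (Φ '' Λ)) :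
    IsImage Γ Λ := by
  obtain ⟨ψ, hψ, e⟩ := hI
  refine ⟨ψ.trans Φ.symm, ⟨h.smooth_symm.comp hψ.smooth, hψ.smooth_symm.comp h.smooth,
    fun γ hγ z => ?_, fun z a b => ?_⟩, ?_⟩
  · show Φ.symm (ψ (act γ z)) = act γ (Φ.symm (ψ z))
    rw [hψ.equivariant γ hγ, symm_act h hγ]
  · have f3 : ∀ a, fderiv ℝ (ψ.trans Φ.symm) z a =
        fderiv ℝ Φ.symm (ψ z) (fderiv ℝ ψ z a) := fun a => fd_comp hψ.smooth h.smooth_symm z a
    rw [f3, f3, ← h.form (Φ.symm (ψ z)), inv_fd h.smooth h.smooth_symm,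
      inv_fd h.smooth h.smooth_symm, hψ.form]
  · rw [Equiv.coe_trans, image_comp, e, ← image_comp, Equiv.symm_comp_self, image_id]

end PUSH

open PUSH in
theorem t_PUSH : S_PUSH := fun _ _ hΓ _ hΛ hE _ hΦ =>
  ⟨lag hΓ hΛ hΦ.1, exact hE hΦ, fun z _ a ha => tangent hΦ.1 z a ha, image hΦ.1⟩

end Pool.Agent.NH28.EL
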