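import Pool.Agent.NH28.EL.CORE

/-!
# Transversality to the leaves of a foliation, to a Lagrangian plane
-/

set_option autoImplicit false

open Set Filter Topology Metric Function
open scoped ContDiff RealInnerProductSpace

noncomputable section

namespace Pool.Agent.NH28.EL

/-- exact Lagrangian submanifolds which are transverse to the images of the fibres -/
theorem gen (hP : S_PUSH) {n : ℕ} {Γ : Subgroup (E n ≃ᵃⁱ[ℝ] E n)} (hΓ : IsFlat Γ) {Λ : Set (E n × E n)}
    (hΛ : IsLagrangian Γ Λ) (hE : IsExact Γ Λ) (Φ : E n × E n ≃ E n × E n) (hΦ : IsExactSymplectic Γ Φ)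
    (ht : ∀ z ∈ Λ, ∀ a, IsTangent Λ z a → (fderiv ℝ Φ z a).1 = 0 → a = 0) : IsImage Γ Λ := by
  obtain ⟨h1, h2, h3, h4⟩ := hP n Γ hΓ Λ hΛ hE Φ hΦ
  refine h4 (t_CORE n Γ hΓ _ h1 h2 ?_)
  rintro _ ⟨z, hz, rfl⟩ a ha h0
  obtain ⟨b, hb, rfl⟩ := h3 z hz a ha
  rw [ht z hz b hb h0, map_zero]

namespace PLN

variable {n : ℕ}

/-- the symplectic form as a bilinear form -/
def omB (n : ℕ) : LinearMap.BilinForm ℝ (E n × E n) :=
  LinearMap.mk₂ ℝ om (fun a b c => by simp only [om, Prod.fst_add, Prod.snd_add, inner_add_left, inner_add_right]; ring)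
    (fun r a b => by
      simp only [om, Prod.smul_fst, Prod.smul_snd, inner_smul_left, inner_smul_right, RCLike.conj_to_real,
        smul_eq_mul]
      ring)
    (fun a b c => by simp only [om, Prod.fst_add, Prod.snd_add, inner_add_left, inner_add_right]; ring)
    (fun r a b => by
      simp only [om, Prod.smul_fst, Prod.smul_snd, inner_smul_left, inner_smul_right, RCLike.conj_to_real,
        smul_eq_mul]
      ring)

theorem omB_apply (a b : E n × E n) : omB n a b = om a b := rfl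

theorem om_nd {a : E n × E n} (h : ∀ b, om a b = 0) : a = 0 := by
  have h1 := h (a.2, -a.1)
  simp only [om, inner_neg_left, sub_neg_eq_add] at h1
  have h2 : 0 ≤ ⟪a.2, a.2⟫ := real_inner_self_nonneg
  have h3 : 0 ≤ ⟪a.1, a.1⟫ := real_inner_self_nonneg
  refine Prod.ext ?_ ?_
  · exact (inner_self_eq_zero (𝕜 := ℝ)).1 (le_antisymm (by linarith) h3)
  · exact (inner_self_eq_zero (𝕜 := ℝ)).1 (le_antisymm (by linarith) h2)

theorem omB_nd : (omB n).Nondegenerate := by
  refine ⟨fun x hx => om_nd hx, fun y hy => om_nd fun b => ?_⟩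
  have h1 : om b y = 0 := hy b
  have h2 : om y b = - om b y := by
    simp only [om]
    ring
  rw [h2, h1, neg_zero]

theorem lag_mem {W : Submodule ℝ (E n × E n)} (hW : Module.finrank ℝ W = n)
    (hi : ∀ a ∈ W, ∀ b ∈ W, om a b = 0) {x : E n × E n} (hx : ∀ w ∈ W, om w x = 0) : x ∈ W := by
  have h1 := LinearMap.BilinForm.finrank_orthogonal omB_nd W
  have h2 : W ≤ (omB n).orthogonal W := by
    intro w hw v hv
    exact hi v hv w hw
  have h3 : Module.finrank ℝ (E n × E n) = n + n := by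
    rw [Module.finrank_prod, finrank_euclideanSpace_fin]
  have h4 : W = (omB n).orthogonal W := by
    refine Submodule.eq_of_le_of_finrank_eq h2 ?_
    rw [h1, h3, hW]
    omega
  rw [h4]
  intro w hw
  exact hx w hw

end PLN

open PLN in
/-- flat tori: exact Lagrangian submanifolds which are transverse to a Lagrangian plane -/
theorem plane (hP : S_PUSH) (hF : S_FOL) {n : ℕ} {Γ : Subgroup (E n ≃ᵃⁱ[ℝ] E n)} (hΓ : IsFlat Γ)
    (htr : ∀ γ ∈ Γ, ∀ p : E n, γ.linearIsometryEquiv p = p) {Λ : Set (E n × E n)}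
    (hΛ : IsLagrangian Γ Λ) (hE : IsExact Γ Λ) (P : Submodule ℝ (E n × E n))
    (hPn : Module.finrank ℝ P = n) (hPi : ∀ a ∈ P, ∀ b ∈ P, om a b = 0)
    (ht : ∀ z ∈ Λ, ∀ a ∈ P, IsTangent Λ z a → a = 0) : IsImage Γ Λ := by
  -- the plane is transverse to the zero section
  have hhor : ∀ ξ : E n, (ξ, (0 : E n)) ∈ P → ξ = 0 := by
    intro ξ hξ
    obtain ⟨K, hK, hKc⟩ := hΓ.cocompact
    obtain ⟨R, hR⟩ := hΛ.bdd
    have hcpt : IsCompact (Λ ∩ K ×ˢ closedBall (0 : E n) R) :=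
      (hK.prod (isCompact_closedBall _ _)).inter_left hΛ.closed
    have htrans : ∀ z ∈ Λ, ∃ w ∈ Λ ∩ K ×ˢ closedBall (0 : E n) R, w.2 = z.2 := by
      intro z hz
      obtain ⟨γ, hγ, hγK⟩ := hKc z.1
      refine ⟨act γ z, ⟨hΛ.inv γ hγ z hz, hγK, ?_⟩, htr γ hγ z.2⟩
      rw [mem_closedBall_zero_iff]
      show ‖γ.linearIsometryEquiv z.2‖ ≤ R
      rw [LinearIsometryEquiv.norm_map]
      exact hR z hz
    obtain ⟨z₀, hz₀⟩ := hΛ.nonempty
    obtain ⟨w₀, hw₀, -⟩ := htrans z₀ hz₀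
    obtain ⟨m, hm, hmax⟩ := hcpt.exists_isMaxOn ⟨w₀, hw₀⟩
      (f := fun z : E n × E n => ⟪z.2, ξ⟫) (by fun_prop)
    have hmax' : ∀ z ∈ Λ, ⟪z.2, ξ⟫ ≤ ⟪m.2, ξ⟫ := by
      intro z hz
      obtain ⟨w, hw, hwz⟩ := htrans z hz
      rw [← hwz]
      exact hmax hw
    obtain ⟨F, hF0, ⟨hFs, hFi, himm⟩, hom, hU⟩ := hΛ.par m hm.1
    have hFΛ : ∀ s, F s ∈ Λ := by
      intro s
      obtain ⟨U, -, hU'⟩ := hU univ isOpen_univ
      have : F s ∈ F '' univ := mem_image_of_mem _ (mem_univ s)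
      rw [hU'] at this
      exact this.1
    have hFd : HasFDerivAt F (fderiv ℝ F 0) 0 :=
      (hFs.differentiable (by simp)).differentiableAt.hasFDerivAt
    have hlm : IsLocalMax (fun s => ⟪ξ, (F s).2⟫) 0 := by
      refine Eventually.of_forall fun s => ?_
      show ⟪ξ, (F s).2⟫ ≤ ⟪ξ, (F 0).2⟫
      rw [hF0, real_inner_comm, real_inner_comm m.2]
      exact hmax' _ (hFΛ s)
    have hd : HasFDerivAt (fun s => ⟪ξ, (F s).2⟫) ((innerSL ℝ ξ).comp
        ((ContinuousLinearMap.snd ℝ (E n) (E n)).comp (fderiv ℝ F 0))) 0 :=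
      (innerSL ℝ ξ).hasFDerivAt.comp (0 : E n) hFd.snd
    have h0 := hlm.hasFDerivAt_eq_zero hd
    have h1 : ∀ v, ⟪ξ, (fderiv ℝ F 0 v).2⟫ = 0 := fun v =>
      congrArg (fun L : E n →L[ℝ] ℝ => L v) h0
    let W : Submodule ℝ (E n × E n) := LinearMap.range (fderiv ℝ F 0 : E n →ₗ[ℝ] E n × E n)
    have hW : Module.finrank ℝ W = n := by
      have := LinearMap.finrank_range_of_inj (f := (fderiv ℝ F 0 : E n →ₗ[ℝ] E n × E n)) (by
        rw [← LinearMap.ker_eq_bot, LinearMap.ker_eq_bot']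
        intro v hv
        exact himm 0 v hv)
      rw [finrank_euclideanSpace_fin] at this
      exact this
    have hmem : (ξ, (0 : E n)) ∈ W := by
      refine lag_mem hW ?_ ?_
      · rintro _ ⟨v, rfl⟩ _ ⟨w, rfl⟩
        exact hom 0 v w
      · rintro _ ⟨v, rfl⟩
        show om (fderiv ℝ F 0 v) (ξ, 0) = 0
        simp only [om, inner_zero_left, sub_zero]
        rw [real_inner_comm]
        exact h1 v
    obtain ⟨v, hv⟩ := hmem
    have hv' : fderiv ℝ F 0 v = (ξ, 0) := hv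
    have htan : IsTangent Λ m (ξ, 0) := by
      have := CORE.tangent_of_map hFs hFΛ 0 v
      rw [hF0, hv'] at this
      exact this
    exact congrArg Prod.fst (ht m hm.1 _ hξ htan)
  -- the plane is a graph
  let π : P →ₗ[ℝ] E n := (LinearMap.snd ℝ (E n) (E n)).comp P.subtype
  have hπ : Injective π := by
    rw [← LinearMap.ker_eq_bot, LinearMap.ker_eq_bot']
    rintro ⟨a, ha⟩ h
    have h2 : a.2 = 0 := h
    have h3 : a = (a.1, 0) := Prod.ext rfl h2
    have h4 : a.1 = 0 := hhor a.1 (by rw [← h3]; exact ha)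
    apply Subtype.ext
    exact Prod.ext h4 h2
  let e : P ≃ₗ[ℝ] E n := LinearMap.linearEquivOfInjective π hπ (by rw [hPn, finrank_euclideanSpace_fin])
  have he : ∀ w, ((e.symm w : P) : E n × E n).2 = w := by
    intro w
    have h1 : e (e.symm w) = w := e.apply_symm_apply w
    exact h1
  let S₀ : E n →ₗ[ℝ] E n := -((LinearMap.fst ℝ (E n) (E n)).comp (P.subtype.comp (e.symm : E n →ₗ[ℝ] P)))
  let S : E n →L[ℝ] E n := LinearMap.toContinuousLinearMap S₀
  have hS : ∀ w, (-(S w), w) ∈ P := by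
    intro w
    have h1 : (-(S w), w) = ((e.symm w : P) : E n × E n) := by
      refine Prod.ext ?_ ?_
      · show -(-(((e.symm w : P) : E n × E n).1)) = _
        rw [neg_neg]
      · exact (he w).symm
    rw [h1]
    exact (e.symm w).2
  have hSs : ∀ v w, ⟪S v, w⟫ = ⟪v, S w⟫ := by
    intro v w
    have h1 := hPi _ (hS v) _ (hS w)
    simp only [om, inner_neg_right] at h1
    have h2 := real_inner_comm (S v) w
    linarith
  have hgrad : ∀ p, HasGradientAt (fun p => 1 / 2 * ⟪S p, p⟫) (S p) p := by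
    intro p
    rw [hasGradientAt_iff_hasFDerivAt]
    have h1 : HasFDerivAt (fun p => ⟪S p, p⟫)
        ((fderivInnerCLM ℝ (S p, p)).comp (S.prod (ContinuousLinearMap.id ℝ (E n)))) p :=
      S.hasFDerivAt.inner ℝ (hasFDerivAt_id p)
    have h2 := h1.const_mul (1 / 2 : ℝ)
    refine h2.congr_fderiv ?_
    ext1 v
    simp only [smul_apply, ContinuousLinearMap.comp_apply, ContinuousLinearMap.prod_apply,
      ContinuousLinearMap.id_apply, fderivInnerCLM_apply, InnerProductSpace.toDual_apply_apply, smul_eq_mul]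
    rw [hSs v p, real_inner_comm (S p) v]
    ring
  obtain ⟨Φ, hΦ, -, hΦd⟩ := hF n Γ (fun p => 1 / 2 * ⟪S p, p⟫) S S.contDiff hgrad
    (fun γ hγ p => by simp only [htr γ hγ])
  refine gen hP hΓ hΛ hE Φ hΦ ?_
  intro z hz a ha h0
  rw [hΦd, ContinuousLinearMap.fderiv] at h0
  refine ht z hz a ?_ ha
  have h1 : a = (-(S a.2), a.2) := Prod.ext (eq_neg_of_add_eq_zero_left h0) rfl
  rw [h1]
  exact hS a.2

end Pool.Agent.NH28.EL
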