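import Pool.Agent.NH28.EL.CORE

/-!
# Exact Lagrangian submanifolds which are transverse to the fibres are graphs of exact forms
-/

set_option autoImplicit false

open Set Filter Topology Metric Function
open scoped ContDiff RealInnerProductSpace

noncomputable section

namespace Pool.Agent.NH28.EL

open CORE

/-- `Λ` is the graph of `dg` for a smooth function `g` on `ℝⁿ / Γ` -/
def IsGraph {n : ℕ} (Γ : Subgroup (E n ≃ᵃⁱ[ℝ] E n)) (Λ : Set (E n × E n)) : Prop :=
  ∃ g : E n → ℝ, ContDiff ℝ ∞ g ∧ (∀ γ ∈ Γ, ∀ x, g (γ x) = g x) ∧ Λ = {z | HasGradientAt g z.2 z.1}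

theorem graph_of_transverse {n : ℕ} {Γ : Subgroup (E n ≃ᵃⁱ[ℝ] E n)} (hΓ : IsFlat Γ) {Λ : Set (E n × E n)}
    (hΛ : IsLagrangian Γ Λ) (hE : IsExact Γ Λ)
    (ht : ∀ z ∈ Λ, ∀ a, IsTangent Λ z a → a.1 = 0 → a = 0) : IsGraph Γ Λ := by
  have huniq := injective_proj hΓ hΛ hE ht
  obtain ⟨ψ, hψ, hψΛ⟩ := t_CORE n Γ hΓ Λ hΛ hE ht
  obtain ⟨f, hfΓ, hf⟩ := hE
  -- surjectivity
  have hsurj : Prod.fst '' Λ = (univ : Set (E n)) := by
    refine IsClopen.eq_univ ⟨?_, ?_⟩ (hΛ.nonempty.image _)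
    · rw [← isSeqClosed_iff_isClosed]
      intro x y hx hxy
      obtain ⟨R, hR⟩ := hΛ.bdd
      choose z hz hzx using hx
      obtain ⟨N, hN⟩ := (Metric.isBounded_range_of_tendsto x hxy).exists_norm_le
      have hb : ∀ i, z i ∈ closedBall (0 : E n × E n) (max N R) := by
        intro i
        rw [mem_closedBall_zero_iff, Prod.norm_def]
        refine max_le_max ?_ (hR _ (hz i))
        rw [hzx i]
        exact hN _ (mem_range_self i)
      obtain ⟨w, -, φ, hφ, hw⟩ := (isCompact_closedBall (0 : E n × E n) (max N R)).tendsto_subseq hb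
      have hwΛ : w ∈ Λ := hΛ.closed.mem_of_tendsto hw (Eventually.of_forall fun i => hz _)
      refine ⟨w, hwΛ, ?_⟩
      have h1 : Tendsto (fun i => (z (φ i)).1) atTop (𝓝 w.1) := (continuous_fst.tendsto w).comp hw
      have h2 : Tendsto (fun i => (z (φ i)).1) atTop (𝓝 y) := by
        have h3 : (fun i => (z (φ i)).1) = fun i => x (φ i) := funext fun i => hzx _
        rw [h3]
        exact hxy.comp hφ.tendsto_atTop
      exact tendsto_nhds_unique h1 h2
    · rw [isOpen_iff_mem_nhds]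
      rintro _ ⟨z, hz, rfl⟩
      obtain ⟨F, I, -, -, hFΛ, -, hr, -⟩ := local_str hΛ ht z hz
      filter_upwards [hr] with x hx
      exact ⟨F (I x), hFΛ _, hx⟩
  have hex : ∀ x, ∃ z, z ∈ Λ ∧ z.1 = x := by
    intro x
    have : x ∈ Prod.fst '' Λ := by rw [hsurj]; trivial
    obtain ⟨z, hz, hzx⟩ := this
    exact ⟨z, hz, hzx⟩
  choose B hBΛ hB1 using hex
  have hloc : ∀ x, ContDiffAt ℝ ∞ B x ∧ HasGradientAt (fun y => f (B y)) (B x).2 x := by
    intro x
    obtain ⟨F, I, hF, hI, hFΛ, hFI, hr, hom, -⟩ := local_str hΛ ht (B x) (hBΛ x)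
    rw [hB1] at hI hr hFI
    have he : B =ᶠ[𝓝 x] fun y => F (I y) := by
      filter_upwards [hr] with y hy
      exact huniq _ (hBΛ y) _ (hFΛ _) ((hB1 y).trans hy.symm)
    have hc : ContDiffAt ℝ ∞ (fun y => F (I y)) x := hF.contDiffAt.comp x hI
    refine ⟨hc.congr_of_eventuallyEq he, ?_⟩
    have h1 := deriv_section (hf F hF hFΛ (I x)) hF hI hr
    rw [hFI] at h1
    rw [hasGradientAt_iff_hasFDerivAt]
    have h2 : (fun y => f (B y)) =ᶠ[𝓝 x] fun y => f (F (I y)) := he.fun_comp f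
    exact h1.congr_of_eventuallyEq h2
  have hBs : ContDiff ℝ ∞ B := contDiff_iff_contDiffAt.2 fun x => (hloc x).1
  refine ⟨fun y => f (B y), ?_, ?_, ?_⟩
  · have h1 : ContDiff ℝ ∞ (fderiv ℝ (fun y => f (B y))) := by
      have h2 : fderiv ℝ (fun y => f (B y)) = fun x => innerSL ℝ (B x).2 := by
        funext x
        exact ((hasGradientAt_iff_hasFDerivAt.1 (hloc x).2)).fderiv
      rw [h2]
      exact (innerSL ℝ).contDiff.comp (contDiff_snd.comp hBs)
    rw [contDiff_infty_iff_fderiv]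
    exact ⟨fun x => ((hasGradientAt_iff_hasFDerivAt.1 (hloc x).2)).differentiableAt, h1⟩
  · intro γ hγ x
    have h1 := huniq _ (hΛ.inv γ hγ _ (hBΛ x)) _ (hBΛ (γ x)) (by
      rw [hB1]
      show γ (B x).1 = γ x
      rw [hB1])
    show f (B (γ x)) = f (B x)
    rw [← h1, hfΓ γ hγ _ (hBΛ x)]
  · ext z
    constructor
    · intro hz
      have h1 : B z.1 = z := huniq _ (hBΛ _) _ hz (hB1 _)
      have h2 := (hloc z.1).2
      rw [h1] at h2
      exact h2
    · intro hz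
      have h1 : (B z.1).2 = z.2 := (hloc z.1).2.unique hz
      have h2 : B z.1 = z := Prod.ext (hB1 _) h1
      rw [← h2]
      exact hBΛ _

end Pool.Agent.NH28.EL
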