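import Mathlib

/-!
# Exact Lagrangian submanifolds of the cotangent bundles of compact flat manifolds: statements

`N = ℝⁿ / Γ` is a compact flat manifold, `T*N = (ℝⁿ × ℝⁿ) / Γ`. A closed submanifold `L` of `T*N` is given
by its preimage `Λ` in `ℝⁿ × ℝⁿ`.
-/

set_option autoImplicit false

open Set Filter Topology Metric Function
open scoped ContDiff RealInnerProductSpace

noncomputable section

namespace Pool.Agent.NH28.EL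

/-- Euclidean space -/
abbrev E (n : ℕ) := EuclideanSpace ℝ (Fin n)

variable {n : ℕ}

/-- the symplectic form `dp ∧ dq` of `ℝⁿ × ℝⁿ`; the points and the vectors are pairs `(q, p)` -/
def om (a b : E n × E n) : ℝ := ⟪a.2, b.1⟫ - ⟪b.2, a.1⟫

/-- the action of an isometry `γ` of `ℝⁿ` on `T*ℝⁿ`: `(q, p) ↦ (γ q, dγ p)` -/
def act (γ : E n ≃ᵃⁱ[ℝ] E n) (z : E n × E n) : E n × E n := (γ z.1, γ.linearIsometryEquiv z.2)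

/-- `ℝⁿ / Γ` is a compact flat manifold: `Γ` acts properly discontinuously, freely and with a compact
quotient -/
structure IsFlat (Γ : Subgroup (E n ≃ᵃⁱ[ℝ] E n)) : Prop where
  cocompact : ∃ K : Set (E n), IsCompact K ∧ ∀ x, ∃ γ ∈ Γ, γ x ∈ K
  proper : ∀ K : Set (E n), IsCompact K → {γ : E n ≃ᵃⁱ[ℝ] E n | γ ∈ Γ ∧ (γ '' K ∩ K).Nonempty}.Finite
  free : ∀ γ ∈ Γ, ∀ x : E n, γ x = x → γ = 1

/-- `F : ℝⁿ → ℝⁿ × ℝⁿ` is an injective smooth immersion -/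
def IsInjImmersion (F : E n → E n × E n) : Prop :=
  ContDiff ℝ ∞ F ∧ Injective F ∧ ∀ s v, fderiv ℝ F s v = 0 → v = 0

/-- `F` pulls back `dp ∧ dq` to zero -/
def IsIsotropic (F : E n → E n × E n) : Prop :=
  ∀ s v w, om (fderiv ℝ F s v) (fderiv ℝ F s w) = 0

/-- `Λ ⊆ ℝⁿ × ℝⁿ` is the preimage of a nonempty compact Lagrangian submanifold without boundary of
`T*(ℝⁿ / Γ)`: it is closed, invariant under `Γ`, bounded in `p`, and every point `z` of `Λ` is `F 0` for an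
injective smooth immersion `F : ℝⁿ → ℝⁿ × ℝⁿ` which is open as a map to `Λ` and pulls back `dp ∧ dq` to
zero. -/
structure IsLagrangian (Γ : Subgroup (E n ≃ᵃⁱ[ℝ] E n)) (Λ : Set (E n × E n)) : Prop where
  closed : IsClosed Λ
  nonempty : Λ.Nonempty
  inv : ∀ γ ∈ Γ, ∀ z ∈ Λ, act γ z ∈ Λ
  bdd : ∃ R : ℝ, ∀ z ∈ Λ, ‖z.2‖ ≤ R
  par : ∀ z ∈ Λ, ∃ F : E n → E n × E n, F 0 = z ∧ IsInjImmersion F ∧ IsIsotropic F ∧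
    ∀ V : Set (E n), IsOpen V → ∃ U, IsOpen U ∧ F '' V = Λ ∩ U

/-- The Liouville form `p dq` is exact on the submanifold of `T*(ℝⁿ / Γ)` with the preimage `Λ`: there is a
function `f` on `Λ`, invariant under `Γ`, such that `d (f ∘ F) = F^* (p dq)` for all smooth maps `F` to `Λ`. -/
def IsExact (Γ : Subgroup (E n ≃ᵃⁱ[ℝ] E n)) (Λ : Set (E n × E n)) : Prop :=
  ∃ f : E n × E n → ℝ, (∀ γ ∈ Γ, ∀ z ∈ Λ, f (act γ z) = f z) ∧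
    ∀ F : E n → E n × E n, ContDiff ℝ ∞ F → (∀ s, F s ∈ Λ) → ∀ s, ∃ ℓ : E n →L[ℝ] ℝ,
      HasFDerivAt (fun s => f (F s)) ℓ s ∧ ∀ v, ℓ v = ⟪(F s).2, (fderiv ℝ F s v).1⟫

/-- `a` is a tangent vector of `Λ` at the point `z`: the velocity of a smooth curve in `Λ` -/
def IsTangent (Λ : Set (E n × E n)) (z a : E n × E n) : Prop :=
  ∃ c : ℝ → E n × E n, ContDiff ℝ ∞ c ∧ (∀ t, c t ∈ Λ) ∧ c 0 = z ∧ deriv c 0 = a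

/-- `ψ` is (the lift of) a symplectic diffeomorphism of `T*(ℝⁿ / Γ)` -/
structure IsSymplectic (Γ : Subgroup (E n ≃ᵃⁱ[ℝ] E n)) (ψ : E n × E n ≃ E n × E n) : Prop where
  smooth : ContDiff ℝ ∞ ψ
  smooth_symm : ContDiff ℝ ∞ ψ.symm
  equivariant : ∀ γ ∈ Γ, ∀ z, ψ (act γ z) = act γ (ψ z)
  form : ∀ z a b, om (fderiv ℝ ψ z a) (fderiv ℝ ψ z b) = om a b

/-- `ψ` is an exact symplectic diffeomorphism of `T*(ℝⁿ / Γ)`: `ψ^* (p dq) - p dq = dS` for a function `S` on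
`T*(ℝⁿ / Γ)` -/
def IsExactSymplectic (Γ : Subgroup (E n ≃ᵃⁱ[ℝ] E n)) (ψ : E n × E n ≃ E n × E n) : Prop :=
  IsSymplectic Γ ψ ∧ ∃ S : E n × E n → ℝ, ContDiff ℝ ∞ S ∧ (∀ γ ∈ Γ, ∀ z, S (act γ z) = S z) ∧
    ∀ z a, fderiv ℝ S z a = ⟪(ψ z).2, (fderiv ℝ ψ z a).1⟫ - ⟪z.2, a.1⟫

/-- The second fundamental form of `Λ` is bounded by `K`: through every point there is a curve in `Λ` in every
direction with unit tangent vector and acceleration at most `K` (the geodesics of `Λ`). The norms are the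
Euclidean norms of `ℝⁿ × ℝⁿ`. -/
def HasCurvatureLE (Λ : Set (E n × E n)) (K : ℝ) : Prop :=
  ∀ z ∈ Λ, ∀ a, IsTangent Λ z a → ‖a.1‖ ^ 2 + ‖a.2‖ ^ 2 = 1 →
    ∃ c c' c'' : ℝ → E n × E n, c 0 = z ∧ c' 0 = a ∧ ∀ t, c t ∈ Λ ∧ HasDerivAt c (c' t) t ∧
      HasDerivAt c' (c'' t) t ∧ ‖(c' t).1‖ ^ 2 + ‖(c' t).2‖ ^ 2 = 1 ∧
      ‖(c'' t).1‖ ^ 2 + ‖(c'' t).2‖ ^ 2 ≤ K ^ 2

/-- the conclusion: `Λ` is the image of the zero section under a symplectic diffeomorphism -/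
def IsImage (Γ : Subgroup (E n ≃ᵃⁱ[ℝ] E n)) (Λ : Set (E n × E n)) : Prop :=
  ∃ ψ : E n × E n ≃ E n × E n, IsSymplectic Γ ψ ∧ ψ '' {z | z.2 = 0} = Λ

/-- `Λ` is one-sided with respect to the function `H` on `T*(ℝⁿ / Γ)`, where `g = ∂H/∂p`: with the matrix
`B = ∂²H/∂p²` at the point `z`, the tangent vectors `(v, w)` of `Λ` at `z` satisfy `⟪v, B w⟫ ≥ -C ‖v‖²` and
`b ‖w‖ ≤ ‖B w‖ + C ‖v‖`. -/
def IsOneSided (Λ : Set (E n × E n)) (g : E n × E n → E n) : Prop :=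
  ∃ C b : ℝ, 0 < b ∧ ∀ z ∈ Λ, ∀ a, IsTangent Λ z a →
    -C * ‖a.1‖ ^ 2 ≤ ⟪a.1, fderiv ℝ g z (0, a.2)⟫ ∧ b * ‖a.2‖ ≤ ‖fderiv ℝ g z (0, a.2)‖ + C * ‖a.1‖

/-! ### Statements of the parts -/

/-- CORE: exact Lagrangian submanifolds which are transverse to the fibres -/
def S_CORE : Prop := ∀ (n : ℕ) (Γ : Subgroup (E n ≃ᵃⁱ[ℝ] E n)), IsFlat Γ → ∀ Λ : Set (E n × E n),
  IsLagrangian Γ Λ → IsExact Γ Λ → (∀ z ∈ Λ, ∀ a, IsTangent Λ z a → a.1 = 0 → a = 0) → IsImage Γ Λ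

/-- PUSH: images under exact symplectic diffeomorphisms -/
def S_PUSH : Prop := ∀ (n : ℕ) (Γ : Subgroup (E n ≃ᵃⁱ[ℝ] E n)), IsFlat Γ → ∀ Λ : Set (E n × E n),
  IsLagrangian Γ Λ → IsExact Γ Λ → ∀ Φ : E n × E n ≃ E n × E n, IsExactSymplectic Γ Φ →
  IsLagrangian Γ (Φ '' Λ) ∧ IsExact Γ (Φ '' Λ) ∧
  (∀ z ∈ Λ, ∀ a, IsTangent (Φ '' Λ) (Φ z) a → ∃ b, IsTangent Λ z b ∧ a = fderiv ℝ Φ z b) ∧
  (IsImage Γ (Φ '' Λ) → IsImage Γ Λ)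

/-- FOL: the exact symplectic diffeomorphism `(q, p) ↦ (q + ∇k(p), p)` -/
def S_FOL : Prop := ∀ (n : ℕ) (Γ : Subgroup (E n ≃ᵃⁱ[ℝ] E n)) (k : E n → ℝ) (h : E n → E n),
  ContDiff ℝ ∞ h → (∀ p, HasGradientAt k (h p) p) → (∀ γ ∈ Γ, ∀ p, k (γ.linearIsometryEquiv p) = k p) →
  ∃ Φ : E n × E n ≃ E n × E n, IsExactSymplectic Γ Φ ∧ (∀ z, Φ z = (z.1 + h z.2, z.2)) ∧
    ∀ z a, (fderiv ℝ Φ z a).1 = a.1 + fderiv ℝ h z.2 a.2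

/-- CUR: thin submanifolds with bounded curvature are transverse to the fibres -/
def S_CUR : Prop := ∀ (n : ℕ) (Λ : Set (E n × E n)) (K δ : ℝ), 0 ≤ K → HasCurvatureLE Λ K →
  (∀ z ∈ Λ, ∀ z' ∈ Λ, ‖z.2 - z'.2‖ ≤ δ) → K * δ < 2 →
  ∀ z ∈ Λ, ∀ a, IsTangent Λ z a → a.1 = 0 → a = 0

/-- GEN: the exact symplectic diffeomorphism with the generating function `⟨q, p⟩ + t K(q, p)` for small `t`;
`w = (x, p)`, `Φ (q, p) = (x, p - t ∂K/∂q (x, p))`, `x = q + t ∂K/∂p (x, p)`. -/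
def S_GEN : Prop := ∀ (n : ℕ) (Γ : Subgroup (E n ≃ᵃⁱ[ℝ] E n)), IsFlat Γ → ∀ (K : E n × E n → ℝ),
  ContDiff ℝ ∞ K → (∀ γ ∈ Γ, ∀ z, K (act γ z) = K z) → ∀ R : ℝ, (∀ w, R < ‖w.2‖ → K w = 0) →
  ∃ (k₁ k₂ : E n × E n → E n) (M : ℝ), 0 ≤ M ∧ ContDiff ℝ ∞ k₁ ∧ ContDiff ℝ ∞ k₂ ∧
    (∀ w a, fderiv ℝ K w a = ⟪k₁ w, a.1⟫ + ⟪k₂ w, a.2⟫) ∧ (∀ w, ‖k₂ w‖ ≤ M) ∧
    (∀ w a, ‖fderiv ℝ k₂ w a‖ ≤ M * (‖a.1‖ + ‖a.2‖)) ∧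
    (∀ w w' a, ‖fderiv ℝ k₂ w a - fderiv ℝ k₂ w' a‖ ≤ M * ‖w - w'‖ * (‖a.1‖ + ‖a.2‖)) ∧
    ∃ t₀ : ℝ, 0 < t₀ ∧ ∀ t : ℝ, 0 < t → t ≤ t₀ →
      ∃ Φ : E n × E n ≃ E n × E n, IsExactSymplectic Γ Φ ∧
        ∀ z, (Φ z).1 = z.1 + t • k₂ ((Φ z).1, z.2)

/-- HAM: one-sided submanifolds are transverse to the fibres after a small exact symplectic diffeomorphism -/
def S_HAM : Prop := S_GEN → ∀ (n : ℕ) (Γ : Subgroup (E n ≃ᵃⁱ[ℝ] E n)), IsFlat Γ → ∀ Λ : Set (E n × E n),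
  IsLagrangian Γ Λ → ∀ (H : E n × E n → ℝ) (g : E n × E n → E n), ContDiff ℝ ∞ H → ContDiff ℝ ∞ g →
  (∀ z w, fderiv ℝ H z (0, w) = ⟪g z, w⟫) → (∀ γ ∈ Γ, ∀ z, H (act γ z) = H z) → IsOneSided Λ g →
  ∃ Φ : E n × E n ≃ E n × E n, IsExactSymplectic Γ Φ ∧
    ∀ z ∈ Λ, ∀ a, IsTangent Λ z a → (fderiv ℝ Φ z a).1 = 0 → a = 0

end Pool.Agent.NH28.EL
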